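import Pool.Agent.Lib.MP_6b2d39_agNw.Defs
import Pool.Agent.Lib.MP_6b2d39_agWin.ToCurves

open Polynomial

set_option autoImplicit false

namespace Pool.Agent.Lib.MP_6b2d39_agNw

open Pool.Agent.Lib.MP_6b2d39_ag Pool.Agent.Lib.MP_6b2d39_ag.Rel
  Pool.Agent.Lib.MP_6b2d39_agWin Pool.Agent.Lib.MP_6b2d39_agArr Pool.Agent.Lib.MP_6b2d39_agCr

/-- the dehomogenisation of a form of degree `d` -/
theorem inV_dehX {F : MvPolynomial (Fin 3) ℂ} {d : ℕ} (hF : F.IsHomogeneous d) :
    InV (d + 1) (dehX F) := by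
  intro i j hij
  rw [ToCurves_coeff]
  refine Finset.sum_eq_zero fun u hu => ?_
  rw [if_neg]
  rintro ⟨rfl, rfl⟩
  have h3 := ToCurves_deg hF hu
  omega

open Classical in
/-- the configuration of base points -/
noncomputable def configP {h : ℕ} (S : Finset (Fin h)) (t x y : Fin h → ℂ) : Fin h → Fin 3 → ℂ :=
  fun l => if l ∈ S then ![t l, t l ^ 3, 1] else ![x l, y l, 1]

theorem configP_on {h : ℕ} {S : Finset (Fin h)} {t x y : Fin h → ℂ} {l : Fin h} (hl : l ∈ S) :
    configP S t x y l = ![t l, t l ^ 3, 1] := by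
  unfold configP
  rw [if_pos hl]

theorem configP_off {h : ℕ} {S : Finset (Fin h)} {t x y : Fin h → ℂ} {l : Fin h} (hl : l ∉ S) :
    configP S t x y l = ![x l, y l, 1] := by
  unfold configP
  rw [if_neg hl]

/-- R18. heavy points on the cubic, light points and `u` simple points given (as `exists_config`) -/
theorem exists_configS {h d u : ℕ} {m : Fin h → ℕ} (S : Finset (Fin h)) (t : Fin h → ℂ)
    (x y : Fin h ⊕ Fin u → ℂ)
    (hE : ∀ F ∈ sys d S m t,
      (∀ i ∈ Finset.univ.filter (fun i : Fin h ⊕ Fin u => ∀ l ∈ S, i ≠ Sum.inl l),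
        Cond (Finset.Icc 1 ((Sum.elim m (fun _ => 1) : Fin h ⊕ Fin u → ℕ) i)) (x i) (y i) F) →
      F = 0) :
    ∃ P₀ : Fin h → Fin 3 → ℂ, Module.finrank ℂ (curves d m P₀) ≤ u := by
  refine ⟨configP S t (fun l => x (Sum.inl l)) (fun l => y (Sum.inl l)), ?_⟩
  set P₀ := configP S t (fun l => x (Sum.inl l)) (fun l => y (Sum.inl l)) with hP₀
  let f : curves d m P₀ →ₗ[ℂ] (Fin u → ℂ) :=
    { toFun := fun F k => MvPolynomial.eval ![x (Sum.inr k), y (Sum.inr k), 1] F.1
      map_add' := by intro F G; ext k; simp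
      map_smul' := by intro c F; ext k; simp [MvPolynomial.smul_eval] }
  have hf : Function.Injective f := by
    rw [← LinearMap.ker_eq_bot, LinearMap.ker_eq_bot']
    rintro ⟨F, hF⟩ h0
    obtain ⟨hF1, hF2⟩ := mem_curves.1 hF
    have h1 : dehX F = 0 := by
      apply hE
      · rw [mem_sys]
        refine ⟨inV_dehX hF1, fun i hi => ?_⟩
        have := hF2 i
        rw [hP₀, configP_on hi] at this
        exact cond_dehX this
      · intro i hi
        rw [Finset.mem_filter] at hi
        rcases i with l | k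
        · have hl : l ∉ S := fun h => hi.2 l h rfl
          have := hF2 l
          rw [hP₀, configP_off hl] at this
          exact cond_dehX this
        · have h2 : MvPolynomial.eval ![x (Sum.inr k), y (Sum.inr k), 1] F = 0 := congrFun h0 k
          exact cond_dehX (van_one_iff.2 h2)
    exact Subtype.ext (dehX_eq_zero hF1 h1)
  have h3 := LinearMap.finrank_le_finrank_of_injective hf
  simpa using h3

end Pool.Agent.Lib.MP_6b2d39_agNw
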