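import Pool.Agent.Lib.MP_6b2d39_agNw.Defs
import Pool.Agent.Lib.MP_6b2d39_agWin.Lin

open Polynomial

set_option autoImplicit false

namespace Pool.Agent.Lib.MP_6b2d39_agNw

open Pool.Agent.Lib.MP_6b2d39_ag Pool.Agent.Lib.MP_6b2d39_ag.Rel
  Pool.Agent.Lib.MP_6b2d39_agWin Pool.Agent.Lib.MP_6b2d39_agArr

/-- scaling of both coordinates, with weights `1` and `K` -/
private theorem entry_scale2 (s x y : ℂ) (K a b i j : ℕ) :
    s ^ (a + K * b) * Transfer.entry (s * x) (s ^ K * y) a b i j =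
      s ^ (i + K * j) * Transfer.entry x y a b i j := by
  unfold Transfer.entry
  by_cases h : a ≤ i
  · by_cases h' : b ≤ j
    · rw [mul_pow, mul_pow, ← pow_mul]
      have h1 : s ^ (i + K * j) = s ^ (a + K * b) * (s ^ (i - a) * s ^ (K * (j - b))) := by
        rw [← pow_add, ← pow_add]
        congr 1
        have h2 : K * j = K * b + K * (j - b) := by
          rw [← mul_add]
          congr 1
          omega
        omega
      rw [h1]
      ring
    · rw [Nat.choose_eq_zero_of_lt (show j < b by omega)]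
      simp
  · rw [Nat.choose_eq_zero_of_lt (show i < a by omega)]
    simp

/-- all exponents of a bivariate polynomial -/
private noncomputable def suppAll (f : ℂ[X][X]) : Finset (ℕ × ℕ) :=
  f.support.biUnion fun i => (f.coeff i).support.image fun j => (i, j)

private theorem mem_suppAll {f : ℂ[X][X]} {i j : ℕ} (h : (f.coeff i).coeff j ≠ 0) :
    (i, j) ∈ suppAll f := by
  unfold suppAll
  rw [Finset.mem_biUnion]
  refine ⟨i, ?_, ?_⟩
  · rw [mem_support_iff]
    intro h0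
    rw [h0, coeff_zero] at h
    exact h rfl
  · rw [Finset.mem_image]
    exact ⟨j, mem_support_iff.2 h, rfl⟩

/-- a square matrix of polynomials, invertible at `0`, is invertible at some nonzero number -/
private theorem exists_det_ne {n : Type*} [Fintype n] [DecidableEq n] (M : Matrix n n ℂ[X])
    (hM : (M.map (Polynomial.eval 0)).det ≠ 0) :
    ∃ s : ℂ, s ≠ 0 ∧ (M.map (Polynomial.eval s)).det ≠ 0 := by
  have hdet : ∀ z : ℂ, (M.map (Polynomial.eval z)).det = Polynomial.eval z M.det := by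
    intro z
    have := RingHom.map_det (Polynomial.evalRingHom z) M
    rw [Polynomial.coe_evalRingHom] at this
    rw [this]
    rfl
  have h0 : M.det ≠ 0 := by
    intro h
    have h1 := hdet 0
    rw [h, Polynomial.eval_zero] at h1
    exact hM h1
  have h1 : Polynomial.X * M.det ≠ 0 := mul_ne_zero Polynomial.X_ne_zero h0
  obtain ⟨z, hz⟩ : ∃ z, Polynomial.eval z (Polynomial.X * M.det) ≠ 0 := by
    by_contra hcon
    push Not at hcon
    exact h1 (Polynomial.funext fun z => by simpa using hcon z)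
  rw [Polynomial.eval_mul, Polynomial.eval_X] at hz
  refine ⟨z, left_ne_zero_of_mul hz, ?_⟩
  rw [hdet]
  exact right_ne_zero_of_mul hz

/-- R3. CORE. Polynomials `G p` with initial monomial `x ^ p.1 * y ^ p.2` with respect to the weights
`(1, K)`: scale `(x, y) ↦ (ε x, ε ^ K y)` and use a determinant at `ε = 0`
(compare `EmpP.cut`, `cut_aux`, `empP_of_goodP`). -/
theorem core_points {ι : Type} [Fintype ι] [DecidableEq ι] {A : Finset (ℕ × ℕ)} {K : ℕ}
    (G : ℕ × ℕ → ℂ[X][X]) (h1 : ∀ p ∈ A, ((G p).coeff p.1).coeff p.2 ≠ 0)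
    (h2 : ∀ p ∈ A, ∀ i j, ((G p).coeff i).coeff j ≠ 0 → (i, j) ≠ p → p.1 + K * p.2 < i + K * j)
    {m : ι → ℕ} {J : Finset ι} (hE : EmpP A m J) :
    ∃ x y : ι → ℂ, ∀ c : ℕ × ℕ → ℂ,
      (∀ i ∈ J, Cond (Finset.Icc 1 (m i)) (x i) (y i) (∑ p ∈ A, C (C (c p)) * G p)) →
      ∀ p ∈ A, c p = 0 := by
  classical
  obtain ⟨x, y, -, -, H⟩ := hE
  let Q : Finset (ℕ × ℕ) := A ∪ A.biUnion fun p => suppAll (G p)
  have hQ : ∀ p ∈ A, SuppP Q (G p) := by
    intro p hp i j hij
    by_contra h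
    exact hij (Finset.mem_union_right _ (Finset.mem_biUnion.2 ⟨p, hp, mem_suppAll h⟩))
  have hAQ : ∀ p ∈ A, p ∈ Q := fun p hp => Finset.mem_union_left _ hp
  -- coefficients
  let g : ℕ × ℕ → ℕ × ℕ → ℂ := fun p q => ((G p).coeff q.1).coeff q.2
  have hT : ∀ p ∈ A, ∀ (u v : ℂ) (a b : ℕ),
      (taylor v ((taylor (C u) (G p)).coeff a)).coeff b =
        ∑ q : Q, Transfer.entry u v a b q.1.1 q.1.2 * g p q.1 := by
    intro p hp u v a b
    conv_lhs => rw [eq_ofC (hQ p hp)]
    rw [coeff_taylor_ofC]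
  let I := {t : ι × ℕ × ℕ // t.1 ∈ J ∧ t.2.1 + t.2.2 < m t.1}
  let Rp : I → A → ℂ[X] := fun t p => ∑ q : Q,
    C (Transfer.entry (x t.1.1) (y t.1.1) t.1.2.1 t.1.2.2 q.1.1 q.1.2 * g p.1 q.1) *
      X ^ ((q.1.1 + K * q.1.2) - (p.1.1 + K * p.1.2))
  have hRe : ∀ (z : ℂ) (t : I) (p : A), (Rp t p).eval z = ∑ q : Q,
      (Transfer.entry (x t.1.1) (y t.1.1) t.1.2.1 t.1.2.2 q.1.1 q.1.2 * g p.1 q.1) *
      z ^ ((q.1.1 + K * q.1.2) - (p.1.1 + K * p.1.2)) := by
    intro z t p
    change eval z (∑ q : Q, _) = _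
    rw [Polynomial.eval_finsetSum]
    refine Finset.sum_congr rfl fun q _ => ?_
    rw [eval_mul, eval_C, eval_pow, eval_X]
  have hR0 : ∀ (t : I) (p : A), (Rp t p).eval 0 =
      Transfer.entry (x t.1.1) (y t.1.1) t.1.2.1 t.1.2.2 p.1.1 p.1.2 * g p.1 p.1 := by
    intro t p
    rw [hRe, Finset.sum_eq_single (⟨p.1, hAQ p.1 p.2⟩ : Q)]
    · rw [Nat.sub_self, pow_zero, mul_one]
    · intro q _ hq
      by_cases h0 : g p.1 q.1 = 0
      · rw [h0, mul_zero, zero_mul]
      · have h3 := h2 p.1 p.2 q.1.1 q.1.2 h0 (fun h => hq (Subtype.ext h))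
        rw [zero_pow (by omega), mul_zero]
    · intro h
      exact absurd (Finset.mem_univ _) h
  have hinj : ∀ c : A → ℂ, (∀ t : I, ∑ p, (Rp t p).eval 0 * c p = 0) → c = 0 := by
    intro c hc
    have h0 : ofC (fun p : A => g p.1 p.1 * c p) = 0 := by
      apply H _ (suppP_ofC _)
      intro i hi
      rw [cond_ofC_iff]
      intro a b hab
      rw [← hc ⟨(i, a, b), hi, hab⟩]
      refine Finset.sum_congr rfl fun p _ => ?_
      rw [hR0]
      ring
    ext p
    have h3 := coeff_ofC_self (fun p : A => g p.1 p.1 * c p) p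
    rw [h0, coeff_zero, coeff_zero] at h3
    exact (mul_eq_zero.1 h3.symm).resolve_left (h1 p.1 p.2)
  obtain ⟨σ, hσ⟩ := Transfer.exists_minor (fun (t : I) (p : A) => (Rp t p).eval 0) hinj
  obtain ⟨s, hs0, hs⟩ := exists_det_ne (Matrix.of fun p p' => Rp (σ p) p') hσ
  refine ⟨fun i => s * x i, fun i => s ^ K * y i, fun c hc => ?_⟩
  have key : (fun p : A => s ^ (p.1.1 + K * p.1.2) * c p.1) = 0 := by
    refine Transfer.eq_zero_of_minor (fun (t : I) (p : A) => (Rp t p).eval s) σ hs _ ?_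
    rintro ⟨⟨i, a, b⟩, hi, hab⟩
    have h3 := (Pool.Agent.Lib.MP_6b2d39_agWin.cond_iff (m i) _ _).1 (hc i hi) a b hab
    rw [map_sum, finsetSum_coeff, map_sum, finsetSum_coeff] at h3
    have h4 : ∀ p ∈ A, (taylor (s ^ K * y i) ((taylor (C (s * x i))
        (C (C (c p)) * G p)).coeff a)).coeff b =
        c p * ∑ q : Q, Transfer.entry (s * x i) (s ^ K * y i) a b q.1.1 q.1.2 * g p q.1 := by
      intro p hp
      rw [taylor_mul, taylor_C, coeff_C_mul, taylor_mul, taylor_C, coeff_C_mul, hT p hp]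
    rw [Finset.sum_congr rfl h4, ← Finset.sum_coe_sort A] at h3
    have h5 := congrArg (fun z => s ^ (a + K * b) * z) h3
    simp only [mul_zero] at h5
    rw [← h5, Finset.mul_sum]
    refine Finset.sum_congr rfl fun p _ => ?_
    rw [hRe, Finset.sum_mul, Finset.mul_sum, Finset.mul_sum]
    refine Finset.sum_congr rfl fun q _ => ?_
    by_cases h0 : g p.1 q.1 = 0
    · rw [h0]
      ring
    · have h6 : p.1.1 + K * p.1.2 ≤ q.1.1 + K * q.1.2 := by
        by_cases hq : q.1 = p.1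
        · rw [hq]
        · exact (h2 p.1 p.2 q.1.1 q.1.2 h0 hq).le
      have h7 : s ^ (q.1.1 + K * q.1.2) = s ^ ((q.1.1 + K * q.1.2) - (p.1.1 + K * p.1.2)) *
          s ^ (p.1.1 + K * p.1.2) := by
        rw [← pow_add]
        congr 1
        omega
      have h8 := entry_scale2 s (x i) (y i) K a b q.1.1 q.1.2
      rw [h7] at h8
      linear_combination (-(c p.1) * g p.1 q.1) * h8
  intro p hp
  have h3 := congrFun key ⟨p, hp⟩
  exact (mul_eq_zero.1 h3).resolve_left (pow_ne_zero _ hs0)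

end Pool.Agent.Lib.MP_6b2d39_agNw
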