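import Pool.Agent.Lib.MP_6b2d39_agWin.Emp
import Pool.Agent.Lib.MP_6b2d39_ag.ThickStep

/-!
Definitions for the window theorem with nine heavy points on the cuspidal cubic `y = x ^ 3`.
-/

open Polynomial

set_option autoImplicit false

namespace Pool.Agent.Lib.MP_6b2d39_agNw

open Pool.Agent.Lib.MP_6b2d39_ag Pool.Agent.Lib.MP_6b2d39_ag.Rel
  Pool.Agent.Lib.MP_6b2d39_agWin

/-- cells `(a, b)` with `b < n`, `a < r b` -/
def dgm (r : ℕ → ℕ) (n : ℕ) : Finset (ℕ × ℕ) :=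
  (Finset.range n).biUnion fun b => (Finset.range (r b)).image fun a => (a, b)

theorem mem_dgm {r : ℕ → ℕ} {n : ℕ} {p : ℕ × ℕ} : p ∈ dgm r n ↔ p.2 < n ∧ p.1 < r p.2 := by
  unfold dgm
  rw [Finset.mem_biUnion]
  constructor
  · rintro ⟨b, hb, h⟩
    rw [Finset.mem_image] at h
    obtain ⟨a, ha, rfl⟩ := h
    exact ⟨Finset.mem_range.1 hb, Finset.mem_range.1 ha⟩
  · rintro ⟨h1, h2⟩
    exact ⟨p.2, Finset.mem_range.2 h1, Finset.mem_image.2 ⟨p.1, Finset.mem_range.2 h2, rfl⟩⟩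

theorem card_dgm (r : ℕ → ℕ) (n : ℕ) : (dgm r n).card = ∑ b ∈ Finset.range n, r b := by
  unfold dgm
  rw [Finset.card_biUnion]
  · refine Finset.sum_congr rfl fun b _ => ?_
    rw [Finset.card_image_of_injective _ (fun a a' h => (Prod.ext_iff.1 h).1), Finset.card_range]
  · intro b _ b' _ hbb
    rw [Function.onFun, Finset.disjoint_left]
    intro p hp hp'
    rw [Finset.mem_image] at hp hp'
    obtain ⟨a, _, rfl⟩ := hp
    obtain ⟨a', _, h⟩ := hp'
    exact hbb (Prod.ext_iff.1 h).2.symm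

/-- the cubic `y - x ^ 3` (outer variable `x`, inner variable `y`) -/
noncomputable def cub : ℂ[X][X] := C X - X ^ 3

/-- restriction to the cubic `y = x ^ 3` -/
noncomputable def res : ℂ[X][X] →ₐ[ℂ] ℂ[X] := aevalAeval (X ^ 3) X

theorem res_X : res X = X := by
  simp [res]

theorem res_C_X : res (C X) = X ^ 3 := by
  simp [res]

theorem res_C_C (c : ℂ) : res (C (C c)) = C c := by
  simp [res]

theorem res_cub : res cub = 0 := by
  rw [cub, map_sub, map_pow, res_X, res_C_X, sub_self]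

/-- polynomials of degree `≤ e` with multiplicity at least `k i` at `(t i, t i ^ 3)`, `i ∈ S` -/
def sys {ι : Type} (e : ℕ) (S : Finset ι) (k : ι → ℕ) (t : ι → ℂ) : Submodule ℂ ℂ[X][X] where
  carrier := {F | InV (e + 1) F ∧ ∀ i ∈ S, Cond (Finset.Icc 1 (k i)) (t i) (t i ^ 3) F}
  add_mem' := by
    rintro F G ⟨hF, hF'⟩ ⟨hG, hG'⟩
    refine ⟨fun a b h => ?_, fun i hi a => ?_⟩
    · rw [coeff_add, coeff_add, hF a b h, hG a b h, add_zero]
    · rw [map_add, coeff_add]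
      exact dvd_add (hF' i hi a) (hG' i hi a)
  zero_mem' := by
    refine ⟨fun a b _ => by simp, fun i _ a => by simp⟩
  smul_mem' := by
    rintro c F ⟨hF, hF'⟩
    have h0 : c • F = C (C c) * F := by
      rw [← smul_eq_C_mul]
      ext a b
      simp
    refine ⟨fun a b h => ?_, fun i hi a => ?_⟩
    · rw [h0, coeff_C_mul, coeff_C_mul, hF a b h, mul_zero]
    · rw [h0, taylor_mul, taylor_C, coeff_C_mul]
      exact dvd_mul_of_dvd_right (hF' i hi a) _

theorem mem_sys {ι : Type} {e : ℕ} {S : Finset ι} {k : ι → ℕ} {t : ι → ℂ} {F : ℂ[X][X]} :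
    F ∈ sys e S k t ↔ InV (e + 1) F ∧ ∀ i ∈ S, Cond (Finset.Icc 1 (k i)) (t i) (t i ^ 3) F :=
  Iff.rfl

/-- bound for the dimension of the row `b`: heavy points `S`, the two heaviest are `i1`, `i2` -/
def rr {ι : Type} (d : ℕ) (S : Finset ι) (m : ι → ℕ) (i1 i2 : ι) (b : ℕ) : ℕ :=
  if d < 3 * b + (m i1 - b) then 0
  else if d = 3 * b + (m i1 - b) then (m i1 - b) - (m i2 - b) + 1
  else 3 * (d - 3 * b) - ∑ i ∈ S, (m i - b) - ((m i1 - b) + (m i2 - b) - (d - 3 * b))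

end Pool.Agent.Lib.MP_6b2d39_agNw
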