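import Pool.Agent.Lib.MP_6b2d39_agNw.Prof

/-!
The diagonals of a Young diagram form a good profile.
-/

set_option autoImplicit false

namespace Pool.Agent.Lib.MP_6b2d39_agNw

/-- rows `r b` of the diagram `{(a, b) | a < r b}` -/
structure Young (μ s t H t1 : ℕ) (r : ℕ → ℕ) : Prop where
  hs : μ ≤ s
  first : ∀ b ≤ t, r b = s
  dec : ∀ b, t ≤ b → b + 1 < H → r (b + 1) + 1 ≤ r b
  pos : ∀ b < H, 1 ≤ r b
  zero : ∀ b, H ≤ b → r b = 0
  slope : ∀ b, t ≤ b → b ≤ t1 → s + t ≤ r b + b
  ht1 : μ ≤ t1 + 1
  htt : t ≤ t1
  htH : t1 < H

/-- the diagonal number `c` -/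
def dg (r : ℕ → ℕ) (c : ℕ) : Finset ℕ := (Finset.range (c + 1)).filter (fun b => c - b < r b)

/-- number of cells of the diagonal `c` -/
def rho (r : ℕ → ℕ) (c : ℕ) : ℕ := (dg r c).card

theorem mem_dg {r : ℕ → ℕ} {c b : ℕ} : b ∈ dg r c ↔ b ≤ c ∧ c - b < r b := by
  unfold dg
  rw [Finset.mem_filter, Finset.mem_range, Nat.lt_succ_iff]

variable {μ s t H t1 : ℕ} {r : ℕ → ℕ}

theorem Young.anti (h : Young μ s t H t1 r) : Antitone r := by
  apply antitone_nat_of_succ_le
  intro b
  rcases lt_or_ge (b + 1) H with h1 | h1
  · rcases lt_or_ge b t with h2 | h2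
    · rw [h.first b h2.le, h.first (b + 1) h2]
    · have := h.dec b h2 h1
      omega
  · rw [h.zero _ h1]
    exact Nat.zero_le _

/-- lower bound for the rows above `t` -/
theorem Young.low (h : Young μ s t H t1 r) : ∀ k b, b + k + 1 = H → t ≤ b → k + 1 ≤ r b := by
  intro k
  induction k with
  | zero =>
    intro b hb _
    have := h.pos b (by omega)
    omega
  | succ k ih =>
    intro b hb ht
    have h1 := ih (b + 1) (by omega) (by omega)
    have h2 := h.dec b ht (by omega)
    omega

theorem Young.low' (h : Young μ s t H t1 r) {b : ℕ} (hb : t ≤ b) : H ≤ r b + b := by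
  rcases lt_or_ge b H with h1 | h1
  · have := h.low (H - 1 - b) b (by omega) hb
    omega
  · omega

theorem Young.upp (h : Young μ s t H t1 r) : ∀ k, t + k < H → r (t + k) + k ≤ s := by
  intro k
  induction k with
  | zero =>
    intro _
    simpa using (h.first t le_rfl).le
  | succ k ih =>
    intro hk
    have h1 := ih (by omega)
    have h2 := h.dec (t + k) (by omega) (by omega)
    have h3 : t + (k + 1) = t + k + 1 := by omega
    rw [h3]
    omega

theorem Young.upp' (h : Young μ s t H t1 r) {b : ℕ} (hb : b < H) : r b + b ≤ s + t := by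
  rcases le_or_gt b t with h1 | h1
  · rw [h.first b h1]
    omega
  · have h2 := h.upp (b - t) (by omega)
    rw [Nat.add_sub_cancel' h1.le] at h2
    omega

theorem rho_le (r : ℕ → ℕ) (c : ℕ) : rho r c ≤ c + 1 := by
  unfold rho dg
  exact (Finset.card_filter_le _ _).trans (by simp)

theorem rho_up (r : ℕ → ℕ) (c : ℕ) : rho r (c + 1) ≤ rho r c + 1 := by
  unfold rho
  have h1 : dg r (c + 1) ⊆ insert (c + 1) (dg r c) := by
    intro b hb
    rw [mem_dg] at hb
    rw [Finset.mem_insert, mem_dg]
    omega
  exact (Finset.card_le_card h1).trans (Finset.card_insert_le _ _)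

theorem dg_subset {c : ℕ} (h : r (c + 1) = 0) : dg r (c + 1) ⊆ dg r c := by
  intro b hb
  rw [mem_dg] at hb ⊢
  rcases Nat.lt_or_ge c b with h1 | h1
  · have : b = c + 1 := by omega
    subst this
    omega
  · omega

theorem rho_of_right {c : ℕ} (hr : Antitone r) (h : r 0 ≤ c + 1) : rho r (c + 1) ≤ rho r c := by
  unfold rho
  apply Finset.card_le_card_of_injOn (fun b => b - 1)
  · intro b hb
    simp only [Finset.mem_coe, mem_dg] at hb ⊢
    have h0 : b ≠ 0 := by
      rintro rfl
      omega
    have h1 : r b ≤ r (b - 1) := hr (Nat.sub_le _ _)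
    omega
  · intro b hb b' hb' hbb
    simp only [Finset.mem_coe, mem_dg] at hb hb' hbb
    have h0 : b ≠ 0 := by
      rintro rfl
      omega
    have h0' : b' ≠ 0 := by
      rintro rfl
      omega
    omega

theorem rho_tip (h : Young μ s t H t1 r) {c : ℕ} (h1 : c < s) (h2 : c < H) : rho r c = c + 1 := by
  unfold rho
  have : dg r c = Finset.range (c + 1) := by
    ext b
    rw [mem_dg, Finset.mem_range]
    constructor
    · intro hb
      omega
    · intro hb
      refine ⟨by omega, ?_⟩
      rcases le_or_gt b t with h3 | h3
      · rw [h.first b h3]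
        omega
      · have := h.low' h3.le
        omega
  rw [this, Finset.card_range]

theorem Young.prof (h : Young μ s t H t1 r) : Prof μ (s + t) (rho r) where
  tip := rho_le r
  up b _ := rho_up r b
  short := by
    intro c hc hlt
    rcases lt_or_ge (c + 1) H with h1 | h1
    · rcases lt_or_ge (c + 1) s with h2 | h2
      · rw [rho_tip h h2 h1]
      · exfalso
        have := rho_of_right h.anti (by rw [h.first 0 (Nat.zero_le _)]; exact h2)
        omega
    · exfalso
      have := Finset.card_le_card (dg_subset (h.zero _ h1))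
      unfold rho at hlt
      omega
  fresh := by
    intro c hc hT
    rcases lt_or_ge (c + 1) s with h2 | h2
    · left
      rcases lt_or_ge (c + 1) H with h1 | h1
      · rw [rho_tip h h2 h1]
        omega
      · have h3 : Finset.range (t1 + 1) ⊆ dg r (c + 1) := by
          intro b hb
          rw [Finset.mem_range] at hb
          rw [mem_dg]
          have := h.htH
          refine ⟨by omega, ?_⟩
          rcases le_or_gt b t with h4 | h4
          · rw [h.first b h4]
            omega
          · have := h.slope b h4.le (by omega)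
            omega
        have h4 := Finset.card_le_card h3
        rw [Finset.card_range] at h4
        have := h.ht1
        unfold rho
        omega
    · rcases lt_or_ge (c + 1) H with h1 | h1
      · left
        have h3 : Finset.Icc (c + 2 - s) (c + 1) ⊆ dg r (c + 1) := by
          intro b hb
          rw [Finset.mem_Icc] at hb
          rw [mem_dg]
          refine ⟨hb.2, ?_⟩
          rcases le_or_gt b t with h4 | h4
          · rw [h.first b h4]
            omega
          · have := h.low' h4.le
            omega
        have h4 := Finset.card_le_card h3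
        rw [Nat.card_Icc] at h4
        have := h.hs
        unfold rho
        omega
      · right
        have h3 := dg_subset (h.zero _ h1)
        have h4 : c + 1 - s ∈ dg r c := by
          rw [mem_dg, h.first (c + 1 - s) (by omega)]
          have := h.hs
          rcases Nat.eq_zero_or_pos s with h5 | h5
          · exfalso
            have h6 := h.pos 0 (by have := h.htH; omega)
            rw [h.first 0 (Nat.zero_le _)] at h6
            omega
          · omega
        have h5 : c + 1 - s ∉ dg r (c + 1) := by
          rw [mem_dg, h.first (c + 1 - s) (by omega)]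
          omega
        have h6 : dg r (c + 1) ⊂ dg r c :=
          ⟨h3, fun h7 => h5 (h7 h4)⟩
        have h7 := Finset.card_lt_card h6
        unfold rho
        omega

/-- a diagram with rows `r b`, `b < H`, whose diagonals `c < T` form a good profile -/
structure Diag (μ T H : ℕ) (r : ℕ → ℕ) : Prop where
  prof : Prof μ T (rho r)
  cell : ∀ b < H, r b + b ≤ T
  zero : ∀ b, H ≤ b → r b = 0

theorem Young.diag (h : Young μ s t H t1 r) : Diag μ (s + t) H r :=
  ⟨h.prof, fun _ hb => h.upp' hb, h.zero⟩

end Pool.Agent.Lib.MP_6b2d39_agNw
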