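import Pool.Agent.Lib.MP_6b2d39_agNw.Shear
import Pool.Agent.Lib.MP_6b2d39_agNw.Young
import Pool.Agent.Lib.MP_6b2d39_agNw.NegP
import Pool.Agent.Lib.MP_6b2d39_agNw.PosP
import Pool.Agent.Lib.MP_6b2d39_agWin.Rows

open Polynomial

set_option autoImplicit false

namespace Pool.Agent.Lib.MP_6b2d39_agNw

open Pool.Agent.Lib.MP_6b2d39_ag Pool.Agent.Lib.MP_6b2d39_ag.Rel
  Pool.Agent.Lib.MP_6b2d39_agWin Pool.Agent.Lib.MP_6b2d39_agArr

private theorem fl_mem_row {P : Finset (ℕ × ℕ)} {a j : ℕ} : a ∈ rowOf P j ↔ (a, j) ∈ P := by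
  unfold rowOf
  rw [Finset.mem_image]
  constructor
  · rintro ⟨p, hp, rfl⟩
    rw [Finset.mem_filter] at hp
    obtain ⟨hp1, rfl⟩ := hp
    exact hp1
  · intro h
    exact ⟨(a, j), Finset.mem_filter.2 ⟨h, rfl⟩, rfl⟩

private theorem fl_row_card {P : Finset (ℕ × ℕ)} (j : ℕ) :
    (rowOf P j).card = (P.filter fun p => p.2 = j).card := by
  unfold rowOf
  apply Finset.card_image_of_injOn
  intro p hp q hq hpq
  simp only [Finset.coe_filter, Set.mem_ofPred_eq] at hp hq
  exact Prod.ext hpq (hp.2.trans hq.2.symm)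

/-- the number of cells -/
theorem sum_rho {μ T H : ℕ} {r : ℕ → ℕ} (hY : Diag μ T H r) :
    ∑ c ∈ Finset.range T, rho r c = ∑ b ∈ Finset.range H, r b := by
  rw [← card_dgm r H, Finset.card_eq_sum_card_fiberwise (f := fun p : ℕ × ℕ => p.1 + p.2)
    (t := Finset.range T)]
  · refine Finset.sum_congr rfl fun c _ => ?_
    unfold rho
    apply Finset.card_nbij' (fun b => (c - b, b)) (fun p => p.2)
    · intro b hb
      rw [Finset.mem_coe, mem_dg] at hb
      simp only [Finset.coe_filter, Set.mem_ofPred_eq, mem_dgm]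
      refine ⟨⟨?_, hb.2⟩, by omega⟩
      by_contra hH
      have := hY.zero b (not_lt.1 hH)
      omega
    · intro p hp
      simp only [Finset.coe_filter, Set.mem_ofPred_eq, mem_dgm] at hp
      rw [Finset.mem_coe, mem_dg]
      obtain ⟨⟨h1, h2⟩, h3⟩ := hp
      simp only
      refine ⟨by omega, ?_⟩
      rw [← h3, Nat.add_sub_cancel]
      exact h2
    · intro b _
      rfl
    · intro p hp
      simp only [Finset.coe_filter, Set.mem_ofPred_eq, mem_dgm] at hp
      refine Prod.ext ?_ rfl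
      simp only
      omega
  · intro p hp
    rw [Finset.mem_coe, mem_dgm] at hp
    have h1 := hY.cell _ hp.1
    rw [Finset.mem_coe, Finset.mem_range]
    simp only
    omega

/-- the sheared diagram -/
private def fl_sh (r : ℕ → ℕ) (H : ℕ) : Finset (ℕ × ℕ) :=
  (dgm r H).image fun p => (p.1, p.1 + p.2)

private theorem fl_mem_sh {r : ℕ → ℕ} {H : ℕ} {p : ℕ × ℕ} :
    p ∈ fl_sh r H ↔ p.1 ≤ p.2 ∧ p.2 - p.1 < H ∧ p.1 < r (p.2 - p.1) := by
  unfold fl_sh
  rw [Finset.mem_image]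
  constructor
  · rintro ⟨q, hq, rfl⟩
    rw [mem_dgm] at hq
    simp only [Nat.add_sub_cancel_left]
    exact ⟨Nat.le_add_right _ _, hq.1, hq.2⟩
  · rintro ⟨h1, h2, h3⟩
    refine ⟨(p.1, p.2 - p.1), mem_dgm.2 ⟨h2, h3⟩, Prod.ext rfl ?_⟩
    simp only
    omega

private theorem fl_row_le (r : ℕ → ℕ) (H c : ℕ) : (rowOf (fl_sh r H) c).card ≤ rho r c := by
  unfold rho
  apply Finset.card_le_card_of_injOn (fun a => c - a)
  · intro a ha
    rw [Finset.mem_coe, fl_mem_row, fl_mem_sh] at ha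
    rw [Finset.mem_coe, mem_dg]
    simp only at ha
    refine ⟨Nat.sub_le _ _, ?_⟩
    rw [Nat.sub_sub_self ha.1]
    exact ha.2.2
  · intro a ha a' ha' haa
    rw [Finset.mem_coe, fl_mem_row, fl_mem_sh] at ha ha'
    simp only at ha ha' haa
    omega

private theorem fl_fill {ι : Type} [Fintype ι] [DecidableEq ι] {m : ι → ℕ} {K : Finset ι}
    {μ T H : ℕ} {r : ℕ → ℕ} (hY : Diag μ T H r)
    (h : Cert m K T (fun b => (rho r b : ℤ))) : EmpP (dgm r H) m K := by
  apply EmpP.of_shear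
  change EmpP (fl_sh r H) m K
  refine empP_of_cert_up (c := 0) h (fun b _ => ?_) (fun p hp => ?_)
  · rw [zero_add]
    exact_mod_cast fl_row_le r H b
  · rw [fl_mem_sh] at hp
    have h1 := hY.cell _ hp.2.1
    exact ⟨Nat.zero_le _, by omega⟩

/-- R2. filling a Young diagram along the diagonals (`empP_of_cert_up` with `c = 0`, `piece_neg`,
`Diag.prof`, `EmpP.of_shear`; row `c` of the sheared diagram has `rho r c` cells) -/
theorem young_neg {ι : Type} [Fintype ι] [DecidableEq ι] {m : ι → ℕ} {J : Finset ι}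
    {μ T H : ℕ} {r : ℕ → ℕ} (hY : Diag μ T H r) (hJ : ∀ j ∈ J, m j ≤ μ)
    (hmass : ∑ b ∈ Finset.range H, r b + 3 * μ ^ 2 ≤ mass m J) : EmpP (dgm r H) m J := by
  refine fl_fill hY (piece_neg hY.prof hJ ?_)
  rw [sum_rho hY]
  exact hmass

theorem young_pos {ι : Type} [Fintype ι] [DecidableEq ι] {m : ι → ℕ} {J U : Finset ι}
    {μ T H : ℕ} {r : ℕ → ℕ} (hY : Diag μ T H r) (hJU : Disjoint J U)
    (hJ : ∀ j ∈ J, m j ≤ μ) (hU : ∀ j ∈ U, m j = 1)
    (hmass : mass m J + 6 * μ ^ 2 ≤ ∑ b ∈ Finset.range H, r b)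
    (htot : ∑ b ∈ Finset.range H, r b ≤ mass m J + U.card) : EmpP (dgm r H) m (J ∪ U) := by
  refine fl_fill hY (piece_pos hY.prof hJU hJ hU (Or.inr ?_) ?_)
  · rw [sum_rho hY]
    exact hmass
  · rw [sum_rho hY]
    exact htot

/-- simple points (`cert_simple` with the rows of `P`) -/
theorem empP_simple {ι : Type} [Fintype ι] [DecidableEq ι] {m : ι → ℕ} {U : Finset ι}
    {P : Finset (ℕ × ℕ)} (hU : ∀ j ∈ U, m j = 1) (hcard : P.card ≤ U.card) : EmpP P m U := by
  have hT : ∀ p ∈ P, p.2 < P.sup Prod.snd + 1 := fun p hp =>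
    Nat.lt_succ_of_le (Finset.le_sup (f := Prod.snd) hp)
  have h1 : ∑ b ∈ Finset.range (P.sup Prod.snd + 1), (rowOf P b).card ≤ U.card := by
    refine le_trans (le_of_eq ?_) hcard
    rw [Finset.card_eq_sum_card_fiberwise (f := fun p : ℕ × ℕ => p.2)
      (t := Finset.range (P.sup Prod.snd + 1))]
    · exact Finset.sum_congr rfl fun c _ => fl_row_card c
    · intro p hp
      rw [Finset.mem_coe, Finset.mem_range]
      exact hT p hp
  refine empP_of_cert_up (c := 0) (cert_simple hU h1) (fun b _ => ?_) (fun p hp => ?_)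
  · rw [zero_add]
  · exact ⟨Nat.zero_le _, by rw [zero_add]; exact hT p hp⟩

end Pool.Agent.Lib.MP_6b2d39_agNw
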