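import Mathlib

set_option autoImplicit false

namespace Pool.Agent.Lib.MP_6b2d39_agNw

/-- R21. the `c` largest values -/
theorem exists_top {h : ℕ} (n : Fin h → ℕ) {c : ℕ} (hc : c ≤ h) :
    ∃ S : Finset (Fin h), S.card = c ∧ ∀ i ∈ S, ∀ j ∉ S, n j ≤ n i := by
  classical
  induction c with
  | zero => exact ⟨∅, rfl, fun i hi => absurd hi (Finset.notMem_empty i)⟩
  | succ c ih =>
    obtain ⟨S, hS, hm⟩ := ih (by omega)
    have hne : (Sᶜ).Nonempty := by
      rw [← Finset.card_pos, Finset.card_compl, Fintype.card_fin, hS]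
      omega
    obtain ⟨j₀, hj₀, hmax⟩ := Finset.exists_max_image Sᶜ n hne
    have hj₁ : j₀ ∉ S := Finset.mem_compl.1 hj₀
    refine ⟨insert j₀ S, ?_, ?_⟩
    · rw [Finset.card_insert_of_notMem hj₁, hS]
    · intro i hi j hj
      have hjS : j ∉ S := fun h => hj (Finset.mem_insert_of_mem h)
      rcases Finset.mem_insert.1 hi with rfl | hi
      · exact hmax j (Finset.mem_compl.2 hjS)
      · exact hm i hi j hjS

theorem exists_two {ι : Type} (S : Finset ι) (n : ι → ℕ) (hS : 2 ≤ S.card) :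
    ∃ i1 ∈ S, ∃ i2 ∈ S, i1 ≠ i2 ∧ n i2 ≤ n i1 ∧ ∀ i ∈ S, i ≠ i1 → n i ≤ n i2 := by
  classical
  obtain ⟨i1, h1, hm1⟩ := Finset.exists_max_image S n (Finset.card_pos.1 (by omega))
  obtain ⟨i2, h2, hm2⟩ := Finset.exists_max_image (S.erase i1) n (Finset.card_pos.1 (by
    rw [Finset.card_erase_of_mem h1]
    omega))
  have h3 := Finset.mem_erase.1 h2
  exact ⟨i1, h1, i2, h3.2, h3.1.symm, hm1 i2 h3.2, fun i hi hne =>
    hm2 i (Finset.mem_erase.2 ⟨hne, hi⟩)⟩

end Pool.Agent.Lib.MP_6b2d39_agNw
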