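import Pool.Agent.Lib.MP_6b2d39_agNw.Assemble
import Pool.Agent.Lib.MP_6b2d39_agNw.Top
import Pool.Agent.Lib.MP_6b2d39_agWin.Strong

open Polynomial

set_option autoImplicit false

namespace Pool.Agent.Lib.MP_6b2d39_agNw

open Pool.Agent.Lib.MP_6b2d39_ag Pool.Agent.Lib.MP_6b2d39_ag.Rel
  Pool.Agent.Lib.MP_6b2d39_agWin Pool.Agent.Lib.MP_6b2d39_agArr Pool.Agent.Lib.MP_6b2d39_agCr

private theorem nine_tri {h e : ℕ} {n : Fin h → ℕ} (hred : Reduced e n) (i j l : Fin h)
    (hij : i ≠ j) (hil : i ≠ l) (hjl : j ≠ l) : n i + n j + n l ≤ e := by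
  have h1 := hred ⟨![i, j, l], by
    intro a b hab
    fin_cases a <;> fin_cases b <;> simp_all [eq_comm]⟩
  rw [Fin.sum_univ_three] at h1
  exact h1

private theorem nine_zero {h : ℕ} (hh : 3 ≤ h) {n : Fin h → ℕ} (hred : Reduced 0 n) (l : Fin h) :
    n l = 0 := by
  classical
  have h1 : 1 < ((Finset.univ : Finset (Fin h)).erase l).card := by
    rw [Finset.card_erase_of_mem (Finset.mem_univ _), Finset.card_univ, Fintype.card_fin]
    omega
  obtain ⟨i, hi, j, hj, hij⟩ := Finset.one_lt_card.1 h1
  have h2 := nine_tri hred l i j (Finset.mem_erase.1 hi).1.symm (Finset.mem_erase.1 hj).1.symm hij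
  omega

/-- averaging over a cyclic order -/
private theorem nine_sum {h e : ℕ} {n : Fin h → ℕ}
    (htri : ∀ i j l : Fin h, i ≠ j → i ≠ l → j ≠ l → n i + n j + n l ≤ e) (S : Finset (Fin h))
    (hS : 3 ≤ S.card) : 3 * ∑ i ∈ S, n i ≤ S.card * e := by
  classical
  obtain ⟨c, hc⟩ : ∃ c, S.card = c + 3 := ⟨S.card - 3, by omega⟩
  let f := S.equivFinOfCardEq hc
  let g : Fin (c + 3) → ℕ := fun j => n (f.symm j : Fin h)
  have h1 : ∑ i ∈ S, n i = ∑ j, g j := by
    rw [← Finset.sum_coe_sort S n, ← Equiv.sum_comp f.symm fun i : S => n i]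
  have h2 : ∀ a : Fin (c + 3), ∑ j, g (j + a) = ∑ j, g j := fun a =>
    Equiv.sum_comp (Equiv.addRight a) g
  have hinj : ∀ x y : Fin (c + 3), x ≠ y → (f.symm x : Fin h) ≠ (f.symm y : Fin h) := by
    intro x y hxy hcon
    exact hxy (f.symm.injective (Subtype.ext hcon))
  have h10 : (1 : Fin (c + 3)) ≠ 0 := by
    intro hcon
    have := congrArg Fin.val hcon
    simp at this
  have h20 : (2 : Fin (c + 3)) ≠ 0 := by
    intro hcon
    have := congrArg Fin.val hcon
    simp at this
    rw [Nat.mod_eq_of_lt (by omega)] at this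
    omega
  have h21 : (2 : Fin (c + 3)) ≠ 1 := by
    intro hcon
    have := congrArg Fin.val hcon
    simp at this
    rw [Nat.mod_eq_of_lt (by omega)] at this
    omega
  have h3 : ∑ j, (g j + g (j + 1) + g (j + 2)) ≤ ∑ _j : Fin (c + 3), e := by
    refine Finset.sum_le_sum fun j _ => ?_
    refine htri _ _ _ (hinj _ _ ?_) (hinj _ _ ?_) (hinj _ _ ?_)
    · intro hcon
      exact h10 (by simpa using hcon.symm)
    · intro hcon
      exact h20 (by simpa using hcon.symm)
    · intro hcon
      exact h21 (add_left_cancel hcon).symm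
  rw [Finset.sum_add_distrib, Finset.sum_add_distrib, h2, h2, Finset.sum_const, Finset.card_univ,
    Fintype.card_fin, smul_eq_mul] at h3
  rw [h1, hc]
  omega

/-- R22. window for reduced systems: ninth largest multiplicity, or tenth largest if the
anticanonical degree on the nine heaviest points is at least `μ`. -/
theorem window_nine {h : ℕ} (hh : 3 ≤ h) {e : ℕ} {n : Fin h → ℕ} (hred : Reduced e n) {μ : ℕ}
    (hμ : 1 ≤ μ)
    (hc : (Finset.univ.filter (fun i => μ < n i)).card ≤ 8 ∨
      ((Finset.univ.filter (fun i => μ < n i)).card = 9 ∧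
        ∑ i ∈ Finset.univ.filter (fun i => μ < n i), n i + μ ≤ 3 * e))
    (hv : vd e n ≤ -(3 * (μ : ℤ) ^ 2) ∨ 6 * (μ : ℤ) ^ 2 ≤ vd e n) :
    General (fun P => (Module.finrank ℂ (curves e n P) : ℤ) = max (vd e n) 0) := by
  classical
  have htri := nine_tri hred
  rcases hc with hc | ⟨hc, hsum⟩
  · rcases Nat.eq_zero_or_pos e with he | he
    · -- degree `0`
      subst he
      have h0 := nine_zero hh hred
      exact nonspecial_three (Fin.castLEEmb hh) (fun l _ => h0 l) (hred _)
    · rcases Nat.lt_or_ge 8 h with h8 | h8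
      · -- the eight largest
        obtain ⟨S, hS, htop⟩ := exists_top n (c := 8) (by omega)
        obtain ⟨i1, h1, i2, h2, hne, hle, hmax⟩ := exists_two S n (by omega)
        have hs3 := nine_sum htri S (by omega)
        have hH : Heavy e S n i1 i2 :=
          ⟨h1, h2, hne, hle, hmax, fun i _ j _ l _ => htri i j l, by omega, by omega, by
            rw [hS] at hs3
            omega⟩
        have hne' : (Sᶜ).Nonempty := by
          rw [← Finset.card_pos, Finset.card_compl, Fintype.card_fin, hS]
          omega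
        obtain ⟨j₀, hj₀, hj₁⟩ := Finset.exists_max_image Sᶜ n hne'
        have hj₂ : j₀ ∉ S := Finset.mem_compl.1 hj₀
        rcases Nat.eq_zero_or_pos (n j₀) with hz | hz
        · refine base_S hH fun i hi => ?_
          have := hj₁ i (Finset.mem_compl.2 hi)
          omega
        · have hμ0 : n j₀ ≤ μ := by
            by_contra hcon
            push Not at hcon
            have hsub : insert j₀ S ⊆ Finset.univ.filter (fun i => μ < n i) := by
              intro i hi
              rw [Finset.mem_filter]
              refine ⟨Finset.mem_univ _, ?_⟩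
              rcases Finset.mem_insert.1 hi with rfl | hi
              · exact hcon
              · exact lt_of_lt_of_le hcon (htop i hi j₀ hj₂)
            have h5 := Finset.card_le_card hsub
            rw [Finset.card_insert_of_notMem hj₂, hS] at h5
            omega
          have hsq : (n j₀ : ℤ) ^ 2 ≤ (μ : ℤ) ^ 2 :=
            pow_le_pow_left₀ (Int.natCast_nonneg _) (by exact_mod_cast hμ0) 2
          refine window_S hH hz (fun i hi => htop i hi j₀ hj₂) (Or.inl hS)
            (fun i hi => hj₁ i (Finset.mem_compl.2 hi)) ?_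
          rcases hv with hv | hv
          · left
            linarith
          · right
            linarith
      · -- at most eight points
        obtain ⟨i1, h1, i2, h2, hne, hle, hmax⟩ := exists_two (Finset.univ : Finset (Fin h)) n (by
          rw [Finset.card_univ, Fintype.card_fin]
          omega)
        have hs3 := nine_sum htri Finset.univ (by
          rw [Finset.card_univ, Fintype.card_fin]
          exact hh)
        rw [Finset.card_univ, Fintype.card_fin] at hs3
        have hs4 : h * e ≤ 8 * e := Nat.mul_le_mul_right e h8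
        refine base_S (S := Finset.univ) (i1 := i1) (i2 := i2)
          ⟨h1, h2, hne, hle, hmax, fun i _ j _ l _ => htri i j l, ?_, ?_, ?_⟩
          fun i hi => absurd (Finset.mem_univ i) hi
        · rw [Finset.card_univ, Fintype.card_fin]
          exact hh
        · rw [Finset.card_univ, Fintype.card_fin]
          omega
        · omega
  · -- nine heavy points
    obtain ⟨i1, h1, i2, h2, hne, hle, hmax⟩ :=
      exists_two (Finset.univ.filter (fun i => μ < n i)) n (by omega)
    have hH : Heavy e (Finset.univ.filter (fun i => μ < n i)) n i1 i2 :=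
      ⟨h1, h2, hne, hle, hmax, fun i _ j _ l _ => htri i j l, by omega, by omega, by omega⟩
    refine window_S hH hμ (fun i hi => ((Finset.mem_filter.1 hi).2).le) (Or.inr ⟨hc, hsum⟩)
      (fun i hi => ?_) hv
    by_contra hcon
    exact hi (Finset.mem_filter.2 ⟨Finset.mem_univ _, not_le.1 hcon⟩)

/-- the final theorem of stage 1 -/
theorem hh_nine {h : ℕ} (hh : 3 ≤ h) (d : ℕ) (m : Fin h → ℕ) :
    General (fun P => IsSpecial d m P ↔ IsMinusOneSpecial d m P) ∨
      ∃ (e : ℕ) (n : Fin h → ℕ), Relation.ReflTransGen CremonaStep (d, m) (e, n) ∧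
        Reduced e n ∧ General (fun P => IsSpecial e n P) ∧
        ∀ μ : ℕ, 1 ≤ μ → ((Finset.univ.filter (fun i => μ < n i)).card ≤ 8 ∨
          ((Finset.univ.filter (fun i => μ < n i)).card = 9 ∧
            ∑ i ∈ Finset.univ.filter (fun i => μ < n i), n i + μ ≤ 3 * e)) →
          -(3 * (μ : ℤ) ^ 2) < vd e n ∧ vd e n < 6 * (μ : ℤ) ^ 2 := by
  rcases hh_main hh d m with h1 | ⟨e, n, hr, hred, hbad⟩
  · exact Or.inl h1
  · refine Or.inr ⟨e, n, hr, hred, general_special_of_bad hbad, ?_⟩
    intro μ hμ hc
    by_contra hcon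
    apply hbad
    apply window_nine hh hred hμ hc
    by_contra hne
    push Not at hne
    exact hcon hne

end Pool.Agent.Lib.MP_6b2d39_agNw
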