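import Pool.Agent.Lib.MP_6b2d39_agNw.Defs

open Polynomial

set_option autoImplicit false

namespace Pool.Agent.Lib.MP_6b2d39_agNw

open Pool.Agent.Lib.MP_6b2d39_ag Pool.Agent.Lib.MP_6b2d39_ag.Rel
  Pool.Agent.Lib.MP_6b2d39_agWin Pool.Agent.Lib.MP_6b2d39_agArr

/-- The Wronskian `g' f - g f'`. -/
private noncomputable def gpW (f : ℂ[X]) : ℂ[X] →ₗ[ℂ] ℂ[X] where
  toFun g := derivative g * f - g * derivative f
  map_add' g h := by
    rw [derivative_add]
    ring
  map_smul' c g := by
    rw [derivative_smul, RingHom.id_apply, smul_mul_assoc, smul_mul_assoc, smul_sub]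

private theorem gpW_apply (f g : ℂ[X]) : gpW f g = derivative g * f - g * derivative f := rfl

/-- `g' f = g f'` implies that `g` and `f` have the same degree. -/
private theorem gp_deg {f g : ℂ[X]} (hf : f ≠ 0) (hg : g ≠ 0) (h : gpW f g = 0) :
    g.natDegree = f.natDegree := by
  have h1 : derivative g * f = g * derivative f := sub_eq_zero.1 h
  by_cases hg0 : g.natDegree = 0
  · obtain ⟨c, hc⟩ := natDegree_eq_zero.1 hg0
    have hc0 : c ≠ 0 := by
      rintro rfl
      rw [map_zero] at hc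
      exact hg hc.symm
    rw [← hc, derivative_C, zero_mul] at h1
    have h2 : derivative f = 0 := (mul_eq_zero.1 h1.symm).resolve_left (C_ne_zero.2 hc0)
    rw [hg0]
    exact (natDegree_eq_zero_of_derivative_eq_zero h2).symm
  by_cases hf0 : f.natDegree = 0
  · obtain ⟨c, hc⟩ := natDegree_eq_zero.1 hf0
    have hc0 : c ≠ 0 := by
      rintro rfl
      rw [map_zero] at hc
      exact hf hc.symm
    rw [← hc, derivative_C, mul_zero] at h1
    have h2 : derivative g = 0 := (mul_eq_zero.1 h1).resolve_right (C_ne_zero.2 hc0)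
    exact absurd (natDegree_eq_zero_of_derivative_eq_zero h2) hg0
  -- compare the leading coefficients
  obtain ⟨p, hp⟩ : ∃ p, p + 1 = g.natDegree := ⟨g.natDegree - 1, by omega⟩
  obtain ⟨q, hq⟩ : ∃ q, q + 1 = f.natDegree := ⟨f.natDegree - 1, by omega⟩
  have dg : (derivative g).natDegree ≤ p := by
    have := natDegree_derivative_le g
    omega
  have df : (derivative f).natDegree ≤ q := by
    have := natDegree_derivative_le f
    omega
  have e1 : (derivative g * f).coeff (p + (q + 1)) = (derivative g).coeff p * f.coeff (q + 1) :=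
    coeff_mul_add_eq_of_natDegree_le dg hq.ge
  have e2 : (g * derivative f).coeff ((p + 1) + q) = g.coeff (p + 1) * (derivative f).coeff q :=
    coeff_mul_add_eq_of_natDegree_le hp.ge df
  have e3 : p + (q + 1) = (p + 1) + q := by omega
  rw [e3, h1, e2, coeff_derivative, coeff_derivative] at e1
  have lg : g.coeff (p + 1) ≠ 0 := by
    rw [hp]
    exact leadingCoeff_ne_zero.2 hg
  have lf : f.coeff (q + 1) ≠ 0 := by
    rw [hq]
    exact leadingCoeff_ne_zero.2 hf
  have e4 : ((q : ℂ) + 1) * (g.coeff (p + 1) * f.coeff (q + 1)) =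
      ((p : ℂ) + 1) * (g.coeff (p + 1) * f.coeff (q + 1)) := by
    linear_combination e1
  have e5 : (q : ℂ) + 1 = (p : ℂ) + 1 := mul_right_cancel₀ (mul_ne_zero lg lf) e4
  have e6 : q = p := by
    have e7 : (q : ℂ) = p := add_right_cancel e5
    exact_mod_cast e7
  omega

/-- The kernel of the Wronskian. -/
private theorem gp_ker {f g : ℂ[X]} (hf : f ≠ 0) (h : gpW f g = 0) : ∃ c : ℂ, c • f = g := by
  by_cases hg : g = 0
  · exact ⟨0, by rw [zero_smul, hg]⟩
  have hd := gp_deg hf hg h
  refine ⟨g.leadingCoeff / f.leadingCoeff, ?_⟩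
  obtain ⟨c, hc⟩ : ∃ c, c = g.leadingCoeff / f.leadingCoeff := ⟨_, rfl⟩
  rw [← hc]
  have hlf : f.leadingCoeff ≠ 0 := leadingCoeff_ne_zero.2 hf
  by_contra hne
  have h1 : g - c • f ≠ 0 := fun h0 => hne (sub_eq_zero.1 h0).symm
  have h2 : gpW f (g - c • f) = 0 := by
    rw [map_sub, map_smul, h, gpW_apply f f]
    have : derivative f * f - f * derivative f = 0 := by ring
    rw [this, smul_zero, sub_zero]
  have h3 := gp_deg hf h1 h2
  have h4 : (g - c • f).coeff f.natDegree = 0 := by
    rw [coeff_sub, coeff_smul, smul_eq_mul]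
    have h5 : g.coeff f.natDegree = g.leadingCoeff := by rw [← hd]; rfl
    have h6 : f.coeff f.natDegree = f.leadingCoeff := rfl
    rw [h5, h6, hc, div_mul_cancel₀ _ hlf, sub_self]
  rw [← h3] at h4
  exact h1 (leadingCoeff_eq_zero.1 h4)

/-- The order at `0` of the Wronskian. -/
private theorem gp_ord {F G : ℂ[X]} (hF : F.coeff 0 ≠ 0) (hG : G.coeff 0 = 0) (hG0 : G ≠ 0) (a : ℕ)
    (h1 : ∀ i < a, (derivative G * F - G * derivative F).coeff i = 0)
    (h2 : (derivative G * F - G * derivative F).coeff a ≠ 0) :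
    (∀ i < a + 1, G.coeff i = 0) ∧ G.coeff (a + 1) ≠ 0 := by
  obtain ⟨U, hU, hXU⟩ := exists_eq_pow_rootMultiplicity_mul_and_not_dvd G hG0 0
  rw [map_zero, sub_zero] at hU hXU
  obtain ⟨k, hk⟩ : ∃ k, k = rootMultiplicity 0 G := ⟨_, rfl⟩
  rw [← hk] at hU
  have hU0 : U.coeff 0 ≠ 0 := fun h => hXU (X_dvd_iff.2 h)
  have hk0 : k ≠ 0 := by
    rintro rfl
    rw [pow_zero, one_mul] at hU
    rw [hU] at hG
    exact hU0 hG
  obtain ⟨l, rfl⟩ := Nat.exists_eq_succ_of_ne_zero hk0
  have hW : derivative G * F - G * derivative F =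
      X ^ l * (C ((l : ℂ) + 1) * U * F + X * (derivative U * F - U * derivative F)) := by
    rw [hU, derivative_mul, derivative_X_pow]
    simp only [Nat.succ_eq_add_one, Nat.cast_add, Nat.cast_one, Nat.add_sub_cancel, map_add, map_one,
      map_natCast]
    ring
  have hc : ∀ i, (derivative G * F - G * derivative F).coeff i =
      if l ≤ i then (C ((l : ℂ) + 1) * U * F + X * (derivative U * F - U * derivative F)).coeff (i - l)
      else 0 := by
    intro i
    rw [hW, coeff_X_pow_mul']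
  have hl : (derivative G * F - G * derivative F).coeff l ≠ 0 := by
    rw [hc, if_pos le_rfl, Nat.sub_self, coeff_add, mul_coeff_zero, mul_coeff_zero, coeff_C_zero,
      mul_coeff_zero, coeff_X_zero, zero_mul, add_zero]
    exact mul_ne_zero (mul_ne_zero (Nat.cast_add_one_ne_zero l) hU0) hF
  have hla : l = a := by
    rcases lt_trichotomy l a with h | h | h
    · exact absurd (h1 l h) hl
    · exact h
    · exfalso
      apply h2
      rw [hc, if_neg (by omega)]
  subst hla
  have hGc : ∀ i, G.coeff i = if l + 1 ≤ i then U.coeff (i - (l + 1)) else 0 := by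
    intro i
    rw [hU, coeff_X_pow_mul']
  refine ⟨fun i hi => ?_, ?_⟩
  · rw [hGc, if_neg (by omega)]
  · rw [hGc, if_pos le_rfl, Nat.sub_self]
    exact hU0

private theorem gp_taylor_der (x : ℂ) (g : ℂ[X]) :
    derivative (taylor x g) = taylor x (derivative g) := by
  rw [taylor_apply, taylor_apply, derivative_comp]
  simp

/-- All but finitely many points are general for `V`. -/
private theorem gp_main (r : ℕ) : ∀ V : Submodule ℂ ℂ[X], FiniteDimensional ℂ V →
    Module.finrank ℂ V = r → ∃ B : Finset ℂ, ∀ x0 : ℂ, x0 ∉ B → ∀ a < r, ∃ q : ℂ[X], q ∈ V ∧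
      (∀ i < a, (taylor x0 q).coeff i = 0) ∧ (taylor x0 q).coeff a ≠ 0 := by
  classical
  induction r with
  | zero => exact fun V _ _ => ⟨∅, fun x0 _ a ha => absurd ha (Nat.not_lt_zero a)⟩
  | succ r ih =>
    intro V hV hr
    have hpos : 0 < Module.finrank ℂ V := by omega
    obtain ⟨⟨f, hfV⟩, hf⟩ := Module.finrank_pos_iff_exists_ne_zero.1 hpos
    have hf0 : f ≠ 0 := fun h => hf (Subtype.ext h)
    let D : V →ₗ[ℂ] ℂ[X] := (gpW f).domRestrict V
    have hker : Module.finrank ℂ (LinearMap.ker D) = 1 := by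
      have hmem : (⟨f, hfV⟩ : V) ∈ LinearMap.ker D := by
        rw [LinearMap.mem_ker]
        change derivative f * f - f * derivative f = 0
        ring
      refine finrank_eq_one (⟨⟨f, hfV⟩, hmem⟩ : LinearMap.ker D) ?_ ?_
      · intro h
        exact hf (congrArg Subtype.val h)
      · rintro ⟨⟨g, hgV⟩, hg⟩
        have h1 : gpW f g = 0 := hg
        obtain ⟨c, hc⟩ := gp_ker hf0 h1
        exact ⟨c, Subtype.ext (Subtype.ext hc)⟩
    have hrange : Module.finrank ℂ (LinearMap.range D) = r := by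
      have h1 := LinearMap.finrank_range_add_finrank_ker D
      omega
    obtain ⟨B, hB⟩ := ih (LinearMap.range D) inferInstance hrange
    refine ⟨B ∪ f.roots.toFinset, fun x0 hx0 a ha => ?_⟩
    rw [Finset.mem_union, not_or] at hx0
    have hfx : f.eval x0 ≠ 0 := by
      intro h
      apply hx0.2
      rw [Multiset.mem_toFinset, mem_roots hf0]
      exact h
    rcases Nat.eq_zero_or_pos a with rfl | ha0
    · refine ⟨f, hfV, fun i hi => absurd hi (Nat.not_lt_zero i), ?_⟩
      rw [taylor_coeff_zero]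
      exact hfx
    obtain ⟨a, rfl⟩ : ∃ a', a = a' + 1 := ⟨a - 1, by omega⟩
    obtain ⟨h, hh, h1, h2⟩ := hB x0 hx0.1 a (by omega)
    obtain ⟨⟨g, hgV⟩, rfl⟩ := hh
    obtain ⟨c, hc⟩ : ∃ c, c = g.eval x0 / f.eval x0 := ⟨_, rfl⟩
    have hDg : D ⟨g, hgV⟩ = gpW f (g - c • f) := by
      rw [map_sub, map_smul, gpW_apply f f]
      have : derivative f * f - f * derivative f = 0 := by ring
      rw [this, smul_zero, sub_zero]
      rfl
    rw [hDg, gpW_apply] at h1 h2
    have hT : ∀ i, (taylor x0 (derivative (g - c • f) * f - (g - c • f) * derivative f)).coeff i =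
        (derivative (taylor x0 (g - c • f)) * taylor x0 f -
          taylor x0 (g - c • f) * derivative (taylor x0 f)).coeff i := by
      intro i
      rw [map_sub, taylor_mul, taylor_mul, gp_taylor_der, gp_taylor_der]
    have hG0 : (taylor x0 (g - c • f)).coeff 0 = 0 := by
      rw [taylor_coeff_zero, eval_sub, eval_smul, smul_eq_mul, hc, div_mul_cancel₀ _ hfx, sub_self]
    have hF0 : (taylor x0 f).coeff 0 ≠ 0 := by
      rw [taylor_coeff_zero]
      exact hfx
    have hGne : taylor x0 (g - c • f) ≠ 0 := by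
      intro h0
      apply h2
      rw [hT, h0, derivative_zero, zero_mul, zero_mul, sub_zero, coeff_zero]
    refine ⟨g - c • f, V.sub_mem hgV (V.smul_mem c hfV), ?_⟩
    refine gp_ord hF0 hG0 hGne a (fun i hi => ?_) ?_
    · rw [← hT]
      exact h1 i hi
    · rw [← hT]
      exact h2

/-- R4. A point at which finitely many finite dimensional spaces of polynomials have the orders
`0, 1, …, dim - 1`. (Basis with distinct degrees; the determinant of the Taylor coefficients of order
`< dim` is a nonzero polynomial in the point: Wronskian, or leading terms and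
`det (choose (deg k) i) ≠ 0`.) -/
theorem exists_general_point (n : ℕ) (V : ℕ → Submodule ℂ ℂ[X])
    [∀ b, FiniteDimensional ℂ (V b)] :
    ∃ x0 : ℂ, ∀ b < n, ∃ q : ℕ → ℂ[X], ∀ a < Module.finrank ℂ (V b), q a ∈ V b ∧
      (∀ i < a, (taylor x0 (q a)).coeff i = 0) ∧ (taylor x0 (q a)).coeff a ≠ 0 := by
  classical
  have h1 : ∀ b, ∃ B : Finset ℂ, ∀ x0 : ℂ, x0 ∉ B → ∀ a < Module.finrank ℂ (V b),
      ∃ q : ℂ[X], q ∈ V b ∧ (∀ i < a, (taylor x0 q).coeff i = 0) ∧ (taylor x0 q).coeff a ≠ 0 :=
    fun b => gp_main _ (V b) inferInstance rfl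
  choose B hB using h1
  obtain ⟨x0, hx0⟩ := Infinite.exists_notMem_finset ((Finset.range n).biUnion B)
  refine ⟨x0, fun b hb => ?_⟩
  have h2 : x0 ∉ B b := fun h => hx0 (Finset.mem_biUnion.2 ⟨b, Finset.mem_range.2 hb, h⟩)
  have h3 : ∀ a : ℕ, ∃ q : ℂ[X], a < Module.finrank ℂ (V b) → q ∈ V b ∧
      (∀ i < a, (taylor x0 q).coeff i = 0) ∧ (taylor x0 q).coeff a ≠ 0 := by
    intro a
    by_cases ha : a < Module.finrank ℂ (V b)
    · obtain ⟨q, hq⟩ := hB b x0 h2 a ha
      exact ⟨q, fun _ => hq⟩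
    · exact ⟨0, fun h => absurd h ha⟩
  choose q hq using h3
  exact ⟨q, fun a ha => hq a ha⟩

end Pool.Agent.Lib.MP_6b2d39_agNw
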