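import Pool.Agent.Lib.MP_6b2d39_agNw.Heavy
import Pool.Agent.Lib.MP_6b2d39_agNw.Young

open Polynomial

set_option autoImplicit false

namespace Pool.Agent.Lib.MP_6b2d39_agNw

open Pool.Agent.Lib.MP_6b2d39_ag Pool.Agent.Lib.MP_6b2d39_ag.Rel
  Pool.Agent.Lib.MP_6b2d39_agWin Pool.Agent.Lib.MP_6b2d39_agArr

/-- The diagram with rows `min s (n - b)`, `b < n`, and a last row with one cell. -/
theorem diag_exc {μ s n : ℕ} {r : ℕ → ℕ} (hμ : 1 ≤ μ) (hs : μ ≤ s) (hsn : s ≤ n)
    (hr : ∀ b < n, r b = min s (n - b)) (h1 : r n = 1) (h0 : ∀ b, n + 1 ≤ b → r b = 0) :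
    Diag μ (n + 1) (n + 1) r := by
  have hrho : ∀ x < n, rho r x = min (x + 1) s := by
    intro x hx
    have h2 : dg r x = Finset.Icc (x + 1 - min (x + 1) s) x := by
      ext b
      rw [mem_dg, Finset.mem_Icc]
      constructor
      · rintro ⟨hb, hb'⟩
        rw [hr b (by omega)] at hb'
        omega
      · rintro ⟨hb, hb'⟩
        refine ⟨hb', ?_⟩
        rw [hr b (by omega)]
        omega
    unfold rho
    rw [h2, Nat.card_Icc]
    omega
  have hrn : rho r n = 1 := by
    have h2 : dg r n = {n} := by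
      ext b
      rw [mem_dg, Finset.mem_singleton]
      constructor
      · rintro ⟨hb, hb'⟩
        rcases Nat.lt_or_ge b n with h3 | h3
        · rw [hr b h3] at hb'
          omega
        · omega
      · rintro rfl
        refine ⟨le_rfl, ?_⟩
        rw [h1]
        omega
    unfold rho
    rw [h2, Finset.card_singleton]
  refine ⟨⟨rho_le r, fun b _ => rho_up r b, ?_, ?_⟩, ?_, h0⟩
  · intro b hb hlt
    rcases Nat.lt_or_ge (b + 1) n with h3 | h3
    · rw [hrho b (by omega), hrho (b + 1) h3] at hlt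
      rw [hrho (b + 1) h3]
      omega
    · have h4 : b + 1 = n := by omega
      rw [h4, hrn, hrho b (by omega)] at hlt
      omega
  · intro b hb hlt
    rcases Nat.lt_or_ge (b + 1) n with h3 | h3
    · left
      rw [hrho (b + 1) h3]
      omega
    · have h4 : b + 1 = n := by omega
      rw [h4, hrn, hrho b (by omega)]
      omega
  · intro b hb
    rcases Nat.lt_or_ge b n with h3 | h3
    · rw [hr b h3]
      omega
    · have h4 : b = n := by omega
      rw [h4, h1]
      omega

variable {ι : Type} [DecidableEq ι] {d : ℕ} {S : Finset ι} {m : ι → ℕ} {i1 i2 : ι}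

omit [DecidableEq ι] in
private theorem hy_sum (S : Finset ι) (m : ι → ℕ) (b : ℕ) :
    ∑ i ∈ S, (m i - b) = ∑ i ∈ S, (m i - (b + 1)) + (S.filter fun i => b < m i).card := by
  rw [Finset.card_filter, ← Finset.sum_add_distrib]
  refine Finset.sum_congr rfl fun i _ => ?_
  split_ifs <;> omega

theorem Heavy.rr_third (h : Heavy d S m i1 i2) {b : ℕ} (hb : 3 * b + (m i1 - b) < d) :
    rr d S m i1 i2 b + ∑ i ∈ S, (m i - b) + ((m i1 - b) + (m i2 - b) - (d - 3 * b)) =
      3 * (d - 3 * b) ∧ 1 ≤ rr d S m i1 i2 b := by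
  have h1 := h.pos hb
  unfold rr
  rw [if_neg (by omega), if_neg (by omega)]
  omega

omit [DecidableEq ι] in
theorem rr_edge {b : ℕ} (hb : d = 3 * b + (m i1 - b)) :
    rr d S m i1 i2 b = (m i1 - b) - (m i2 - b) + 1 := by
  unfold rr
  rw [if_neg (by omega), if_pos hb]

omit [DecidableEq ι] in
theorem rr_zero {b : ℕ} (hb : d < 3 * b + (m i1 - b)) : rr d S m i1 i2 b = 0 := by
  unfold rr
  rw [if_pos hb]

/-- a third point -/
theorem Heavy.exists_third (h : Heavy d S m i1 i2) : ∃ l ∈ S, l ≠ i1 ∧ l ≠ i2 := by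
  have h3 : 0 < ((S.erase i1).erase i2).card := by
    rw [Finset.card_erase_of_mem (Finset.mem_erase.2 ⟨h.ne.symm, h.h2⟩),
      Finset.card_erase_of_mem h.h1]
    have := h.three
    omega
  obtain ⟨l, hl⟩ := Finset.card_pos.1 h3
  rw [Finset.mem_erase, Finset.mem_erase] at hl
  exact ⟨l, hl.2.2, hl.2.1, hl.1⟩

theorem Heavy.le1 (h : Heavy d S m i1 i2) {i : ι} (hi : i ∈ S) : m i ≤ m i1 := by
  by_cases h1 : i = i1
  · rw [h1]
  · exact (h.max i hi h1).trans h.le

/-- R14. all points of multiplicity `> b`: the rows drop by `9 - card S` -/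
theorem Heavy.rr_step (h : Heavy d S m i1 i2) {b : ℕ} (hb : ∀ i ∈ S, b < m i)
    (hd : 3 * (b + 1) + (m i1 - (b + 1)) < d) :
    rr d S m i1 i2 (b + 1) + 9 = rr d S m i1 i2 b + S.card := by
  obtain ⟨l, hl, hl1, hl2⟩ := h.exists_third
  have h1 := (h.rr_third hd).1
  have h2 := (h.rr_third (b := b) (by omega)).1
  have h3 := hy_sum S m b
  rw [Finset.filter_true_of_mem hb] at h3
  have h4 := h.red i1 h.h1 i2 h.h2 l hl h.ne (Ne.symm hl1) (Ne.symm hl2)
  have h5 := hb i1 h.h1
  have h6 := hb i2 h.h2
  have h7 := hb l hl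
  omega

/-- at most eight points of multiplicity `> b`: strictly decreasing -/
theorem Heavy.rr_dec (h : Heavy d S m i1 i2) {b : ℕ}
    (hc : (S.filter fun i => b < m i).card ≤ 8) (hb : 3 * (b + 1) + (m i1 - (b + 1)) < d) :
    rr d S m i1 i2 (b + 1) + 1 ≤ rr d S m i1 i2 b := by
  have h1 := (h.rr_third hb).1
  have h2 := (h.rr_third (b := b) (by omega)).1
  have h3 := hy_sum S m b
  omega

/-- the same if `b + 1` is the last row, with one exception -/
theorem Heavy.rr_dec_edge (h : Heavy d S m i1 i2) {b : ℕ}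
    (hc : (S.filter fun i => b < m i).card ≤ 8) (hb : d = 3 * (b + 1) + (m i1 - (b + 1)))
    (hex : ¬ ((S.filter fun i => b < m i).card = 8 ∧ m i1 = b + 1)) :
    rr d S m i1 i2 (b + 1) + 1 ≤ rr d S m i1 i2 b := by
  have h1 := rr_edge (S := S) (i2 := i2) hb
  have h2 := (h.rr_third (b := b) (by omega)).1
  have hle := h.le
  have hs := h.sum_split (fun i => m i - b)
  by_cases h3 : ∃ l ∈ S, l ≠ i1 ∧ l ≠ i2 ∧ b < m l
  · obtain ⟨l, hl, hl1, hl2, hlb⟩ := h3
    obtain ⟨h4, h5, h6⟩ := h.triple hl hl1 hl2 hlb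
    have h7 : ∑ i ∈ S, (m i - b) + 1 ≤ (m i1 - b) + (S.filter fun i => b < m i).card := by
      have h8 : i1 ∈ S.filter fun i => b < m i := Finset.mem_filter.2 ⟨h.h1, h5⟩
      rw [← Finset.add_sum_erase S _ h.h1]
      have h9 : ∑ i ∈ S.erase i1, (m i - b) ≤ ((S.filter fun i => b < m i).erase i1).card := by
        rw [Finset.card_eq_sum_ones]
        have h10 : ((S.filter fun i => b < m i).erase i1) =
            (S.erase i1).filter fun i => b < m i := by
          ext i
          simp only [Finset.mem_erase, Finset.mem_filter]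
          tauto
        rw [h10, Finset.sum_filter]
        refine Finset.sum_le_sum fun i hi => ?_
        have h11 := h.max i (Finset.mem_of_mem_erase hi) (Finset.ne_of_mem_erase hi)
        split_ifs <;> omega
      rw [Finset.card_erase_of_mem h8] at h9
      have := Finset.card_pos.2 ⟨i1, h8⟩
      omega
    omega
  · push Not at h3
    have h4 : ∑ i ∈ (S.erase i1).erase i2, (m i - b) = 0 := by
      refine Finset.sum_eq_zero fun i hi => ?_
      rw [Finset.mem_erase, Finset.mem_erase] at hi
      have := h3 i hi.2.2 hi.2.1 hi.1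
      omega
    rw [h4] at hs
    omega

/-- the first rows, nine points -/
theorem Heavy.rr_lin9 (h : Heavy d S m i1 i2) (hc : S.card = 9) {B : ℕ} (hB : ∀ i ∈ S, B ≤ m i)
    (hd : m i1 + 2 * B < d) : ∀ b ≤ B, rr d S m i1 i2 b = rr d S m i1 i2 0 := by
  intro b
  induction b with
  | zero => exact fun _ => rfl
  | succ b ih =>
    intro hb
    have h1 := ih (by omega)
    have h2 := hB i1 h.h1
    have h3 := h.rr_step (b := b) (fun i hi => by have := hB i hi; omega) (by omega)
    omega

/-- the first rows, eight points -/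
theorem Heavy.rr_lin8 (h : Heavy d S m i1 i2) (hc : S.card = 8) {B : ℕ} (hB : ∀ i ∈ S, B ≤ m i)
    (hd : m i1 + 2 * B < d) : ∀ b ≤ B, rr d S m i1 i2 b + b = rr d S m i1 i2 0 := by
  intro b
  induction b with
  | zero => exact fun _ => rfl
  | succ b ih =>
    intro hb
    have h1 := ih (by omega)
    have h2 := hB i1 h.h1
    have h3 := h.rr_step (b := b) (fun i hi => by have := hB i hi; omega) (by omega)
    omega

theorem Heavy.rr_pos (h : Heavy d S m i1 i2) {b : ℕ} (hb : 3 * b + (m i1 - b) ≤ d) :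
    1 ≤ rr d S m i1 i2 b := by
  rcases Nat.lt_or_ge (3 * b + (m i1 - b)) d with h1 | h1
  · exact (h.rr_third h1).2
  · rw [rr_edge (by omega)]
    omega

/-- the exceptional case: `d = 3 n`, eight points of multiplicity `n` -/
private theorem hy_exc (h : Heavy d S m i1 i2) {μ : ℕ} (hμ : 1 ≤ μ) (hS : ∀ i ∈ S, μ ≤ m i)
    (hc : S.card = 8 ∨ S.card = 9 ∧ ∑ i ∈ S, m i + μ ≤ 3 * d) {H : ℕ}
    (hH : ∀ b, b < H ↔ 3 * b + (m i1 - b) ≤ d) {b : ℕ} (hd : d = 3 * (b + 1))
    (h1 : m i1 = b + 1) (hf : (S.filter fun i => b < m i).card = 8) :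
    Diag μ (b + 1 + 1) H (rr d S m i1 i2) := by
  have hHn : H = b + 1 + 1 := by
    have h2 := (hH (b + 1)).2 (by omega)
    have h3 : ¬ b + 1 + 1 < H := fun h3 => by
      have := (hH (b + 1 + 1)).1 h3
      omega
    omega
  subst hHn
  have hle := h.le
  have hsplit : ∀ b', ∑ i ∈ S, (m i - b') = ∑ i ∈ S.filter (fun i => b < m i), (m i - b') +
      ∑ i ∈ S.filter (fun i => ¬ b < m i), (m i - b') := fun b' =>
    (Finset.sum_filter_add_sum_filter_not S _ _).symm
  have h8 : ∀ b', ∑ i ∈ S.filter (fun i => b < m i), (m i - b') = 8 * (b + 1 - b') := by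
    intro b'
    rw [Finset.sum_congr rfl (g := fun _ => b + 1 - b'), Finset.sum_const, hf, smul_eq_mul]
    intro i hi
    rw [Finset.mem_filter] at hi
    have := h.le1 hi.1
    omega
  have hcard : (S.filter fun i => ¬ b < m i).card = S.card - 8 := by
    have := Finset.card_filter_add_card_filter_not (s := S) (fun i => b < m i)
    omega
  obtain ⟨c, hcb, hcμ, hcs⟩ : ∃ c, c ≤ b ∧ c + μ ≤ b + 1 ∧
      ∀ b', ∑ i ∈ S.filter (fun i => ¬ b < m i), (m i - b') = c - b' := by
    rcases hc with hc | ⟨hc, hsum⟩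
    · have h2 : (S.filter fun i => ¬ b < m i) = ∅ := by
        rw [← Finset.card_eq_zero, hcard, hc]
      refine ⟨0, Nat.zero_le _, ?_, fun b' => ?_⟩
      · have := hS i1 h.h1
        omega
      · rw [h2, Finset.sum_empty, Nat.zero_sub]
    · rw [hc] at hcard
      obtain ⟨j, hj⟩ := Finset.card_eq_one.1 hcard
      have h2 : j ∈ S.filter fun i => ¬ b < m i := by rw [hj]; exact Finset.mem_singleton_self j
      rw [Finset.mem_filter] at h2
      have h3 : ∀ b', ∑ i ∈ S.filter (fun i => ¬ b < m i), (m i - b') = m j - b' := fun b' => by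
        rw [hj, Finset.sum_singleton]
      refine ⟨m j, by omega, ?_, h3⟩
      have h4 := hsplit 0
      rw [h8, h3] at h4
      simp only [Nat.sub_zero] at h4
      omega
  refine diag_exc (s := b + 1 - c) hμ (by omega) (by omega) ?_ ?_ ?_
  · intro b' hb'
    have h2 := (h.rr_third (b := b') (by omega)).1
    rw [hsplit, h8, hcs] at h2
    omega
  · rw [rr_edge (by omega)]
    omega
  · intro b' hb'
    exact rr_zero (by omega)

/-- R15. the diagonals of the diagram of the rows form a good profile -/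
theorem Heavy.young (h : Heavy d S m i1 i2) {μ : ℕ} (hμ : 1 ≤ μ) (hS : ∀ i ∈ S, μ ≤ m i)
    (hc : S.card = 8 ∨ S.card = 9 ∧ ∑ i ∈ S, m i + μ ≤ 3 * d) {H : ℕ}
    (hH : ∀ b, b < H ↔ 3 * b + (m i1 - b) ≤ d) :
    ∃ T, Diag μ T H (rr d S m i1 i2) := by
  by_cases hE : ∃ b, d = 3 * (b + 1) ∧ m i1 = b + 1 ∧ (S.filter fun i => b < m i).card = 8
  · obtain ⟨b, hb1, hb2, hb3⟩ := hE
    exact ⟨_, hy_exc h hμ hS hc hH hb1 hb2 hb3⟩
  push Not at hE
  obtain ⟨i0, hi0, hmin⟩ := S.exists_min_image m ⟨i1, h.h1⟩
  obtain ⟨l, hl, hl1, hl2⟩ := h.exists_third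
  have hred := h.red i1 h.h1 i2 h.h2 l hl h.ne (Ne.symm hl1) (Ne.symm hl2)
  have hle := h.le
  have hpair := h.pair
  have h01 := hmin i1 h.h1
  have h02 := hmin i2 h.h2
  have h0l := hmin l hl
  have hμt := hS i0 hi0
  generalize ht : m i0 = t at *
  have hzero : ∀ b, H ≤ b → rr d S m i1 i2 b = 0 := fun b hb => rr_zero (by
    by_contra h2
    have := (hH b).2 (by omega)
    omega)
  have hpos : ∀ b < H, 1 ≤ rr d S m i1 i2 b := fun b hb => h.rr_pos ((hH b).1 hb)
  have hfil : ∀ b, t ≤ b → (S.filter fun i => b < m i).card ≤ 8 := by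
    intro b hb
    rcases hc with hc | ⟨hc, -⟩
    · exact (Finset.card_filter_le _ _).trans hc.le
    · have h2 : (S.filter fun i => b < m i) ⊆ S.erase i0 := by
        intro i hi
        rw [Finset.mem_filter] at hi
        refine Finset.mem_erase.2 ⟨?_, hi.1⟩
        rintro rfl
        omega
      have h3 := Finset.card_le_card h2
      rw [Finset.card_erase_of_mem hi0, hc] at h3
      exact h3
  have hdec : ∀ b, t ≤ b → b + 1 < H → rr d S m i1 i2 (b + 1) + 1 ≤ rr d S m i1 i2 b := by
    intro b hb hbH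
    have h2 := (hH (b + 1)).1 hbH
    rcases Nat.lt_or_ge (3 * (b + 1) + (m i1 - (b + 1))) d with h3 | h3
    · exact h.rr_dec (hfil b hb) h3
    · refine h.rr_dec_edge (hfil b hb) (by omega) ?_
      rintro ⟨h4, h5⟩
      exact hE b (by omega) h5 h4
  by_cases hB : m i1 + 2 * t < d
  · have htH : t < H := (hH t).2 (by omega)
    rcases hc with hc | ⟨hc, hsum⟩
    · have hlin := h.rr_lin8 hc hmin hB
      refine ⟨_, Young.diag (μ := μ) (s := rr d S m i1 i2 0) (t := 0) (t1 := t)
        ⟨?_, ?_, ?_, hpos, hzero, ?_, by omega, Nat.zero_le _, htH⟩⟩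
      · have := hlin t le_rfl
        have := hpos t htH
        omega
      · intro b hb
        rw [Nat.le_zero.1 hb]
      · intro b _ hbH
        rcases Nat.lt_or_ge b t with h2 | h2
        · have h3 := hlin b h2.le
          have h4 := hlin (b + 1) h2
          omega
        · exact hdec b h2 hbH
      · intro b _ hb
        have := hlin b hb
        omega
    · have hlin := h.rr_lin9 hc hmin hB
      refine ⟨_, Young.diag (μ := μ) (s := rr d S m i1 i2 0) (t := t) (t1 := t)
        ⟨?_, hlin, hdec, hpos, hzero, ?_, by omega, le_rfl, htH⟩⟩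
      · have h2 := (h.rr_third (b := 0) (by omega)).1
        simp only [Nat.sub_zero] at h2
        omega
      · intro b hb1 hb2
        have h2 := hlin b hb2
        omega
  · have hBC : d = m i1 + 2 * t := by omega
    have ht1 : 1 ≤ t := by omega
    have hm2 : m i2 = t := by omega
    have hHt : H = t + 1 := by
      have h2 := (hH t).2 (by omega)
      have h3 : ¬ t + 1 < H := fun h3 => by
        have := (hH (t + 1)).1 h3
        omega
      omega
    have hmin' : ∀ i ∈ S, t - 1 ≤ m i := fun i hi => by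
      have := hmin i hi
      omega
    have hrt : rr d S m i1 i2 t = m i1 - t + 1 := by
      rw [rr_edge (by omega)]
      omega
    have hsum1 : ∑ i ∈ S, (m i - (t - 1)) + 1 = (m i1 - (t - 1)) + S.card := by
      rw [← Finset.add_sum_erase S _ h.h1]
      have h2 : ∑ i ∈ S.erase i1, (m i - (t - 1)) = (S.erase i1).card := by
        rw [Finset.card_eq_sum_ones]
        refine Finset.sum_congr rfl fun i hi => ?_
        have h3 := h.max i (Finset.mem_of_mem_erase hi) (Finset.ne_of_mem_erase hi)
        have h4 := hmin i (Finset.mem_of_mem_erase hi)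
        omega
      rw [h2, Finset.card_erase_of_mem h.h1]
      have := Finset.card_pos.2 ⟨i1, h.h1⟩
      omega
    have hrt1 := (h.rr_third (b := t - 1) (by omega)).1
    rcases hc with hc | ⟨hc, hsum⟩
    · have hlin := h.rr_lin8 hc hmin' (by omega)
      have hk : t < m i1 := by
        by_contra hk
        refine hE (t - 1) (by omega) (by omega) ?_
        rw [Finset.filter_true_of_mem (fun i hi => by have := hmin i hi; omega), hc]
      refine ⟨_, Young.diag (μ := μ) (s := rr d S m i1 i2 0) (t := 0) (t1 := t - 1)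
        ⟨?_, ?_, ?_, hpos, hzero, ?_, by omega, Nat.zero_le _, by omega⟩⟩
      · have := hlin (t - 1) le_rfl
        omega
      · intro b hb
        rw [Nat.le_zero.1 hb]
      · intro b _ hbH
        rcases Nat.lt_or_ge b (t - 1) with h2 | h2
        · have h3 := hlin b h2.le
          have h4 := hlin (b + 1) h2
          omega
        · have h3 : b = t - 1 := by omega
          have h4 : b + 1 = t := by omega
          rw [h4, hrt, h3]
          omega
      · intro b _ hb
        have := hlin b hb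
        omega
    · have hlin := h.rr_lin9 hc hmin' (by omega)
      have hlt := hlin (t - 1) le_rfl
      have hp := hpos (t - 1) (by omega)
      have hs : μ ≤ rr d S m i1 i2 0 := by
        have h2 := (h.rr_third (b := 0) (by omega)).1
        simp only [Nat.sub_zero] at h2
        omega
      by_cases hk : m i1 = t + 1
      · refine ⟨_, Young.diag (μ := μ) (s := rr d S m i1 i2 0) (t := t) (t1 := t)
          ⟨hs, ?_, ?_, hpos, hzero, ?_, by omega, le_rfl, by omega⟩⟩
        · intro b hb
          rcases Nat.lt_or_ge b t with h2 | h2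
          · exact hlin b (by omega)
          · have h3 : b = t := by omega
            rw [h3, hrt]
            omega
        · intro b hb hbH
          omega
        · intro b hb1 hb2
          have h3 : b = t := by omega
          rw [h3, hrt]
          omega
      · refine ⟨_, Young.diag (μ := μ) (s := rr d S m i1 i2 0) (t := t - 1) (t1 := t - 1)
          ⟨hs, hlin, ?_, hpos, hzero, ?_, by omega, le_rfl, by omega⟩⟩
        · intro b hb hbH
          have h3 : b = t - 1 := by omega
          have h4 : b + 1 = t := by omega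
          rw [h4, hrt, h3]
          omega
        · intro b hb1 hb2
          have h2 := hlin b hb2
          omega

end Pool.Agent.Lib.MP_6b2d39_agNw
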