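import Pool.Agent.Lib.MP_6b2d39_agNw.Heavy

open Polynomial

set_option autoImplicit false

namespace Pool.Agent.Lib.MP_6b2d39_agNw

open Pool.Agent.Lib.MP_6b2d39_ag Pool.Agent.Lib.MP_6b2d39_ag.Rel
  Pool.Agent.Lib.MP_6b2d39_agWin Pool.Agent.Lib.MP_6b2d39_agArr

variable {ι : Type} [DecidableEq ι] {d : ℕ} {S : Finset ι} {m : ι → ℕ} {i1 i2 : ι}

private theorem hsum_ch (n : ℕ) : (n + 1).choose 2 = n + n.choose 2 := by
  rw [Nat.choose_succ_succ' n 1, Nat.choose_one_right]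

private theorem hsum_pred (k : ℕ) : (k + 1).choose 2 = (k - 1 + 1).choose 2 + k := by
  cases k with
  | zero => rfl
  | succ j =>
    rw [Nat.add_sub_cancel, hsum_ch (j + 1), add_comm]

/-- the first steps -/
private theorem hsum_step (h : Heavy d S m i1 i2) {b : ℕ}
    (hb : 3 * (b + 1) + (m i1 - (b + 1)) ≤ d) :
    rr d S m i1 i2 b + (d - 3 * (b + 1) + 2).choose 2 +
      ((m i1 - (b + 1)) + (m i2 - (b + 1)) - (d - 3 * (b + 1))).choose 2 +
        ∑ i ∈ S, (m i - b + 1).choose 2 =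
      (d - 3 * b + 2).choose 2 + ((m i1 - b) + (m i2 - b) - (d - 3 * b)).choose 2 +
        ∑ i ∈ S, (m i - (b + 1) + 1).choose 2 := by
  have hle := h.le
  have hb0 : 3 * b + (m i1 - b) < d := by omega
  have hpos := h.pos hb0
  have hr : rr d S m i1 i2 b = 3 * (d - 3 * b) - ∑ i ∈ S, (m i - b) -
      ((m i1 - b) + (m i2 - b) - (d - 3 * b)) := by
    unfold rr
    rw [if_neg (by omega), if_neg (by omega)]
  have hs : ∑ i ∈ S, (m i - b + 1).choose 2 =
      ∑ i ∈ S, (m i - (b + 1) + 1).choose 2 + ∑ i ∈ S, (m i - b) := by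
    rw [← Finset.sum_add_distrib]
    refine Finset.sum_congr rfl fun i _ => ?_
    rw [hsum_pred (m i - b), Nat.sub_add_eq]
  have he : (d - 3 * b + 2).choose 2 = (d - 3 * (b + 1) + 2).choose 2 + 3 * (d - 3 * b) := by
    obtain ⟨e, he⟩ : ∃ e, e = d - 3 * (b + 1) := ⟨_, rfl⟩
    have he2 : d - 3 * b = e + 3 := by omega
    rw [← he, he2, hsum_ch (e + 4), hsum_ch (e + 3), hsum_ch (e + 2)]
    omega
  have hδ : ((m i1 - (b + 1)) + (m i2 - (b + 1)) - (d - 3 * (b + 1))).choose 2 =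
      ((m i1 - b) + (m i2 - b) - (d - 3 * b)).choose 2 +
        ((m i1 - b) + (m i2 - b) - (d - 3 * b)) := by
    by_cases h0 : 0 < (m i1 - b) + (m i2 - b) - (d - 3 * b)
    · obtain ⟨t, ht⟩ : ∃ t, t = (m i1 - b) + (m i2 - b) - (d - 3 * b) := ⟨_, rfl⟩
      have h1 : (m i1 - (b + 1)) + (m i2 - (b + 1)) - (d - 3 * (b + 1)) = t + 1 := by omega
      rw [h1, ← ht, hsum_ch t, add_comm]
    · have h1 : (m i1 - b) + (m i2 - b) - (d - 3 * b) = 0 := by omega
      have h2 : (m i1 - (b + 1)) + (m i2 - (b + 1)) - (d - 3 * (b + 1)) = 0 ∨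
          (m i1 - (b + 1)) + (m i2 - (b + 1)) - (d - 3 * (b + 1)) = 1 := by omega
      rw [h1]
      rcases h2 with h2 | h2
      · rw [h2, add_zero]
      · rw [h2]
        rfl
  rw [hs, he, hδ, hr]
  omega

/-- the last step -/
private theorem hsum_last (h : Heavy d S m i1 i2) {b : ℕ} (hb : 3 * b + (m i1 - b) ≤ d)
    (hb' : d < 3 * (b + 1) + (m i1 - (b + 1))) :
    rr d S m i1 i2 b + ∑ i ∈ S, (m i - b + 1).choose 2 =
      (d - 3 * b + 2).choose 2 + ((m i1 - b) + (m i2 - b) - (d - 3 * b)).choose 2 := by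
  have hle := h.le
  have h0 : ∀ i ∈ (S.erase i1).erase i2, m i - b = 0 := by
    intro i hi
    rw [Finset.mem_erase, Finset.mem_erase] at hi
    by_contra hn
    obtain ⟨h1, h2, h3⟩ := h.triple hi.2.2 hi.2.1 hi.1 (b := b) (by omega)
    omega
  have hs : ∑ i ∈ S, (m i - b + 1).choose 2 =
      (m i1 - b + 1).choose 2 + (m i2 - b + 1).choose 2 := by
    rw [h.sum_split, Finset.sum_eq_zero (s := (S.erase i1).erase i2), add_zero]
    intro i hi
    rw [h0 i hi]
    rfl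
  have hs' : ∑ i ∈ S, (m i - b) = (m i1 - b) + (m i2 - b) := by
    rw [h.sum_split, Finset.sum_eq_zero (s := (S.erase i1).erase i2) h0, add_zero]
  obtain ⟨e, he⟩ : ∃ e, e = d - 3 * b := ⟨_, rfl⟩
  obtain ⟨k1, hk1⟩ : ∃ k1, k1 = m i1 - b := ⟨_, rfl⟩
  obtain ⟨k2, hk2⟩ : ∃ k2, k2 = m i2 - b := ⟨_, rfl⟩
  have hk : k2 ≤ k1 := by omega
  rw [hs, ← he, ← hk1, ← hk2]
  by_cases h1 : d = 3 * b + (m i1 - b)
  · have hr : rr d S m i1 i2 b = k1 - k2 + 1 := by
      unfold rr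
      rw [if_neg (by omega), if_pos h1, hk1, hk2]
    have he1 : e = k1 := by omega
    have h2 : k1 + k2 - k1 = k2 := by omega
    rw [hr, he1, h2, hsum_ch (k1 + 1), hsum_ch k2]
    omega
  · have hr : rr d S m i1 i2 b = 3 * e - (k1 + k2) - (k1 + k2 - e) := by
      unfold rr
      rw [if_neg (by omega), if_neg h1, hs', ← he, ← hk1, ← hk2]
    rw [hr]
    by_cases h2 : e = k1 + 1
    · rw [h2, hsum_ch (k1 + 2), hsum_ch (k1 + 1)]
      rcases Nat.eq_zero_or_pos k2 with h3 | h3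
      · have h4 : k1 + 0 - (k1 + 1) = 0 := by omega
        rw [h3, h4, Nat.choose_eq_zero_of_lt (n := 0 + 1) (k := 2) (by norm_num),
          Nat.choose_eq_zero_of_lt (n := 0) (k := 2) (by norm_num)]
        omega
      · obtain ⟨j, rfl⟩ : ∃ j, k2 = j + 1 := ⟨k2 - 1, by omega⟩
        have h4 : k1 + (j + 1) - (k1 + 1) = j := by omega
        rw [h4, hsum_ch (j + 1), hsum_ch j]
        omega
    · have h3 : k1 = 0 := by omega
      have h4 : k2 = 0 := by omega
      have h5 : e = 2 := by omega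
      rw [h3, h4, h5]
      rfl

/-- R13. the number of cells is the virtual dimension. Telescoping with the potential (in ℤ)
`hh b = C(e+2,2) - ∑ C(k i + 1, 2) + C(δ, 2)`, `e = d - 3 b`, `k i = m i - b`,
`δ = max 0 (k i1 + k i2 - e)`, if `k i1 ≤ e`, and `0` otherwise: `hh b - hh (b + 1) = rr b`. -/
theorem Heavy.sum_rr (h : Heavy d S m i1 i2) {H : ℕ}
    (hH : ∀ b, b < H ↔ 3 * b + (m i1 - b) ≤ d) :
    ∑ b ∈ Finset.range H, rr d S m i1 i2 b + ∑ i ∈ S, (m i + 1).choose 2 = (d + 2).choose 2 := by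
  have hpair := h.pair
  have hind : ∀ n, n < H → ∑ b ∈ Finset.range n, rr d S m i1 i2 b +
      ∑ i ∈ S, (m i + 1).choose 2 + (d - 3 * n + 2).choose 2 +
        ((m i1 - n) + (m i2 - n) - (d - 3 * n)).choose 2 =
      (d + 2).choose 2 + ∑ i ∈ S, (m i - n + 1).choose 2 := by
    intro n
    induction n with
    | zero =>
      intro _
      have h1 : (m i1 - 0) + (m i2 - 0) - (d - 3 * 0) = 0 := by omega
      rw [h1, Finset.sum_range_zero, Nat.choose_eq_zero_of_lt (n := 0) (k := 2) (by norm_num),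
        Nat.mul_zero, Nat.sub_zero]
      simp only [Nat.sub_zero]
      omega
    | succ n ih =>
      intro hn
      have h1 := ih (by omega)
      have h2 := hsum_step h ((hH (n + 1)).1 hn)
      rw [Finset.sum_range_succ]
      omega
  have hH0 : 0 < H := (hH 0).2 (by omega)
  obtain ⟨n, rfl⟩ : ∃ n, H = n + 1 := ⟨H - 1, by omega⟩
  have h1 := hind n (Nat.lt_succ_self n)
  have h2 := hsum_last h ((hH n).1 (Nat.lt_succ_self n)) (by
    by_contra hn
    exact lt_irrefl _ ((hH (n + 1)).2 (by omega)))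
  rw [Finset.sum_range_succ]
  omega

end Pool.Agent.Lib.MP_6b2d39_agNw
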