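import Pool.Agent.Lib.MP_6b2d39_agNw.Core
import Pool.Agent.Lib.MP_6b2d39_agNw.GenPt

open Polynomial

set_option autoImplicit false

namespace Pool.Agent.Lib.MP_6b2d39_agNw

open Pool.Agent.Lib.MP_6b2d39_ag Pool.Agent.Lib.MP_6b2d39_ag.Rel
  Pool.Agent.Lib.MP_6b2d39_agWin Pool.Agent.Lib.MP_6b2d39_agArr

private theorem empP_mono {ι : Type} {P P' : Finset (ℕ × ℕ)} (h : P' ⊆ P) {m : ι → ℕ}
    {J : Finset ι} (hE : EmpP P m J) : EmpP P' m J := by
  obtain ⟨x, y, hx, hy, H⟩ := hE
  exact ⟨x, y, hx, hy, fun f hf => H f fun i j hij => hf i j fun h' => hij (h h')⟩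

private theorem csmul (c : ℂ) (F : ℂ[X][X]) : c • F = C (C c) * F := by
  rw [← smul_eq_C_mul]
  ext a b
  simp

/-- the substitution `y ↦ y + x ^ 3` -/
private noncomputable abbrev phi : ℂ[X][X] →+* ℂ[X][X] := phiS (wS 3 1)

private theorem phi_cub : phi cub = C X := by
  rw [phi, cub, map_sub (phiS _), phiS_C_X, map_pow (phiS _), phiS_X, wS]
  simp

private theorem phi_res (H : ℂ[X][X]) : (phi H).map (ev0 ℂ) = res H := by
  have h : (mapRingHom (ev0 ℂ)).comp phi = (res : ℂ[X][X] →+* ℂ[X]) := by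
    apply Polynomial.ringHom_ext'
    · apply Polynomial.ringHom_ext'
      · ext c
        simp [phi, phiS_C_C, res]
      · simp only [RingHom.comp_apply, phi, phiS_C_X]
        simp [wS, res]
    · simp [phi, phiS_X, res]
  exact congrArg (fun f : ℂ[X][X] →+* ℂ[X] => f H) h

private theorem phi_inv (F : ℂ[X][X]) : phiS cub (phi F) = F := by
  have h1 : (phiS cub).comp phi = RingHom.id _ := by
    apply Polynomial.ringHom_ext'
    · apply Polynomial.ringHom_ext'
      · ext c
        simp [phi, phiS_C_C]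
      · simp only [RingHom.comp_apply, RingHom.id_apply, phi, phiS_C_X]
        rw [wS, C_mul, map_add, map_mul, map_pow, phiS_C_C, phiS_C_X, phiS_X, cub]
        simp
    · simp [phi, phiS_X]
  exact congrArg (fun f : ℂ[X][X] →+* ℂ[X][X] => f F) h1

private theorem cub_dvd {F : ℂ[X][X]} (h : res F = 0) : ∃ G, F = cub * G := by
  rw [← phi_res] at h
  obtain ⟨g, hg⟩ := exists_eq_y_mul h
  refine ⟨phiS cub g, ?_⟩
  rw [← phi_inv F, hg, map_mul, phiS_C_X]

private theorem coeff_key (x0 : ℂ) (b : ℕ) (H : ℂ[X][X]) (i j : ℕ) :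
    ((taylor (C x0) (phi (cub ^ b * H))).coeff i).coeff j =
      if b ≤ j then ((taylor (C x0) (phi H)).coeff i).coeff (j - b) else 0 := by
  rw [map_mul, map_pow, phi_cub, taylor_mul, ← C_pow, taylor_C, coeff_C_mul, coeff_X_pow_mul']

private theorem coeff_zero_key (x0 : ℂ) (H : ℂ[X][X]) (i : ℕ) :
    ((taylor (C x0) (phi H)).coeff i).coeff 0 = (taylor x0 (res H)).coeff i := by
  rw [← phi_res, coeff_taylor_ev0, coeff_zero_eq_eval_zero]

private theorem cond_taylor {S : Finset ℕ} {x0 x y : ℂ} {F : ℂ[X][X]}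
    (h : Cond S (x0 + x) y F) : Cond S x y (taylor (C x0) F) := by
  intro a
  rw [taylor_taylor, ← C_add, add_comm x x0]
  exact h a

private theorem span_orders {U : Submodule ℂ ℂ[X]} [FiniteDimensional ℂ U] {x0 : ℂ} {q : ℕ → ℂ[X]}
    (hq : ∀ a < Module.finrank ℂ U, q a ∈ U ∧
      (∀ i < a, (taylor x0 (q a)).coeff i = 0) ∧ (taylor x0 (q a)).coeff a ≠ 0) {u : ℂ[X]}
    (hu : u ∈ U) : ∃ c : Fin (Module.finrank ℂ U) → ℂ, ∑ i, c i • q i = u := by
  let v : Fin (Module.finrank ℂ U) → U := fun i => ⟨q i, (hq i i.2).1⟩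
  have hv : LinearIndependent ℂ v := by
    rw [Fintype.linearIndependent_iff]
    intro g hg
    have hg' : ∑ i, g i • q i = 0 := by
      have := congrArg (Submodule.subtype U) hg
      rw [map_sum, map_zero] at this
      simpa [v] using this
    have key : ∀ n : ℕ, ∀ i : Fin (Module.finrank ℂ U), i.1 < n → g i = 0 := by
      intro n
      induction n with
      | zero => intro i hi; omega
      | succ n ih =>
        intro i hi
        by_cases hin : i.1 < n
        · exact ih i hin
        · have h1 := congrArg (fun p => (taylor x0 p).coeff i.1) hg'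
          simp only [map_sum, map_smul, finsetSum_coeff, coeff_smul, map_zero, coeff_zero,
            smul_eq_mul] at h1
          rw [Finset.sum_eq_single i] at h1
          · exact (mul_eq_zero.1 h1).resolve_right (hq i i.2).2.2
          · intro j _ hj
            rcases lt_or_gt_of_ne (fun h => hj (Fin.ext h) : j.1 ≠ i.1) with h | h
            · rw [ih j (by omega), zero_mul]
            · rw [(hq j j.2).2.1 i.1 h, mul_zero]
          · intro h
            exact absurd (Finset.mem_univ i) h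
    intro i
    exact key (i.1 + 1) i (Nat.lt_succ_self _)
  have hspan := hv.span_eq_top_of_card_eq_finrank' (by simp)
  have hmem : (⟨u, hu⟩ : U) ∈ Submodule.span ℂ (Set.range v) := by
    rw [hspan]; exact Submodule.mem_top
  obtain ⟨c, hc⟩ := (Submodule.mem_span_range_iff_exists_fun ℂ).1 hmem
  refine ⟨c, ?_⟩
  have := congrArg (Submodule.subtype U) hc
  rw [map_sum] at this
  simpa [v] using this

/-- R5. DIAGRAM LEMMA for the cubic `y = x ^ 3`. Proof: replace `V b` by the space of all `res H` with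
`cub ^ b * H ∈ W`; general point `x0`; `H (b, a)` with `res (H (b, a)) = q a`; the polynomials
`G (a, b) = taylor (C x0) (phiS (wS 3 1) (cub ^ b * H (b, a)))` satisfy the hypotheses of
`core_points`, `K` larger than all dimensions (`phiS (wS 3 1) cub = C X`, and the row `b` of
`phiS (wS 3 1) (cub ^ b * H)` is `res H`); they span the image of `W`; `EmpP` is monotone. -/
theorem diagram_cusp {ι : Type} [Fintype ι] [DecidableEq ι] {W : Submodule ℂ ℂ[X][X]} {n : ℕ}
    {r : ℕ → ℕ} (V : ℕ → Submodule ℂ ℂ[X]) [∀ b, FiniteDimensional ℂ (V b)]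
    (hV : ∀ b < n, ∀ H, cub ^ b * H ∈ W → res H ∈ V b)
    (hr : ∀ b < n, Module.finrank ℂ (V b) ≤ r b) (h0 : ∀ H, cub ^ n * H ∈ W → H = 0)
    {m : ι → ℕ} {J : Finset ι} (hE : EmpP (dgm r n) m J) :
    ∃ x y : ι → ℂ, ∀ F ∈ W, (∀ i ∈ J, Cond (Finset.Icc 1 (m i)) (x i) (y i) F) → F = 0 := by
  classical
  -- the space of restrictions
  let U : ℕ → Submodule ℂ ℂ[X] := fun b =>
    (W.comap (LinearMap.mulLeft ℂ (cub ^ b))).map res.toLinearMap ⊓ V b
  have hU : ∀ b < n, ∀ u, u ∈ U b ↔ ∃ H, cub ^ b * H ∈ W ∧ res H = u := by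
    intro b hb u
    constructor
    · rintro ⟨⟨H, hH, rfl⟩, -⟩
      exact ⟨H, hH, rfl⟩
    · rintro ⟨H, hH, rfl⟩
      exact ⟨⟨H, hH, rfl⟩, hV b hb H hH⟩
  have hfd : ∀ b, FiniteDimensional ℂ (U b) := fun b => Submodule.finiteDimensional_inf_right _ _
  have hdim : ∀ b < n, Module.finrank ℂ (U b) ≤ r b := fun b hb =>
    (Submodule.finrank_mono inf_le_right).trans (hr b hb)
  obtain ⟨x0, hx0⟩ := exists_general_point n U
  have hex : ∀ b, ∃ H : ℕ → ℂ[X][X], b < n → ∀ a < Module.finrank ℂ (U b),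
      cub ^ b * H a ∈ W ∧ res (H a) ∈ U b ∧
      (∀ i < a, (taylor x0 (res (H a))).coeff i = 0) ∧ (taylor x0 (res (H a))).coeff a ≠ 0 := by
    intro b
    by_cases hb : b < n
    · obtain ⟨q, hq⟩ := hx0 b hb
      have : ∀ a, ∃ H : ℂ[X][X], a < Module.finrank ℂ (U b) → cub ^ b * H ∈ W ∧ res H = q a := by
        intro a
        by_cases ha : a < Module.finrank ℂ (U b)
        · obtain ⟨H, hH⟩ := (hU b hb _).1 (hq a ha).1
          exact ⟨H, fun _ => hH⟩
        · exact ⟨0, fun h => absurd h ha⟩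
      choose H hH using this
      refine ⟨H, fun _ a ha => ?_⟩
      rw [(hH a ha).2]
      exact ⟨(hH a ha).1, hq a ha⟩
    · exact ⟨0, fun h => absurd h hb⟩
  choose H hH using hex
  let A : Finset (ℕ × ℕ) := dgm (fun b => Module.finrank ℂ (U b)) n
  have hA : A ⊆ dgm r n := by
    intro p hp
    rw [mem_dgm] at hp ⊢
    exact ⟨hp.1, hp.2.trans_le (hdim _ hp.1)⟩
  let K : ℕ := ∑ b ∈ Finset.range n, Module.finrank ℂ (U b)
  have hK : ∀ p ∈ A, p.1 < K := by
    intro p hp
    rw [mem_dgm] at hp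
    refine hp.2.trans_le ?_
    exact Finset.single_le_sum (f := fun b => Module.finrank ℂ (U b)) (fun _ _ => Nat.zero_le _)
      (Finset.mem_range.2 hp.1)
  obtain ⟨x, y, hxy⟩ := core_points (A := A) (K := K)
    (fun p => taylor (C x0) (phi (cub ^ p.2 * H p.2 p.1)))
    (by
      intro p hp
      rw [mem_dgm] at hp
      obtain ⟨-, -, -, h4⟩ := hH p.2 hp.1 p.1 hp.2
      rw [coeff_key, if_pos le_rfl, Nat.sub_self, coeff_zero_key]
      exact h4)
    (by
      intro p hp i j hij hne
      have hp' := hp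
      rw [mem_dgm] at hp'
      obtain ⟨-, -, h3, h4⟩ := hH p.2 hp'.1 p.1 hp'.2
      rw [coeff_key] at hij
      by_cases hj : p.2 ≤ j
      · rw [if_pos hj] at hij
        rcases Nat.eq_or_lt_of_le hj with hj' | hj'
        · subst hj'
          rw [Nat.sub_self, coeff_zero_key] at hij
          have h5 : p.1 ≤ i := by
            by_contra hcon
            exact hij (h3 i (by omega))
          have h6 : p.1 ≠ i := by
            rintro rfl
            exact hne rfl
          omega
        · have h7 := hK p hp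
          have h8 : K * (p.2 + 1) ≤ K * j := Nat.mul_le_mul_left K hj'
          rw [mul_add, mul_one] at h8
          omega
      · rw [if_neg hj] at hij
        exact absurd rfl hij)
    (empP_mono hA hE)
  refine ⟨fun i => x0 + x i, fun i => (x0 + x i) ^ 3 + 1 * y i, ?_⟩
  -- the polynomials span `W`
  have hspan : ∀ k, k ≤ n → ∀ F, cub ^ (n - k) * F ∈ W → cub ^ (n - k) * F ∈
      Submodule.span ℂ ((fun p : ℕ × ℕ => cub ^ p.2 * H p.2 p.1) '' (A : Set (ℕ × ℕ))) := by
    intro k
    induction k with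
    | zero =>
      intro _ F hF
      rw [Nat.sub_zero] at hF ⊢
      rw [h0 F hF, mul_zero]
      exact Submodule.zero_mem _
    | succ k ih =>
      intro hk F hF
      obtain ⟨b, hb⟩ : ∃ b, b = n - (k + 1) := ⟨_, rfl⟩
      have hb1 : n - k = b + 1 := by omega
      have hbn : b < n := by omega
      rw [← hb] at hF ⊢
      rw [hb1] at ih
      have hu : res F ∈ U b := (hU b hbn _).2 ⟨F, hF, rfl⟩
      obtain ⟨c, hc⟩ := span_orders (x0 := x0) (q := fun a => res (H b a))
        (fun a ha => (hH b hbn a ha).2) hu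
      have hres : res (F - ∑ i, c i • H b i) = 0 := by
        rw [map_sub, map_sum, ← hc, sub_eq_zero]
        refine Finset.sum_congr rfl fun i _ => ?_
        rw [map_smul]
      obtain ⟨G, hG⟩ := cub_dvd hres
      have hsum : ∀ S : Submodule ℂ ℂ[X][X],
          (∀ i : Fin (Module.finrank ℂ (U b)), cub ^ b * H b i ∈ S) →
          cub ^ b * ∑ i, c i • H b i ∈ S := by
        intro S hS
        rw [Finset.mul_sum]
        refine Submodule.sum_mem _ fun i _ => ?_
        rw [mul_smul_comm]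
        exact Submodule.smul_mem _ _ (hS i)
      have hdec : cub ^ b * F = cub ^ (b + 1) * G + cub ^ b * ∑ i, c i • H b i := by
        rw [pow_succ, mul_assoc, ← hG]
        ring
      have hGW : cub ^ (b + 1) * G ∈ W := by
        have : cub ^ (b + 1) * G = cub ^ b * F - cub ^ b * ∑ i, c i • H b i := by
          rw [hdec]; ring
        rw [this]
        exact Submodule.sub_mem _ hF (hsum W fun i => (hH b hbn i i.2).1)
      rw [hdec]
      refine Submodule.add_mem _ (ih (by omega) G hGW) (hsum _ fun i => ?_)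
      exact Submodule.subset_span ⟨((i : ℕ), b), mem_dgm.2 ⟨hbn, i.2⟩, rfl⟩
  intro F hF hcond
  have h1 := hspan n le_rfl F (by simpa using hF)
  rw [Nat.sub_self, pow_zero, one_mul, Submodule.mem_span_image_finset_iff_exists_fun'] at h1
  obtain ⟨c, hc⟩ := h1
  have h2 : taylor (C x0) (phi F) =
      ∑ p ∈ A, C (C (c p)) * taylor (C x0) (phi (cub ^ p.2 * H p.2 p.1)) := by
    rw [← hc, map_sum, map_sum]
    refine Finset.sum_congr rfl fun p _ => ?_
    rw [csmul, map_mul phi, taylor_mul]
    congr 1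
    rw [phi, phiS_C_C, taylor_C]
  have h3 := hxy c (by
    intro i hi
    rw [← h2]
    exact cond_taylor (cond_phiS (hcond i hi)))
  rw [← hc]
  refine Finset.sum_eq_zero fun p hp => ?_
  rw [h3 p hp, zero_smul]

end Pool.Agent.Lib.MP_6b2d39_agNw
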