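import Pool.Agent.Lib.MP_6b2d39_agNw.Defs

open Polynomial

set_option autoImplicit false

namespace Pool.Agent.Lib.MP_6b2d39_agNw

open Pool.Agent.Lib.MP_6b2d39_ag Pool.Agent.Lib.MP_6b2d39_ag.Rel
  Pool.Agent.Lib.MP_6b2d39_agWin Pool.Agent.Lib.MP_6b2d39_agArr

/-- the heavy points `S`; `i1`, `i2` are the two heaviest -/
structure Heavy {ι : Type} (d : ℕ) (S : Finset ι) (m : ι → ℕ) (i1 i2 : ι) : Prop where
  h1 : i1 ∈ S
  h2 : i2 ∈ S
  ne : i1 ≠ i2
  le : m i2 ≤ m i1
  max : ∀ i ∈ S, i ≠ i1 → m i ≤ m i2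
  red : ∀ i ∈ S, ∀ j ∈ S, ∀ l ∈ S, i ≠ j → i ≠ l → j ≠ l → m i + m j + m l ≤ d
  three : 3 ≤ S.card
  nine : S.card ≤ 9
  deg : ∑ i ∈ S, m i + 1 ≤ 3 * d

variable {ι : Type} [DecidableEq ι] {d : ℕ} {S : Finset ι} {m : ι → ℕ} {i1 i2 : ι}

theorem Heavy.pair (h : Heavy d S m i1 i2) : m i1 + m i2 ≤ d := by
  have h3 : 0 < ((S.erase i1).erase i2).card := by
    rw [Finset.card_erase_of_mem (Finset.mem_erase.2 ⟨h.ne.symm, h.h2⟩),
      Finset.card_erase_of_mem h.h1]
    have := h.three
    omega
  obtain ⟨l, hl⟩ := Finset.card_pos.1 h3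
  rw [Finset.mem_erase, Finset.mem_erase] at hl
  have h4 := h.red i1 h.h1 i2 h.h2 l hl.2.2 h.ne (Ne.symm hl.2.1) (Ne.symm hl.1)
  omega

/-- a third point which has not vanished -/
theorem Heavy.triple (h : Heavy d S m i1 i2) {b : ℕ} {i : ι} (hi : i ∈ S) (h1 : i ≠ i1)
    (h2 : i ≠ i2) (hb : b < m i) :
    b < m i2 ∧ b < m i1 ∧ 3 * b + ((m i1 - b) + (m i2 - b) + (m i - b)) ≤ d := by
  have h3 := h.red i1 h.h1 i2 h.h2 i hi h.ne (Ne.symm h1) (Ne.symm h2)
  have h4 := h.max i hi h1
  have h5 := h.le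
  refine ⟨by omega, by omega, by omega⟩

/-- R11. if the line through the two heaviest points splits off, all others have vanished -/
theorem Heavy.others (h : Heavy d S m i1 i2) {b : ℕ} (hb : d - 3 * b < (m i1 - b) + (m i2 - b))
    (hd : 3 * b ≤ d) : ∀ i ∈ S, i ≠ i1 → i ≠ i2 → m i - b = 0 := by
  intro i hi h1 h2
  by_contra h0
  obtain ⟨-, -, h3⟩ := h.triple hi h1 h2 (b := b) (by omega)
  omega

theorem Heavy.sum_split (h : Heavy d S m i1 i2) (f : ι → ℕ) :
    ∑ i ∈ S, f i = f i1 + f i2 + ∑ i ∈ (S.erase i1).erase i2, f i := by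
  rw [← Finset.add_sum_erase S f h.h1,
    ← Finset.add_sum_erase (S.erase i1) f (Finset.mem_erase.2 ⟨h.ne.symm, h.h2⟩), add_assoc]

/-- R12. positivity of the anticanonical degree of `D - b C` -/
theorem Heavy.pos (h : Heavy d S m i1 i2) {b : ℕ} (hb : 3 * b + (m i1 - b) < d) :
    ∑ i ∈ S, (m i - b) + ((m i1 - b) + (m i2 - b) - (d - 3 * b)) + 1 ≤ 3 * (d - 3 * b) := by
  have hs := h.sum_split (fun i => m i - b)
  have hle := h.le
  by_cases hδ : d - 3 * b < (m i1 - b) + (m i2 - b)
  · have h0 : ∑ i ∈ (S.erase i1).erase i2, (m i - b) = 0 := by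
      refine Finset.sum_eq_zero fun i hi => ?_
      rw [Finset.mem_erase, Finset.mem_erase] at hi
      exact h.others hδ (by omega) i hi.2.2 hi.2.1 hi.1
    rw [hs, h0]
    omega
  · have hcard : ((S.erase i1).erase i2).card = S.card - 2 := by
      rw [Finset.card_erase_of_mem (Finset.mem_erase.2 ⟨h.ne.symm, h.h2⟩),
        Finset.card_erase_of_mem h.h1]
      omega
    have hx : ∀ i ∈ (S.erase i1).erase i2,
        m i - b ≤ min (m i2 - b) ((d - 3 * b) - ((m i1 - b) + (m i2 - b))) := by
      intro i hi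
      rw [Finset.mem_erase, Finset.mem_erase] at hi
      have h3 := h.max i hi.2.2 hi.2.1
      by_cases h4 : b < m i
      · obtain ⟨h5, h6, h7⟩ := h.triple hi.2.2 hi.2.1 hi.1 h4
        omega
      · omega
    have key : ∑ i ∈ S, (m i - b) + 9 * b = ∑ i ∈ S, m i ∨
        ∑ i ∈ (S.erase i1).erase i2, (m i - b) ≤
          6 * min (m i2 - b) ((d - 3 * b) - ((m i1 - b) + (m i2 - b))) := by
      have hnine := h.nine
      by_cases h8 : S.card ≤ 8
      · right
        refine (Finset.sum_le_card_nsmul _ _ _ hx).trans ?_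
        rw [smul_eq_mul]
        exact Nat.mul_le_mul_right _ (by omega)
      · have h9 : S.card = 9 := by omega
        by_cases hall : ∀ i ∈ S, b ≤ m i
        · left
          have h10 : ∑ i ∈ S, m i = ∑ i ∈ S, ((m i - b) + b) :=
            Finset.sum_congr rfl fun i hi => by
              have := hall i hi
              omega
          rw [h10, Finset.sum_add_distrib, Finset.sum_const, h9, smul_eq_mul]
        · right
          push Not at hall
          obtain ⟨j, hj, hjb⟩ := hall
          by_cases hj2 : m i2 ≤ b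
          · have h10 : ∑ i ∈ (S.erase i1).erase i2, (m i - b) = 0 := by
              refine Finset.sum_eq_zero fun i hi => ?_
              have := hx i hi
              omega
            rw [h10]
            exact Nat.zero_le _
          · have hj1 : j ≠ i1 := by
              rintro rfl
              omega
            have hj3 : j ≠ i2 := by
              rintro rfl
              omega
            have hjR : j ∈ (S.erase i1).erase i2 :=
              Finset.mem_erase.2 ⟨hj3, Finset.mem_erase.2 ⟨hj1, hj⟩⟩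
            rw [← Finset.add_sum_erase _ _ hjR]
            have h10 : m j - b = 0 := by omega
            rw [h10, zero_add]
            refine (Finset.sum_le_card_nsmul _ _ _ fun i hi =>
              hx i (Finset.mem_of_mem_erase hi)).trans ?_
            rw [smul_eq_mul, Finset.card_erase_of_mem hjR, hcard, h9]
    have hdeg := h.deg
    rcases key with h10 | h10
    · omega
    · rw [hs]
      omega

theorem Heavy.exists_H (h : Heavy d S m i1 i2) :
    ∃ H, ∀ b, b < H ↔ 3 * b + (m i1 - b) ≤ d := by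
  have hex : ∃ b, d < 3 * b + (m i1 - b) := ⟨d + 1, by omega⟩
  refine ⟨Nat.find hex, fun b => ⟨fun hb => ?_, fun hb => ?_⟩⟩
  · have := Nat.find_min hex hb
    omega
  · by_contra hn
    have h1 := Nat.find_spec hex
    omega

end Pool.Agent.Lib.MP_6b2d39_agNw
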