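import Pool.Agent.Lib.MP_6b2d39_agNw.TwoRow
import Pool.Agent.Lib.MP_6b2d39_agNw.Heavy
import Pool.Agent.Lib.MP_6b2d39_agNw.Diagram

open Polynomial

set_option autoImplicit false

namespace Pool.Agent.Lib.MP_6b2d39_agNw

open Pool.Agent.Lib.MP_6b2d39_ag Pool.Agent.Lib.MP_6b2d39_ag.Rel
  Pool.Agent.Lib.MP_6b2d39_agWin Pool.Agent.Lib.MP_6b2d39_agArr

variable {ι : Type} [DecidableEq ι] {d : ℕ} {S : Finset ι} {m : ι → ℕ} {i1 i2 : ι}

/-- R16. the row bound -/
theorem Heavy.row_dim (h : Heavy d S m i1 i2) {t : ι → ℂ} (ht : Set.InjOn t (S : Set ι)) {b : ℕ}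
    (hb : 3 * b + (m i1 - b) ≤ d) :
    Module.finrank ℂ ((sys (d - 3 * b) S (fun i => m i - b) t).map res.toLinearMap) ≤
      rr d S m i1 i2 b := by
  have hle := h.le
  have hmax := h.max
  unfold rr
  rw [if_neg (by omega)]
  by_cases heq : d = 3 * b + (m i1 - b)
  · rw [if_pos heq]
    refine pencil_row (k := fun i => m i - b) ht h.h1 h.h2 h.ne (fun i hi hi1 hi2 => ?_)
      (by omega) (by omega)
    by_cases hk : m i2 - b = 0
    · have := hmax i hi hi1
      omega
    · exact h.others (b := b) (by omega) (by omega) i hi hi1 hi2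
  · rw [if_neg heq]
    by_cases hlt : d - 3 * b < (m i1 - b) + (m i2 - b)
    · have hoth := h.others (b := b) hlt (by omega)
      have h3 := two_row (e := d - 3 * b) (k := fun i => m i - b) ht h.h1 h.h2 h.ne hoth
        (by omega) (by omega)
      have hs : ∑ i ∈ S, (m i - b) = (m i1 - b) + (m i2 - b) := by
        rw [← Finset.add_sum_erase S (fun i => m i - b) h.h1,
          ← Finset.add_sum_erase (S.erase i1) (fun i => m i - b)
            (Finset.mem_erase.2 ⟨h.ne.symm, h.h2⟩), Finset.sum_eq_zero, add_zero]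
        intro i hi
        rw [Finset.mem_erase, Finset.mem_erase] at hi
        exact hoth i hi.2.2 hi.2.1 hi.1
      rw [hs]
      exact h3
    · have hpos := h.pos (b := b) (by omega)
      have h3 := res_row (e := d - 3 * b) (S := S) (k := fun i => m i - b) ht (by omega)
      omega

/-- R17. from the diagram lemma: light points kill the system -/
theorem Heavy.kill {κ : Type} [Fintype κ] [DecidableEq κ] (h : Heavy d S m i1 i2) {t : ι → ℂ}
    (ht : Set.InjOn t (S : Set ι)) {H : ℕ} (hH : ∀ b, b < H ↔ 3 * b + (m i1 - b) ≤ d)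
    {n : κ → ℕ} {J : Finset κ} (hE : EmpP (dgm (rr d S m i1 i2) H) n J) :
    ∃ x y : κ → ℂ, ∀ F ∈ sys d S m t,
      (∀ i ∈ J, Cond (Finset.Icc 1 (n i)) (x i) (y i) F) → F = 0 := by
  refine diagram_cusp (W := sys d S m t) (n := H) (r := rr d S m i1 i2)
    (fun b => (sys (d - 3 * b) S (fun i => m i - b) t).map res.toLinearMap) ?_ ?_ ?_ hE
  · intro b _ G hG
    rcases sys_quot hG with h0 | ⟨_, h1⟩
    · rw [h0, map_zero]
      exact Submodule.zero_mem _
    · exact Submodule.mem_map_of_mem (f := res.toLinearMap) h1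
  · intro b hb
    exact h.row_dim ht ((hH b).1 hb)
  · intro G hG
    rcases sys_quot hG with h0 | ⟨h1, h2⟩
    · exact h0
    · have h3 : ¬ (3 * H + (m i1 - H) ≤ d) := fun hc => lt_irrefl _ ((hH H).2 hc)
      have h4 : d - 3 * H < m i1 - H := by omega
      rw [sys_top (k := fun i => m i - H) h.h1 h4] at h2
      exact (Submodule.mem_bot ℂ).1 h2

end Pool.Agent.Lib.MP_6b2d39_agNw
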