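import Pool.Agent.Lib.MP_6b2d39_agNw.Config
import Pool.Agent.Lib.MP_6b2d39_agNw.RowAll
import Pool.Agent.Lib.MP_6b2d39_agNw.HSum
import Pool.Agent.Lib.MP_6b2d39_agNw.HYoung
import Pool.Agent.Lib.MP_6b2d39_agNw.Fill
import Pool.Agent.Lib.MP_6b2d39_agCr.Lower

open Polynomial

set_option autoImplicit false

namespace Pool.Agent.Lib.MP_6b2d39_agNw

open Pool.Agent.Lib.MP_6b2d39_ag Pool.Agent.Lib.MP_6b2d39_ag.Rel
  Pool.Agent.Lib.MP_6b2d39_agWin Pool.Agent.Lib.MP_6b2d39_agArr Pool.Agent.Lib.MP_6b2d39_agCr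

private theorem exists_config_of {h d u : ℕ} {m : Fin h → ℕ} {S : Finset (Fin h)} {i1 i2 : Fin h}
    (hH : Heavy d S m i1 i2) {H : ℕ} (hHH : ∀ b, b < H ↔ 3 * b + (m i1 - b) ≤ d)
    (hE : EmpP (dgm (rr d S m i1 i2) H) (Sum.elim m (fun _ => 1) : Fin h ⊕ Fin u → ℕ)
      (Finset.univ.filter (fun i : Fin h ⊕ Fin u => ∀ l ∈ S, i ≠ Sum.inl l))) :
    ∃ P₀ : Fin h → Fin 3 → ℂ, Module.finrank ℂ (curves d m P₀) ≤ u := by
  have ht : Set.InjOn (fun i : Fin h => ((i : ℕ) : ℂ)) (S : Set (Fin h)) := by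
    intro i _ j _ hij
    exact Fin.ext (Nat.cast_injective (R := ℂ) hij)
  obtain ⟨x, y, hxy⟩ := hH.kill ht hHH hE
  exact exists_configS S _ x y hxy

private theorem sum_split {h : ℕ} (S : Finset (Fin h)) (f : Fin h → ℕ) :
    ∑ l, f l = ∑ l ∈ S, f l + ∑ l ∈ Finset.univ.filter (fun l => l ∉ S), f l := by
  rw [← Finset.sum_filter_add_sum_filter_not Finset.univ (fun l => l ∈ S) f]
  congr 1
  apply Finset.sum_congr _ (fun _ _ => rfl)
  ext l
  simp

private theorem vd_eq {h d : ℕ} {m : Fin h → ℕ} {S : Finset (Fin h)} {R : ℕ}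
    (hR : R + ∑ i ∈ S, (m i + 1).choose 2 = (d + 2).choose 2) :
    vd d m = (R : ℤ) -
      ((∑ l ∈ Finset.univ.filter (fun l => l ∉ S), (m l + 1).choose 2 : ℕ) : ℤ) := by
  have h2 := sum_split S (fun l => (m l + 1).choose 2)
  unfold vd
  have h3 : (∑ i, ((m i + 1).choose 2 : ℤ)) = ((∑ l, (m l + 1).choose 2 : ℕ) : ℤ) := by
    push_cast
    rfl
  rw [h3, h2, ← hR]
  push_cast
  ring

private theorem all_eq {h u : ℕ} (S : Finset (Fin h)) :
    ((Finset.univ.filter (fun l : Fin h => l ∉ S)).map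
      Function.Embedding.inl) ∪ (Finset.univ : Finset (Fin u)).map Function.Embedding.inr =
      (Finset.univ.filter (fun i : Fin h ⊕ Fin u => ∀ l ∈ S, i ≠ Sum.inl l)) := by
  ext i
  rw [Finset.mem_union, Finset.mem_map, Finset.mem_map, Finset.mem_filter]
  constructor
  · rintro (⟨l, hl, rfl⟩ | ⟨l, -, rfl⟩)
    · refine ⟨Finset.mem_univ _, fun l' hl' heq => ?_⟩
      rw [Finset.mem_filter] at hl
      apply hl.2
      rw [Sum.inl_injective heq]
      exact hl'
    · refine ⟨Finset.mem_univ _, fun l' _ heq => ?_⟩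
      simp at heq
  · rintro ⟨-, hi⟩
    rcases i with l | l
    · left
      refine ⟨l, ?_, rfl⟩
      rw [Finset.mem_filter]
      exact ⟨Finset.mem_univ _, fun hl => hi l hl rfl⟩
    · right
      exact ⟨l, Finset.mem_univ _, rfl⟩

/-- R19. (as `window_heavy` in `Window.lean`) -/
theorem window_S {h d μ : ℕ} {m : Fin h → ℕ} {S : Finset (Fin h)} {i1 i2 : Fin h}
    (hH : Heavy d S m i1 i2) (hμ : 1 ≤ μ) (hS : ∀ i ∈ S, μ ≤ m i)
    (hc : S.card = 8 ∨ S.card = 9 ∧ ∑ i ∈ S, m i + μ ≤ 3 * d) (hlight : ∀ i ∉ S, m i ≤ μ)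
    (hv : vd d m ≤ -(3 * (μ : ℤ) ^ 2) ∨ 6 * (μ : ℤ) ^ 2 ≤ vd d m) :
    General (fun P => (Module.finrank ℂ (curves d m P) : ℤ) = max (vd d m) 0) := by
  obtain ⟨H, hHH⟩ := hH.exists_H
  obtain ⟨T, hY⟩ := hH.young hμ hS hc hHH
  have hsum := hH.sum_rr hHH
  have hvd := vd_eq hsum
  set R := ∑ b ∈ Finset.range H, rr d S m i1 i2 b with hR
  set M := ∑ l ∈ Finset.univ.filter (fun l => l ∉ S), (m l + 1).choose 2 with hM
  have hJ0 : ∀ (u : ℕ) (j : Fin h ⊕ Fin u),
      j ∈ (Finset.univ.filter (fun l : Fin h => l ∉ S)).map Function.Embedding.inl →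
      (Sum.elim m (fun _ => 1) : Fin h ⊕ Fin u → ℕ) j ≤ μ := by
    intro u j hj
    rw [Finset.mem_map] at hj
    obtain ⟨l, hl, rfl⟩ := hj
    rw [Finset.mem_filter] at hl
    simp only [Function.Embedding.inl_apply, Sum.elim_inl]
    exact hlight l hl.2
  have hmassJ : ∀ u : ℕ, mass (Sum.elim m (fun _ => 1) : Fin h ⊕ Fin u → ℕ)
      ((Finset.univ.filter (fun l : Fin h => l ∉ S)).map Function.Embedding.inl) = M := by
    intro u
    unfold mass
    rw [Finset.sum_map]
    rfl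
  rcases hv with hneg | hpos
  · have hE := young_neg (ι := Fin h ⊕ Fin 0) (m := Sum.elim m (fun _ => 1)) hY (hJ0 0) (by
        rw [hmassJ 0, ← hR]
        have : ((R + 3 * μ ^ 2 : ℕ) : ℤ) ≤ (M : ℤ) := by
          push_cast
          linarith
        exact_mod_cast this)
    have h1 := all_eq (u := 0) S
    rw [Finset.univ_eq_empty (α := Fin 0), Finset.map_empty, Finset.union_empty] at h1
    rw [h1] at hE
    obtain ⟨P₀, hP₀⟩ := exists_config_of hH hHH hE
    apply general_nonspecial_of_le P₀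
    apply le_max_of_le_right
    exact_mod_cast hP₀
  · have hMR : M ≤ R := by
      have : (M : ℤ) ≤ R := by
        nlinarith [sq_nonneg (μ : ℤ)]
      exact_mod_cast this
    have hE := young_pos (ι := Fin h ⊕ Fin (R - M)) (m := Sum.elim m (fun _ => 1))
      (U := (Finset.univ : Finset (Fin (R - M))).map Function.Embedding.inr)
      (J := (Finset.univ.filter (fun l : Fin h => l ∉ S)).map Function.Embedding.inl) hY (by
        rw [Finset.disjoint_left]
        intro i hi hi'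
        rw [Finset.mem_map] at hi hi'
        obtain ⟨a, -, rfl⟩ := hi
        obtain ⟨b, -, hb⟩ := hi'
        simp at hb) (hJ0 (R - M)) (by
        intro j hj
        rw [Finset.mem_map] at hj
        obtain ⟨b, -, rfl⟩ := hj
        rfl) (by
        rw [hmassJ, ← hR]
        have : ((M + 6 * μ ^ 2 : ℕ) : ℤ) ≤ (R : ℤ) := by
          push_cast
          linarith
        exact_mod_cast this) (by
        rw [hmassJ, ← hR, Finset.card_map, Finset.card_univ, Fintype.card_fin]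
        omega)
    rw [all_eq] at hE
    obtain ⟨P₀, hP₀⟩ := exists_config_of hH hHH hE
    apply general_nonspecial_of_le P₀
    apply le_max_of_le_left
    rw [hvd]
    have : (Module.finrank ℂ (curves d m P₀) : ℤ) ≤ ((R - M : ℕ) : ℤ) := by
      exact_mod_cast hP₀
    rw [Nat.cast_sub hMR] at this
    exact this

/-- R20. no light points (`empP_simple` with `vd d m` simple points) -/
theorem base_S {h d : ℕ} {m : Fin h → ℕ} {S : Finset (Fin h)} {i1 i2 : Fin h}
    (hH : Heavy d S m i1 i2) (h0 : ∀ i ∉ S, m i = 0) :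
    General (fun P => (Module.finrank ℂ (curves d m P) : ℤ) = max (vd d m) 0) := by
  obtain ⟨H, hHH⟩ := hH.exists_H
  have hsum := hH.sum_rr hHH
  have hvd := vd_eq hsum
  set R := ∑ b ∈ Finset.range H, rr d S m i1 i2 b with hR
  have hM : ∑ l ∈ Finset.univ.filter (fun l => l ∉ S), (m l + 1).choose 2 = 0 := by
    apply Finset.sum_eq_zero
    intro l hl
    rw [Finset.mem_filter] at hl
    rw [h0 l hl.2]
    rfl
  rw [hM] at hvd
  have hE : EmpP (dgm (rr d S m i1 i2) H) (Sum.elim m (fun _ => 1) : Fin h ⊕ Fin R → ℕ)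
      ((Finset.univ : Finset (Fin R)).map Function.Embedding.inr) := by
    apply empP_simple
    · intro j hj
      rw [Finset.mem_map] at hj
      obtain ⟨b, -, rfl⟩ := hj
      rfl
    · rw [card_dgm, Finset.card_map, Finset.card_univ, Fintype.card_fin]
  obtain ⟨x, y, hx, hy, hE⟩ := hE
  obtain ⟨P₀, hP₀⟩ := exists_config_of (u := R) hH hHH ⟨x, y, hx, hy, fun f hf hc => hE f hf (by
    intro i hi
    apply hc
    rw [← all_eq]
    exact Finset.mem_union_right _ hi)⟩
  apply general_nonspecial_of_le P₀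
  apply le_max_of_le_left
  rw [hvd]
  have : (Module.finrank ℂ (curves d m P₀) : ℤ) ≤ (R : ℤ) := by
    exact_mod_cast hP₀
  simpa using this

end Pool.Agent.Lib.MP_6b2d39_agNw
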