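import Pool.Agent.Lib.MP_6b2d39_agNw.Quot

open Polynomial

set_option autoImplicit false

namespace Pool.Agent.Lib.MP_6b2d39_agNw

open Pool.Agent.Lib.MP_6b2d39_ag Pool.Agent.Lib.MP_6b2d39_ag.Rel
  Pool.Agent.Lib.MP_6b2d39_agWin Pool.Agent.Lib.MP_6b2d39_agArr

private theorem resr_term (c : ℂ) (a b : ℕ) :
    res (C (C c * X ^ b) * X ^ a) = C c * X ^ (a + 3 * b) := by
  rw [map_mul res, C_mul, map_mul res, res_C_C, C_pow, map_pow res, map_pow res, res_C_X, res_X,
    ← pow_mul, mul_assoc, ← pow_add, add_comm a]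

private theorem resr_coeff {e : ℕ} {F : ℂ[X][X]} (h : InV (e + 1) F) {n : ℕ}
    (hn : ∀ a b, a + b ≤ e → a + 3 * b ≠ n) : (res F).coeff n = 0 := by
  have h1 : res F = ∑ a ∈ F.support, ∑ b ∈ (F.coeff a).support,
      C ((F.coeff a).coeff b) * X ^ (a + 3 * b) := by
    conv_lhs => rw [F.as_sum_support_C_mul_X_pow]
    rw [map_sum res]
    refine Finset.sum_congr rfl fun a _ => ?_
    conv_lhs => rw [(F.coeff a).as_sum_support_C_mul_X_pow]
    rw [map_sum (C : ℂ[X] →+* ℂ[X][X]), Finset.sum_mul, map_sum res]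
    exact Finset.sum_congr rfl fun b _ => resr_term _ _ _
  rw [h1, finsetSum_coeff]
  refine Finset.sum_eq_zero fun a _ => ?_
  rw [finsetSum_coeff]
  refine Finset.sum_eq_zero fun b hb => ?_
  rw [coeff_C_mul, coeff_X_pow, if_neg, mul_zero]
  intro h2
  refine hn a b ?_ h2.symm
  by_contra h3
  exact mem_support_iff.1 hb (h a b (by omega))

/-- R7. Restrictions of degree `e` polynomials to the cubic: degree `≤ 3 e`, coefficient of
`x ^ (3 e - 1)` zero, zeros of order `k i` at `t i`. -/
theorem res_natDegree {e : ℕ} {F : ℂ[X][X]} (h : InV (e + 1) F) : (res F).natDegree ≤ 3 * e := by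
  rw [natDegree_le_iff_coeff_eq_zero]
  intro n hn
  exact resr_coeff h fun a b hab => by omega

theorem res_coeff {e : ℕ} (he : 1 ≤ e) {F : ℂ[X][X]} (h : InV (e + 1) F) :
    (res F).coeff (3 * e - 1) = 0 :=
  resr_coeff h fun a b hab => by omega

theorem res_dvd {k : ℕ} {t : ℂ} {F : ℂ[X][X]} (h : Cond (Finset.Icc 1 k) t (t ^ 3) F) :
    (X - C t) ^ k ∣ res F := by
  rw [cond_iff] at h
  have h1 := mem_pow_of_map (res : ℂ[X][X] →+* ℂ[X]) _ (Ideal.span {X - C t}) (fun g hg => ?_) h
  · rw [Ideal.span_singleton_pow, Ideal.mem_span_singleton] at h1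
    exact h1
  · obtain ⟨u, v, rfl⟩ := Ideal.mem_span_pair.1 hg
    change res (u * (X - C (C t)) + v * C (X - C (t ^ 3))) ∈ _
    rw [map_add res, map_mul res, map_mul res]
    apply Ideal.add_mem
    · apply Ideal.mul_mem_left
      rw [map_sub res, res_X, res_C_C]
      exact Ideal.subset_span (Set.mem_singleton _)
    · apply Ideal.mul_mem_left
      rw [C_sub, map_sub res, res_C_X, res_C_C, C_pow, Ideal.mem_span_singleton]
      exact sub_dvd_pow_sub_pow _ _ 3

/-- row bound -/
theorem res_row {ι : Type} {e : ℕ} {S : Finset ι} {k : ι → ℕ} {t : ι → ℂ}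
    (ht : Set.InjOn t (S : Set ι)) (h : ∑ i ∈ S, k i + 1 ≤ 3 * e) :
    Module.finrank ℂ ((sys e S k t).map res.toLinearMap) ≤ 3 * e - ∑ i ∈ S, k i := by
  classical
  obtain ⟨B, hB⟩ : ∃ B : ℂ[X], B = ∏ i ∈ S, (X - C (t i)) ^ k i := ⟨_, rfl⟩
  have hBm : B.Monic := by
    rw [hB]
    exact monic_prod_of_monic _ _ fun i _ => (monic_X_sub_C _).pow _
  have hBd : B.natDegree = ∑ i ∈ S, k i := by
    rw [hB, natDegree_prod_of_monic _ _ fun i _ => (monic_X_sub_C _).pow _]
    refine Finset.sum_congr rfl fun i _ => ?_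
    rw [(monic_X_sub_C (t i)).natDegree_pow, natDegree_X_sub_C, mul_one]
  obtain ⟨s, hs⟩ : ∃ s, s = ∑ i ∈ S, k i := ⟨_, rfl⟩
  rw [← hs] at hBd h ⊢
  obtain ⟨N, hN⟩ : ∃ N, 3 * e = s + N + 1 := ⟨3 * e - s - 1, by omega⟩
  obtain ⟨b, hb⟩ : ∃ b, b = (B * X ^ (N + 1)).coeff (s + N) := ⟨_, rfl⟩
  obtain ⟨g, hg⟩ : ∃ g : Fin (N + 1) → ℂ[X], ∀ j, g j =
      B * (if (j : ℕ) = N then X ^ (N + 1) - C b * X ^ N else X ^ (j : ℕ)) := ⟨_, fun _ => rfl⟩
  have hle : (sys e S k t).map res.toLinearMap ≤ Submodule.span ℂ (Set.range g) := by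
    rintro q ⟨F, hF, rfl⟩
    change res F ∈ _
    have he : 1 ≤ e := by omega
    have h1 := res_natDegree hF.1
    have h2 := res_coeff he hF.1
    have h3 : B ∣ res F := by
      rw [hB]
      refine Finset.prod_dvd_of_coprime ?_ fun i hi => res_dvd (hF.2 i hi)
      intro i hi j hj hij
      refine IsCoprime.pow (isCoprime_X_sub_C_of_isUnit_sub ?_)
      exact (sub_ne_zero.2 fun h0 => hij (ht hi hj h0)).isUnit
    obtain ⟨p, hp⟩ := h3
    rw [hp] at h1 h2 ⊢
    have hpd : p.natDegree < N + 1 + 1 := by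
      by_cases hp0 : p = 0
      · rw [hp0, natDegree_zero]
        omega
      · rw [hBm.natDegree_mul' hp0, hBd] at h1
        omega
    have hpe := p.as_sum_range' (N + 1 + 1) hpd
    rw [Finset.sum_range_succ, Finset.sum_range_succ] at hpe
    have h4 : (B * p).coeff (s + N) = p.coeff N + b * p.coeff (N + 1) := by
      calc (B * p).coeff (s + N) = (B * (∑ j ∈ Finset.range N, monomial j (p.coeff j) +
            monomial N (p.coeff N) + monomial (N + 1) (p.coeff (N + 1)))).coeff (s + N) := by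
            rw [← hpe]
        _ = p.coeff N + b * p.coeff (N + 1) := by
            have h5 : (B * ∑ j ∈ Finset.range N, monomial j (p.coeff j)).coeff (s + N) = 0 := by
              rw [Finset.mul_sum, finsetSum_coeff]
              refine Finset.sum_eq_zero fun j hj => ?_
              refine coeff_eq_zero_of_natDegree_lt ?_
              refine natDegree_mul_le.trans_lt ?_
              have h6 := natDegree_monomial_le (p.coeff j) (m := j)
              rw [Finset.mem_range] at hj
              omega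
            have h6 : (B * monomial N (p.coeff N)).coeff (s + N) = p.coeff N := by
              rw [coeff_mul_monomial, ← hBd, coeff_natDegree, hBm.leadingCoeff, one_mul]
            have h7 : (B * monomial (N + 1) (p.coeff (N + 1))).coeff (s + N) =
                b * p.coeff (N + 1) := by
              rw [← C_mul_X_pow_eq_monomial, mul_comm (C _) (X ^ (N + 1)), ← mul_assoc,
                coeff_mul_C, hb]
            rw [mul_add, mul_add, coeff_add, coeff_add, h5, h6, h7, zero_add]
    have h5 : p.coeff N = -(b * p.coeff (N + 1)) := by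
      have h6 : 3 * e - 1 = s + N := by omega
      rw [h6, h4] at h2
      exact eq_neg_of_add_eq_zero_left h2
    have h6 : B * p = ∑ j ∈ Finset.range N, p.coeff j • (B * X ^ j) +
        p.coeff (N + 1) • (B * (X ^ (N + 1) - C b * X ^ N)) := by
      conv_lhs => rw [hpe]
      rw [mul_add, mul_add, Finset.mul_sum, h5, add_assoc]
      have h7 : ∀ j, B * monomial j (p.coeff j) = p.coeff j • (B * X ^ j) := by
        intro j
        rw [← C_mul_X_pow_eq_monomial, smul_eq_C_mul]
        ring
      rw [Finset.sum_congr rfl fun j _ => h7 j]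
      congr 1
      rw [← C_mul_X_pow_eq_monomial, ← C_mul_X_pow_eq_monomial, smul_eq_C_mul, C_neg, C_mul]
      ring
    rw [h6]
    refine Submodule.add_mem _ (Submodule.sum_mem _ fun j hj => Submodule.smul_mem _ _ ?_)
      (Submodule.smul_mem _ _ ?_)
    · rw [Finset.mem_range] at hj
      refine Submodule.subset_span ⟨⟨j, by omega⟩, ?_⟩
      rw [hg, if_neg (by simp only; omega)]
    · refine Submodule.subset_span ⟨⟨N, by omega⟩, ?_⟩
      rw [hg, if_pos rfl]
  have hfin : Module.Finite ℂ (Submodule.span ℂ (Set.range g)) :=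
    Module.Finite.span_of_finite ℂ (Set.finite_range g)
  refine (Submodule.finrank_mono hle).trans ?_
  refine (finrank_range_le_card g).trans ?_
  rw [Fintype.card_fin]
  omega

end Pool.Agent.Lib.MP_6b2d39_agNw
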