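import Pool.Agent.Lib.MP_6b2d39_agNw.Nine
import Pool.Agent.Lib.MP_6b2d39_agNw.ResRow

/-!
Reduced systems with at most nine positive multiplicities are nonspecial.
-/

open Polynomial

set_option autoImplicit false

namespace Pool.Agent.Lib.MP_6b2d39_agNw

open Pool.Agent.Lib.MP_6b2d39_ag Pool.Agent.Lib.MP_6b2d39_ag.Rel
  Pool.Agent.Lib.MP_6b2d39_agWin Pool.Agent.Lib.MP_6b2d39_agArr Pool.Agent.Lib.MP_6b2d39_agCr

/-- the substitution `y ↦ y + x ^ 3` -/
private noncomputable abbrev zphi : ℂ[X][X] →+* ℂ[X][X] := phiS (wS 3 1)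

private theorem zphi_res (H : ℂ[X][X]) : (zphi H).map (ev0 ℂ) = res H := by
  have h : (mapRingHom (ev0 ℂ)).comp zphi = (res : ℂ[X][X] →+* ℂ[X]) := by
    apply Polynomial.ringHom_ext'
    · apply Polynomial.ringHom_ext'
      · ext c
        simp [zphi, phiS_C_C, res]
      · simp only [RingHom.comp_apply, zphi, phiS_C_X]
        simp [wS, res]
    · simp only [RingHom.comp_apply, zphi, phiS_X]
      simp [res]
  exact RingHom.congr_fun h H

private theorem zphi_inv (F : ℂ[X][X]) : phiS cub (zphi F) = F := by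
  have h1 : (phiS cub).comp zphi = RingHom.id _ := by
    apply Polynomial.ringHom_ext'
    · apply Polynomial.ringHom_ext'
      · ext c
        simp [zphi, phiS_C_C]
      · simp only [RingHom.comp_apply, RingHom.id_apply, zphi, phiS_C_X]
        simp [wS, map_add, map_pow, phiS_X, phiS_C_X, cub]
    · simp only [RingHom.comp_apply, RingHom.id_apply, zphi, phiS_X]
  exact RingHom.congr_fun h1 F

private theorem zcub_dvd {F : ℂ[X][X]} (h : res F = 0) : ∃ G, F = cub * G := by
  rw [← zphi_res] at h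
  obtain ⟨g, hg⟩ := exists_eq_y_mul h
  refine ⟨phiS cub g, ?_⟩
  rw [← zphi_inv F, hg, map_mul, phiS_C_X]

/-- nine points of multiplicity `a` on the cubic, not on another cubic: no other curve of degree
`3 a` -/
private theorem z_res {ι : Type} {S : Finset ι} (hS : S.card = 9) {t : ι → ℂ}
    (ht : Set.InjOn t (S : Set ι)) (hsum : ∑ i ∈ S, t i ≠ 0) {a : ℕ} (ha : 1 ≤ a) {F : ℂ[X][X]}
    (hF : F ∈ sys (3 * a) S (fun _ => a) t) : res F = 0 := by
  classical
  obtain ⟨hF1, hF2⟩ := hF
  obtain ⟨B, hB⟩ : ∃ B : ℂ[X], B = ∏ i ∈ S, (X - C (t i)) ^ a := ⟨_, rfl⟩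
  have hBm : B.Monic := by
    rw [hB]
    exact monic_prod_of_monic _ _ fun i _ => (monic_X_sub_C _).pow _
  have hBd : B.natDegree = 9 * a := by
    rw [hB, natDegree_prod_of_monic _ _ fun i _ => (monic_X_sub_C _).pow _]
    simp [hS]
  have hdvd : B ∣ res F := by
    rw [hB]
    refine Finset.prod_dvd_of_coprime ?_ fun i hi => res_dvd (hF2 i hi)
    intro i hi j hj hij
    exact (isCoprime_X_sub_C_of_isUnit_sub (sub_ne_zero.2 (ht.ne hi hj hij)).isUnit).pow
  obtain ⟨q, hq⟩ := hdvd
  by_cases hq0 : q = 0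
  · rw [hq, hq0, mul_zero]
  have hdeg : (res F).natDegree ≤ 3 * (3 * a) := res_natDegree hF1
  have hqd : q.natDegree = 0 := by
    rw [hq, hBm.natDegree_mul' hq0, hBd] at hdeg
    omega
  obtain ⟨c, hc⟩ : ∃ c, q = C c := ⟨_, eq_C_of_natDegree_eq_zero hqd⟩
  have h1 : (res F).coeff (3 * (3 * a) - 1) = 0 := res_coeff (by omega) hF1
  have h2 : B.coeff (3 * (3 * a) - 1) = -(a * ∑ i ∈ S, t i) := by
    have h3 : 3 * (3 * a) - 1 = B.natDegree - 1 := by rw [hBd]; omega
    rw [h3, ← nextCoeff_of_natDegree_pos (by omega), hB,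
      Monic.nextCoeff_prod _ _ fun i _ => (monic_X_sub_C _).pow _, Finset.mul_sum,
      ← Finset.sum_neg_distrib]
    refine Finset.sum_congr rfl fun i _ => ?_
    rw [Monic.nextCoeff_pow (monic_X_sub_C _), nextCoeff_X_sub_C]
    simp
  rw [hq, hc, mul_comm, coeff_C_mul, h2] at h1
  have h4 : -((a : ℂ) * ∑ i ∈ S, t i) ≠ 0 :=
    neg_ne_zero.2 (mul_ne_zero (Nat.cast_ne_zero.2 (by omega)) hsum)
  rw [hq, hc, (mul_eq_zero.1 h1).resolve_right h4, C_0, mul_zero]

private theorem z_sys {ι : Type} {S : Finset ι} (hS : S.card = 9) {t : ι → ℂ}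
    (ht : Set.InjOn t (S : Set ι)) (hsum : ∑ i ∈ S, t i ≠ 0) : ∀ (a : ℕ) {F : ℂ[X][X]},
    F ∈ sys (3 * a) S (fun _ => a) t → ∃ c : ℂ, F = C (C c) * cub ^ a := by
  intro a
  induction a with
  | zero =>
    intro F hF
    refine ⟨(F.coeff 0).coeff 0, ?_⟩
    rw [pow_zero, mul_one]
    ext i j
    rw [coeff_C]
    by_cases hi : i = 0
    · subst hi
      rw [if_pos rfl, coeff_C]
      by_cases hj : j = 0
      · rw [hj, if_pos rfl]
      · rw [if_neg hj]
        exact hF.1 0 j (by omega)
    · rw [if_neg hi, coeff_zero]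
      exact hF.1 i j (by omega)
  | succ a ih =>
    intro F hF
    obtain ⟨G, hG⟩ := zcub_dvd (z_res hS ht hsum (by omega) hF)
    have h1 : cub ^ 1 * G ∈ sys (3 * (a + 1)) S (fun _ => a + 1) t := by
      rw [pow_one, ← hG]
      exact hF
    rcases sys_quot h1 with h2 | ⟨-, h2⟩
    · refine ⟨0, ?_⟩
      rw [hG, h2]
      simp
    · have h3 : 3 * (a + 1) - 3 * 1 = 3 * a := by omega
      rw [h3] at h2
      obtain ⟨c, hc⟩ := ih h2
      refine ⟨c, ?_⟩
      rw [hG, hc]
      ring

private theorem z_cond {x y : ℂ} {F : ℂ[X][X]} (h : Cond (Finset.Icc 1 1) x y F) :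
    ((F.eval (C x)).eval y) = 0 := by
  have h1 := h 0
  rw [ToCurves_colH, Nat.sub_zero, pow_one, taylor_coeff_zero, dvd_iff_isRoot] at h1
  exact h1

/-- `(3 a; a ^ 9)` -/
private theorem z_nine {h a : ℕ} {n : Fin h → ℕ} {S : Finset (Fin h)} (hS : S.card = 9)
    (hn : ∀ i ∈ S, n i = a) :
    ∃ P₀ : Fin h → Fin 3 → ℂ, Module.finrank ℂ (curves (3 * a) n P₀) ≤ 1 := by
  obtain ⟨t, ht⟩ : ∃ t : Fin h → ℂ, t = fun i : Fin h => ((i.val + 1 : ℕ) : ℂ) := ⟨_, rfl⟩
  have hinj : Set.InjOn t (S : Set (Fin h)) := by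
    intro i _ j _ hij
    rw [ht] at hij
    have := Nat.cast_injective (R := ℂ) hij
    exact Fin.ext (by omega)
  have hsum : ∑ i ∈ S, t i ≠ 0 := by
    rw [ht, ← Nat.cast_sum]
    rw [Nat.cast_ne_zero]
    have h1 : ∑ i ∈ S, 1 ≤ ∑ i ∈ S, (i.val + 1) := Finset.sum_le_sum fun i _ => by omega
    rw [← Finset.card_eq_sum_ones, hS] at h1
    omega
  refine exists_configS (u := 1) S t (fun _ => 0) (fun _ => 1) ?_
  intro F hF hc
  have hF' : F ∈ sys (3 * a) S (fun _ => a) t := by
    refine ⟨hF.1, fun i hi => ?_⟩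
    have := hF.2 i hi
    rwa [hn i hi] at this
  obtain ⟨c, hFc⟩ := z_sys hS hinj hsum a hF'
  have h1 := z_cond (hc (Sum.inr 0) (by
    rw [Finset.mem_filter]
    exact ⟨Finset.mem_univ _, fun l _ => by simp⟩))
  rw [hFc] at h1
  have h2 : c = 0 := by simpa [cub] using h1
  rw [hFc, h2]
  simp

private theorem z_tri {h e : ℕ} {n : Fin h → ℕ} (hred : Reduced e n) (i j l : Fin h)
    (hij : i ≠ j) (hil : i ≠ l) (hjl : j ≠ l) : n i + n j + n l ≤ e := by
  have h1 := hred ⟨![i, j, l], by
    intro a b hab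
    fin_cases a <;> fin_cases b <;> simp_all [eq_comm]⟩
  rw [Fin.sum_univ_three] at h1
  exact h1

/-- averaging over a cyclic order -/
private theorem z_sum {h e : ℕ} {n : Fin h → ℕ}
    (htri : ∀ i j l : Fin h, i ≠ j → i ≠ l → j ≠ l → n i + n j + n l ≤ e) (S : Finset (Fin h))
    (hS : 3 ≤ S.card) : 3 * ∑ i ∈ S, n i ≤ S.card * e := by
  classical
  obtain ⟨c, hc⟩ : ∃ c, S.card = c + 3 := ⟨S.card - 3, by omega⟩
  let f := S.equivFinOfCardEq hc
  let g : Fin (c + 3) → ℕ := fun j => n (f.symm j : Fin h)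
  have h1 : ∑ i ∈ S, n i = ∑ j, g j := by
    rw [← Finset.sum_coe_sort S n, ← Equiv.sum_comp f.symm fun i : S => n i]
  have h2 : ∀ a : Fin (c + 3), ∑ j, g (j + a) = ∑ j, g j := fun a =>
    Equiv.sum_comp (Equiv.addRight a) g
  have hinj : ∀ x y : Fin (c + 3), x ≠ y → (f.symm x : Fin h) ≠ (f.symm y : Fin h) := by
    intro x y hxy hcon
    exact hxy (f.symm.injective (Subtype.ext hcon))
  have h10 : (1 : Fin (c + 3)) ≠ 0 := by
    intro hcon
    have := congrArg Fin.val hcon
    simp at this
  have h20 : (2 : Fin (c + 3)) ≠ 0 := by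
    intro hcon
    have := congrArg Fin.val hcon
    simp at this
    rw [Nat.mod_eq_of_lt (by omega)] at this
    omega
  have h21 : (2 : Fin (c + 3)) ≠ 1 := by
    intro hcon
    have := congrArg Fin.val hcon
    simp at this
    rw [Nat.mod_eq_of_lt (by omega)] at this
    omega
  have h3 : ∑ j, (g j + g (j + 1) + g (j + 2)) ≤ ∑ _j : Fin (c + 3), e := by
    refine Finset.sum_le_sum fun j _ => ?_
    refine htri _ _ _ (hinj _ _ ?_) (hinj _ _ ?_) (hinj _ _ ?_)
    · intro hcon
      exact h10 (by simpa using hcon.symm)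
    · intro hcon
      exact h20 (by simpa using hcon.symm)
    · intro hcon
      exact h21 (add_left_cancel hcon).symm
  rw [Finset.sum_add_distrib, Finset.sum_add_distrib, h2, h2, Finset.sum_const, Finset.card_univ,
    Fintype.card_fin, smul_eq_mul] at h3
  rw [h1, hc]
  omega


private theorem z_eight {h : ℕ} (hh : 3 ≤ h) {e : ℕ} {n : Fin h → ℕ} (hred : Reduced e n)
    (hc : (Finset.univ.filter (fun i => 0 < n i)).card ≤ 8) :
    General (fun P => (Module.finrank ℂ (curves e n P) : ℤ) = max (vd e n) 0) := by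
  classical
  have htri := z_tri hred
  rcases Nat.eq_zero_or_pos e with he | he
  · subst he
    apply nonspecial_three (Fin.castLEEmb hh) (fun l _ => ?_) (hred _)
    have h1 : 1 < ((Finset.univ : Finset (Fin h)).erase l).card := by
      rw [Finset.card_erase_of_mem (Finset.mem_univ _), Finset.card_univ, Fintype.card_fin]
      omega
    obtain ⟨i, hi, j, hj, hij⟩ := Finset.one_lt_card.1 h1
    have h2 := htri l i j (Finset.mem_erase.1 hi).1.symm (Finset.mem_erase.1 hj).1.symm hij
    omega
  · rcases Nat.lt_or_ge 8 h with h8 | h8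
    · obtain ⟨S, hS, htop⟩ := exists_top n (c := 8) (by omega)
      obtain ⟨i1, h1, i2, h2, hne, hle, hmax⟩ := exists_two S n (by omega)
      have hs3 := z_sum htri S (by omega)
      have hH : Heavy e S n i1 i2 :=
        ⟨h1, h2, hne, hle, hmax, fun i _ j _ l _ => htri i j l, by omega, by omega, by
          rw [hS] at hs3
          omega⟩
      refine base_S hH fun j hj => ?_
      by_contra hcon
      have hsub : insert j S ⊆ Finset.univ.filter (fun i => 0 < n i) := by
        intro i hi
        rw [Finset.mem_filter]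
        refine ⟨Finset.mem_univ _, ?_⟩
        rcases Finset.mem_insert.1 hi with rfl | hi
        · omega
        · have := htop i hi j hj
          omega
      have h5 := Finset.card_le_card hsub
      rw [Finset.card_insert_of_notMem hj, hS] at h5
      omega
    · obtain ⟨i1, h1, i2, h2, hne, hle, hmax⟩ := exists_two (Finset.univ : Finset (Fin h)) n (by
        rw [Finset.card_univ, Fintype.card_fin]
        omega)
      have hs3 := z_sum htri Finset.univ (by
        rw [Finset.card_univ, Fintype.card_fin]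
        exact hh)
      rw [Finset.card_univ, Fintype.card_fin] at hs3
      have hs4 : h * e ≤ 8 * e := Nat.mul_le_mul_right e h8
      refine base_S (S := Finset.univ) (i1 := i1) (i2 := i2)
        ⟨h1, h2, hne, hle, hmax, fun i _ j _ l _ => htri i j l, ?_, ?_, ?_⟩
        fun i hi => absurd (Finset.mem_univ i) hi
      · rw [Finset.card_univ, Fintype.card_fin]
        exact hh
      · rw [Finset.card_univ, Fintype.card_fin]
        omega
      · omega

/-- Reduced systems with at most nine positive multiplicities are nonspecial. -/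
theorem nonspecial_nine {h : ℕ} (hh : 3 ≤ h) {e : ℕ} {n : Fin h → ℕ} (hred : Reduced e n)
    (hc : (Finset.univ.filter (fun i => 0 < n i)).card ≤ 9) :
    General (fun P => (Module.finrank ℂ (curves e n P) : ℤ) = max (vd e n) 0) := by
  classical
  rcases Nat.lt_or_ge (Finset.univ.filter (fun i => 0 < n i)).card 9 with h9 | h9
  · exact z_eight hh hred (by omega)
  have htri := z_tri hred
  obtain ⟨S, hSdef⟩ : ∃ S, S = Finset.univ.filter (fun i => 0 < n i) := ⟨_, rfl⟩
  rw [← hSdef] at hc h9
  have hS : S.card = 9 := le_antisymm hc h9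
  have hout : ∀ i ∉ S, n i = 0 := by
    intro i hi
    by_contra hcon
    exact hi (by rw [hSdef, Finset.mem_filter]; exact ⟨Finset.mem_univ _, by omega⟩)
  have hs3 := z_sum htri S (by omega)
  rw [hS] at hs3
  rcases Nat.lt_or_ge (∑ i ∈ S, n i) (3 * e) with hlt | hge
  · obtain ⟨i1, h1, i2, h2, hne, hle, hmax⟩ := exists_two S n (by omega)
    exact base_S ⟨h1, h2, hne, hle, hmax, fun i _ j _ l _ => htri i j l, by omega, by omega,
      by omega⟩ hout
  · -- all multiplicities are equal
    have hT : ∀ T ⊆ S, T.card = 3 → ∑ i ∈ T, n i = e := by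
      intro T hTS hT3
      have h1 := z_sum htri T (by omega)
      have h2 : (S \ T).card = 6 := by
        rw [Finset.card_sdiff_of_subset hTS, hS, hT3]
      have h3 := z_sum htri (S \ T) (by omega)
      have h4 := Finset.sum_sdiff (f := n) hTS
      rw [hT3] at h1
      rw [h2] at h3
      omega
    have heq : ∀ i ∈ S, ∀ j ∈ S, n i = n j := by
      intro i hi j hj
      by_cases hij : i = j
      · rw [hij]
      have h1 : 1 < ((S.erase i).erase j).card := by
        rw [Finset.card_erase_of_mem (Finset.mem_erase.2 ⟨Ne.symm hij, hj⟩),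
          Finset.card_erase_of_mem hi, hS]
        omega
      obtain ⟨k, hk, l, hl, hkl⟩ := Finset.one_lt_card.1 h1
      rw [Finset.mem_erase, Finset.mem_erase] at hk hl
      have h2 := hT {i, k, l} (by
        intro x hx
        simp only [Finset.mem_insert, Finset.mem_singleton] at hx
        rcases hx with rfl | rfl | rfl
        · exact hi
        · exact hk.2.2
        · exact hl.2.2) (Finset.card_eq_three.2 ⟨i, k, l, hk.2.1.symm, hl.2.1.symm, hkl, rfl⟩)
      have h3 := hT {j, k, l} (by
        intro x hx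
        simp only [Finset.mem_insert, Finset.mem_singleton] at hx
        rcases hx with rfl | rfl | rfl
        · exact hj
        · exact hk.2.2
        · exact hl.2.2) (Finset.card_eq_three.2 ⟨j, k, l, hk.1.symm, hl.1.symm, hkl, rfl⟩)
      rw [Finset.sum_insert (by simp [hk.2.1.symm, hl.2.1.symm]), Finset.sum_pair hkl] at h2
      rw [Finset.sum_insert (by simp [hk.1.symm, hl.1.symm]), Finset.sum_pair hkl] at h3
      omega
    obtain ⟨i0, hi0⟩ : S.Nonempty := Finset.card_pos.1 (by omega)
    have hsum : ∑ i ∈ S, n i = 9 * n i0 := by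
      rw [Finset.sum_congr rfl fun i hi => heq i hi i0 hi0, Finset.sum_const, hS, smul_eq_mul]
    have he : e = 3 * n i0 := by omega
    obtain ⟨P₀, hP₀⟩ := z_nine (h := h) (a := n i0) (n := n) hS (fun i hi => heq i hi i0 hi0)
    rw [← he] at hP₀
    apply general_nonspecial_of_le P₀
    apply le_max_of_le_left
    have hv : vd e n = 1 := by
      have h1 : ∑ i, ((n i + 1).choose 2 : ℤ) = 9 * ((n i0 + 1).choose 2 : ℤ) := by
        have h2 : ∑ i, ((n i + 1).choose 2 : ℤ) = ∑ i ∈ S, ((n i + 1).choose 2 : ℤ) := by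
          symm
          apply Finset.sum_subset (Finset.subset_univ _)
          intro i _ hi
          rw [hout i hi]
          rfl
        rw [h2, Finset.sum_congr rfl fun i hi => by rw [heq i hi i0 hi0], Finset.sum_const, hS]
        simp
      unfold vd
      rw [h1, he]
      generalize n i0 = a
      have h3 : ∀ k : ℕ, (((k + 1).choose 2 : ℕ) : ℤ) * 2 = (k + 1) * k := by
        intro k
        have h := Nat.choose_two_right (k + 1)
        have h2 : 2 ∣ (k + 1) * (k + 1 - 1) := by
          rw [Nat.add_sub_cancel, mul_comm]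
          exact (Nat.even_mul_succ_self k).two_dvd
        have h3 : (k + 1).choose 2 * 2 = (k + 1) * (k + 1 - 1) := by
          rw [h]
          exact Nat.div_mul_cancel h2
        rw [Nat.add_sub_cancel] at h3
        exact_mod_cast h3
      have h4 := h3 a
      have h5 := h3 (3 * a + 1)
      push_cast at h4 h5 ⊢
      nlinarith
    rw [hv]
    exact_mod_cast hP₀

end Pool.Agent.Lib.MP_6b2d39_agNw
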