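import Pool.Agent.Lib.MP_6b2d39_agNw.ExactP

set_option autoImplicit false

namespace Pool.Agent.Lib.MP_6b2d39_agNw

open Pool.Agent.Lib.MP_6b2d39_agArr Pool.Agent.Lib.MP_6b2d39_agWin

private theorem sum_slices {m L : ℕ} (h : m ≤ L) :
    ∑ b ∈ Finset.range L, (m - (L - 1 - b)) = (m + 1).choose 2 := by
  rw [Finset.sum_range_reflect (fun i => m - i) L]
  have h1 : ∀ n, ∑ i ∈ Finset.range (m + n), (m - i) = (m + 1).choose 2 := by
    intro n
    induction n with
    | zero =>
      rw [add_zero]
      clear h
      induction m with
      | zero => simp
      | succ m ih =>
        rw [Finset.sum_range_succ' ]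
        have : ∀ i ∈ Finset.range m, m + 1 - (i + 1) = m - i := by intro i _; omega
        rw [Finset.sum_congr rfl this, ih, Nat.choose_succ_succ' (m + 1) 1, Nat.choose_one_right]
        have h9 : (m + 1).choose (1 + 1) = (m + 1).choose 2 := rfl
        omega
    | succ n ih =>
      rw [← add_assoc, Finset.sum_range_succ, ih]
      omega
  obtain ⟨n, rfl⟩ := Nat.exists_eq_add_of_le h
  exact h1 n

private theorem x_le_sh {μ T L : ℕ} {sh X : ℕ → ℕ} (hP : Prof μ T sh) (hLT : L + 1 ≤ T)
    (hcr : CrP μ sh (L + 1) X) (h : X L ≤ sh L) :
    ∀ d ≤ L, X (L - d) ≤ sh (L - d) := by
  intro d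
  induction d with
  | zero => intro _; simpa using h
  | succ d ih =>
    intro hd
    have h1 := ih (by omega)
    have e : L - d = L - (d + 1) + 1 := by omega
    rw [e] at h1
    have h2 := hP.up (L - (d + 1)) (by omega)
    rcases Nat.eq_zero_or_pos (X (L - (d + 1) + 1)) with h3 | h3
    · have := hcr.t0 (L - (d + 1)) (by omega) h3
      omega
    · have := hcr.t1 (L - (d + 1)) (by omega) h3
      omega

/-- The last rows are filled crudely. -/
theorem crude {ι : Type} [DecidableEq ι] {m : ι → ℕ} {μ T : ℕ} {sh : ℕ → ℕ} (hP : Prof μ T sh) :
    ∀ (k : ℕ) (J : Finset ι) (L : ℕ) (X : ℕ → ℕ), J.card + L = k → L ≤ T → (∀ j ∈ J, m j ≤ μ) →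
      CrP μ sh L X →
      ∑ b ∈ Finset.range L, (sh b + μ - X b) ≤ mass m J →
      Cert m J L (fun b => (sh b : ℤ) - X b) := by
  intro k
  induction k using Nat.strong_induction_on with
  | _ k ih =>
    intro J L X hk hLT hm hcr hsum
    rcases L with _ | L
    · exact ⟨fun _ => 0, fun _ => 0, fun b hb => absurd hb (Nat.not_lt_zero b)⟩
    · rcases le_or_gt (sh L) (X L) with hc | hc
      · -- drop the row
        apply cert_extend (Nat.le_succ L)
        · apply ih (J.card + L) (by omega) J L X rfl (by omega) hm
          · exact ⟨fun b hb => hcr.le b (by omega), fun b hb => hcr.t1 b (by omega),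
              fun b hb => hcr.t0 b (by omega)⟩
          · rw [Finset.sum_range_succ] at hsum
            omega
        · intro b hb1 hb2
          have : b = L := by omega
          subst this
          have : (sh b : ℤ) ≤ X b := by exact_mod_cast hc
          linarith
      · -- pick a point
        have hpos : 0 < mass m J := by
          rw [Finset.sum_range_succ] at hsum
          omega
        obtain ⟨j, hj, hjm⟩ : ∃ j ∈ J, 1 ≤ m j := by
          by_contra hcon
          push Not at hcon
          have : mass m J = 0 := by
            unfold mass
            apply Finset.sum_eq_zero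
            intro j hj
            have := hcon j hj
            have : m j = 0 := by omega
            rw [this]; decide
          omega
        have hJ : insert j (J.erase j) = J := Finset.insert_erase hj
        have hmass : mass m J = mass m (J.erase j) + (m j + 1).choose 2 := by
          unfold mass
          rw [Finset.sum_erase_add _ _ hj]
        have hjμ := hm j hj
        rcases le_or_gt (m j) (L + 1) with hml | hml
        · -- standard step
          have hxs := x_le_sh hP hLT hcr hc.le
          have hxs' : ∀ b < L + 1, X b ≤ sh b := by
            intro b hb
            have := hxs (L - b) (by omega)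
            have e : L - (L - b) = b := by omega
            rwa [e] at this
          have hcert : Cert m (J.erase j) (L + 1)
              (fun b => (sh b : ℤ) - ((X b + (m j - (L + 1 - 1 - b)) : ℕ) : ℤ)) := by
            apply ih ((J.erase j).card + (L + 1)) _ (J.erase j) (L + 1)
              (fun b => X b + (m j - (L + 1 - 1 - b))) rfl hLT
              (fun i hi => hm i (Finset.mem_of_mem_erase hi))
            · refine ⟨?_, ?_, ?_⟩
              · intro b hb
                have := hxs' b hb
                omega
              · intro b hb h1
                rcases Nat.eq_zero_or_pos (X (b + 1)) with h3 | h3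
                · have := hcr.t0 b hb h3
                  omega
                · have := hcr.t1 b hb h3
                  omega
              · intro b hb h1
                have := hcr.t0 b hb (by omega)
                omega
            · have h2 : ∑ b ∈ Finset.range (L + 1), (sh b + μ - X b) =
                  ∑ b ∈ Finset.range (L + 1),
                    (sh b + μ - (X b + (m j - (L + 1 - 1 - b)))) +
                  ∑ b ∈ Finset.range (L + 1), (m j - (L + 1 - 1 - b)) := by
                rw [← Finset.sum_add_distrib]
                apply Finset.sum_congr rfl
                intro b hb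
                have := hxs' b (Finset.mem_range.1 hb)
                omega
              rw [sum_slices hml] at h2
              omega
            · rw [Finset.card_erase_of_mem hj]
              have := Finset.card_pos.2 ⟨j, hj⟩
              omega
          have hfin := cert_stepA (Finset.notMem_erase j J) (le_refl (L + 1)) hcert
            (D := fun b => (sh b : ℤ) - X b)
            (fun b => L + 1 - 1 - b) (fun b hb => by omega)
            (fun b hb c hc h => by omega) (fun b c h1 h2 => by omega)
            (fun b hb => by push_cast; linarith) (fun b hb hb' => by omega)
          rwa [hJ] at hfin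
        · -- a big point fills all rows
          have hcert : Cert m (J.erase j) 0 (fun _ => 0) :=
            ⟨fun _ => 0, fun _ => 0, fun b hb => absurd hb (Nat.not_lt_zero b)⟩
          have hfin := cert_stepA (Finset.notMem_erase j J) (Nat.zero_le (L + 1)) hcert
            (D := fun b => (sh b : ℤ) - X b)
            (fun b => L + 1 - 1 - b) (fun b hb => by omega)
            (fun b hb c hc h => by omega) (fun b c h1 h2 => by omega)
            (fun b hb => by omega) (fun b hb hb' => by
              have h1 := hP.tip b
              have h2 : ((sh b : ℕ) : ℤ) ≤ ((m j - (L + 1 - 1 - b) : ℕ) : ℤ) := by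
                exact_mod_cast (by omega : sh b ≤ m j - (L + 1 - 1 - b))
              have h3 : (0 : ℤ) ≤ X b := Int.natCast_nonneg _
              linarith)
          rwa [hJ] at hfin

end Pool.Agent.Lib.MP_6b2d39_agNw
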