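import Pool.Agent.Lib.MP_6b2d39_agNw.Prof
import Pool.Agent.Lib.MP_6b2d39_agArr.Greedy

set_option autoImplicit false

namespace Pool.Agent.Lib.MP_6b2d39_agNw

open Pool.Agent.Lib.MP_6b2d39_agArr Pool.Agent.Lib.MP_6b2d39_agWin

variable {μ T L : ℕ} {sh X : ℕ → ℕ}

/-- the demands of consecutive rows -/
theorem demand_step (hP : Prof μ T sh) (hLT : L ≤ T) (hst : StP μ sh L X) {b : ℕ}
    (hb : b + 1 < L) (hb2 : 2 * μ ≤ b) {m : ℕ} (hm : m ≤ μ)
    (hD : sh (b + 1) - X (b + 1) ≤ m) :
    sh (b + 1) - X (b + 1) + 1 ≤ sh b - X b ∨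
      (sh (b + 1) - X (b + 1) = m ∧ m ≤ sh b - X b) := by
  have hle0 := hst.le b (by omega)
  have hle1 := hst.le (b + 1) hb
  have h1 := hst.t1 b hb
  have h0 := hst.t0 b hb
  have h2 := hst.t2 b hb
  have hs1 := hP.fresh b hb2 (by omega)
  have hup := hP.up b (by omega)
  rcases lt_or_ge (sh b) (sh (b + 1)) with h | h
  · have e1 := hP.short b (by omega) h
    have h3 := h2 (by omega)
    left
    omega
  · rcases Nat.eq_zero_or_pos (X (b + 1)) with hX | hX
    · have h3 := h0 hX
      rcases hs1 with hs1 | hs1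
      · right
        omega
      · left
        omega
    · have h3 := h1 hX
      left
      omega

/-- once the demand of a row is at least `m` it stays so -/
theorem demand_stay (hP : Prof μ T sh) (hLT : L ≤ T) (hst : StP μ sh L X) {b : ℕ}
    (hb : b + 1 < L) (hb2 : 2 * μ ≤ b) {m : ℕ} (hm : m ≤ μ)
    (hD : m ≤ sh (b + 1) - X (b + 1)) : m ≤ sh b - X b := by
  have hle0 := hst.le b (by omega)
  have hle1 := hst.le (b + 1) hb
  have h1 := hst.t1 b hb
  have h0 := hst.t0 b hb
  have h2 := hst.t2 b hb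
  have hX : X b ≤ X (b + 1) := by
    rcases Nat.eq_zero_or_pos (X (b + 1)) with hX | hX
    · rw [h0 hX]
      exact Nat.zero_le _
    · exact (Nat.le_succ _).trans (h1 hX)
  have hup := hP.up b (by omega)
  rcases lt_or_ge (sh b) (sh (b + 1)) with h | h
  · have e1 := hP.short b (by omega) h
    rcases Nat.lt_or_ge μ (X (b + 1)) with h3 | h3
    · have h4 := h2 h3
      omega
    · omega
  · omega

/-- One exact step: a point of multiplicity `m` fills the rows `L' ≤ b < L` exactly. -/
theorem exact_step (hP : Prof μ T sh) (hL : 3 * μ ≤ L) (hLT : L ≤ T) {m : ℕ}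
    (hm1 : 1 ≤ m) (hmμ : m ≤ μ) (hst : StP μ sh L X)
    (hfront : X (L - 1) < sh (L - 1)) :
    ∃ (L' : ℕ) (X' ρ : ℕ → ℕ), L' ≤ L ∧ StP μ sh L' X' ∧ (∀ b < L, ρ b < L) ∧
      (∀ b < L, ∀ c < L, ρ b = ρ c → b = c) ∧ (∀ b c, b < c → c < L' → ρ c < ρ b) ∧
      (∀ b < L', X' b = X b + (m - ρ b)) ∧
      (∀ b, L' ≤ b → b < L → sh b = X b + (m - ρ b)) ∧
      ∑ b ∈ Finset.range L, (m - ρ b) = (m + 1).choose 2 := by
  classical
  obtain ⟨D, hD⟩ : ∃ D : ℕ → ℕ, ∀ b, D b = sh b - X b := ⟨_, fun _ => rfl⟩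
  have hDX : ∀ b < L, D b + X b = sh b := by
    intro b hb
    have := hst.le b hb
    rw [hD]
    omega
  have hex : ∃ l, l = m ∨ ¬ (D (L - l - 1) ≤ m ∧ (l = 0 ∨ D (L - l) + 1 ≤ D (L - l - 1))) :=
    ⟨m, Or.inl rfl⟩
  obtain ⟨l, hl⟩ : ∃ l, l = Nat.find hex := ⟨_, rfl⟩
  have hlm : l ≤ m := by
    rw [hl]
    exact Nat.find_min' hex (Or.inl rfl)
  have hbelow : ∀ l' < l, D (L - l' - 1) ≤ m ∧ (l' = 0 ∨ D (L - l') + 1 ≤ D (L - l' - 1)) := by
    intro l' hl'
    rw [hl] at hl'
    have := Nat.find_min hex hl'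
    rw [not_or, not_not] at this
    exact this.2
  have hat : l = m ∨ ¬ (D (L - l - 1) ≤ m ∧ (l = 0 ∨ D (L - l) + 1 ≤ D (L - l - 1))) := by
    rw [hl]
    exact Nat.find_spec hex
  have hrow : ∀ b, L - l ≤ b → b < L → D b ≤ m := by
    intro b h1 h2
    have h3 := (hbelow (L - 1 - b) (by omega)).1
    have h4 : L - (L - 1 - b) - 1 = b := by omega
    rwa [h4] at h3
  have hrow2 : ∀ b, L - l ≤ b → b + 1 < L → D (b + 1) + 1 ≤ D b := by
    intro b h1 h2
    have h3 := (hbelow (L - 1 - b) (by omega)).2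
    have h4 : L - (L - 1 - b) - 1 = b := by omega
    have h5 : L - (L - 1 - b) = b + 1 := by omega
    rw [h4, h5] at h3
    rcases h3 with h3 | h3
    · omega
    · exact h3
  have hDf : 1 ≤ D (L - 1) := by
    rw [hD]
    omega
  -- rows `L - m ≤ b < L - l` have demand at least `m`
  have htop : l < m → m ≤ D (L - l - 1) := by
    intro hlt
    rcases hat with h | h
    · omega
    · by_contra hcon
      have h1 : D (L - l - 1) ≤ m := by omega
      apply h
      refine ⟨h1, ?_⟩
      rcases Nat.eq_zero_or_pos l with h0 | h0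
      · exact Or.inl h0
      · right
        have h2 := hrow (L - l) le_rfl (by omega)
        have h3 : L - l - 1 + 1 = L - l := by omega
        have h4 := demand_step hP hLT hst (b := L - l - 1) (by omega) (by omega) hmμ
          (by rw [h3, ← hD]; exact h2)
        rw [h3, ← hD, ← hD] at h4
        omega
  have hmid : ∀ t : ℕ, l + t < m → m ≤ D (L - l - 1 - t) := by
    intro t
    induction t with
    | zero => intro h; exact htop (by omega)
    | succ t ih =>
      intro h
      have h1 := ih (by omega)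
      have h2 : L - l - 1 - (t + 1) + 1 = L - l - 1 - t := by omega
      have h3 := demand_stay hP hLT hst (b := L - l - 1 - (t + 1)) (by omega) (by omega) hmμ
        (m := m) (by rw [h2, ← hD]; exact h1)
      rw [← hD] at h3
      exact h3
  have hDm : ∀ b, L - m ≤ b → b < L - l → m ≤ D b := by
    intro b h1 h2
    have h3 := hmid (L - l - 1 - b) (by omega)
    have h4 : L - l - 1 - (L - l - 1 - b) = b := by omega
    rwa [h4] at h3
  -- the modified demands
  obtain ⟨E, hE⟩ : ∃ E : ℕ → ℤ, ∀ b, E b = if b < L - l then (m : ℤ) + 1 + ((L - l - b : ℕ) : ℤ)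
    else (D b : ℤ) := ⟨_, fun _ => rfl⟩
  have hElow : ∀ b, b < L - l → E b = (m : ℤ) + 1 + ((L - l - b : ℕ) : ℤ) := by
    intro b hb
    rw [hE, if_pos hb]
  have hEhigh : ∀ b, L - l ≤ b → E b = (D b : ℤ) := by
    intro b hb
    rw [hE, if_neg (not_lt.2 hb)]
  have hD1 : ∀ t : ℕ, t < l → 1 ≤ D (L - 1 - t) := by
    intro t
    induction t with
    | zero => intro _; exact hDf
    | succ t ih =>
      intro h
      have h1 := ih (by omega)
      have h2 := hrow2 (L - 1 - (t + 1)) (by omega) (by omega)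
      have h3 : L - 1 - (t + 1) + 1 = L - 1 - t := by omega
      rw [h3] at h2
      omega
  obtain ⟨L0, ρ, hL0, hρlt, hρinj, hρdec, hρex, hlow, hzero, hhigh, hsum⟩ :=
    Pool.Agent.Lib.MP_6b2d39_agArr.greedy (m := m) (L' := L) (by omega) E
      (by
        intro b hb
        rcases lt_or_ge b (L - l) with h | h
        · rw [hElow b h]
          omega
        · rw [hEhigh b h]
          have h1 := hD1 (L - 1 - b) (by omega)
          have h2 : L - 1 - (L - 1 - b) = b := by omega
          rw [h2] at h1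
          exact_mod_cast h1)
      (by
        intro b hb
        rcases lt_or_ge b (L - l) with h | h
        · rw [hElow b h]
          rcases lt_or_ge (b + 1) (L - l) with h' | h'
          · rw [hElow _ h']
            omega
          · rw [hEhigh _ h']
            have h1 := hrow (b + 1) h' hb
            have h2 : (D (b + 1) : ℤ) ≤ m := by exact_mod_cast h1
            omega
        · rw [hEhigh b h, hEhigh (b + 1) (by omega)]
          exact_mod_cast hrow2 b h hb)
  have hL0' : L0 = L - l := by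
    rcases lt_trichotomy L0 (L - l) with h | h | h
    · have h1 := hhigh L0 le_rfl (by omega)
      rw [hElow L0 h] at h1
      omega
    · exact h
    · have h1 := hlow (L - l) h
      rw [hEhigh _ le_rfl] at h1
      have h2 := hrow (L - l) le_rfl (by omega)
      have h3 : (D (L - l) : ℤ) ≤ m := by exact_mod_cast h2
      omega
  subst hL0'
  have hδ : ∀ b, b + 1 < L - l → (m - ρ b ≤ m - ρ (b + 1)) ∧
      (1 ≤ m - ρ (b + 1) → m - ρ b + 1 ≤ m - ρ (b + 1)) := by
    intro b hb
    have := hρdec b (b + 1) (by omega) hb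
    omega
  have hXle : ∀ b, b + 1 < L → X b ≤ X (b + 1) := by
    intro b hb
    rcases Nat.eq_zero_or_pos (X (b + 1)) with hX | hX
    · rw [hst.t0 b hb hX]
      exact Nat.zero_le _
    · exact (Nat.le_succ _).trans (hst.t1 b hb hX)
  refine ⟨L - l, fun b => X b + (m - ρ b), ρ, Nat.sub_le _ _, ⟨?_, ?_, ?_, ?_⟩, hρlt, hρinj, hρdec,
    fun b _ => rfl, ?_, ?_⟩
  · intro b hb
    have h1 := hDX b (by omega)
    show X b + (m - ρ b) ≤ sh b
    rcases lt_or_ge b (L - m) with h | h
    · have h2 := hzero b hb (by omega)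
      omega
    · have h2 := hDm b h hb
      omega
  · intro b hb h
    have h1 := hδ b hb
    have h2 := hXle b (by omega)
    have h3 := hst.t1 b (by omega)
    show X b + (m - ρ b) + 1 ≤ X (b + 1) + (m - ρ (b + 1))
    have h' : 1 ≤ X (b + 1) + (m - ρ (b + 1)) := h
    rcases Nat.eq_zero_or_pos (m - ρ (b + 1)) with h4 | h4
    · have h5 := h3 (by omega)
      omega
    · have h5 := h1.2 h4
      omega
  · intro b hb h
    have h1 := hδ b hb
    have h3 := hst.t0 b (by omega)
    have h' : X (b + 1) + (m - ρ (b + 1)) = 0 := h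
    show X b + (m - ρ b) = 0
    have h5 := h3 (by omega)
    omega
  · intro b hb h
    have h1 := hδ b hb
    have h2 := hst.t2 b (by omega)
    have h3 := hst.t1 b (by omega)
    have h' : μ + 1 ≤ X (b + 1) + (m - ρ (b + 1)) := h
    show X b + (m - ρ b) + 2 ≤ X (b + 1) + (m - ρ (b + 1))
    rcases Nat.eq_zero_or_pos (m - ρ (b + 1)) with h4 | h4
    · have h5 := h2 (by omega)
      omega
    · have h5 := h1.2 h4
      have h6 := h3 (by omega)
      omega
  · intro b hb1 hb2
    have h1 := hρex b hb1 hb2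
    rw [hEhigh b hb1] at h1
    have h2 := hDX b hb2
    have h3 : D b = m - ρ b := by exact_mod_cast h1
    omega
  · have h1 : ((∑ b ∈ Finset.range L, (m - ρ b) : ℕ) : ℤ) = ((m * (m + 1) / 2 : ℕ) : ℤ) := by
      rw [← hsum]
      push_cast
      rfl
    have h2 : ∑ b ∈ Finset.range L, (m - ρ b) = m * (m + 1) / 2 := by exact_mod_cast h1
    rw [h2, Nat.choose_two_right, Nat.add_sub_cancel, mul_comm]

end Pool.Agent.Lib.MP_6b2d39_agNw
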