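import Pool.Agent.Lib.MP_6b2d39_agNw.Quot
import Pool.Agent.Lib.MP_6b2d39_ag.Combi

open Polynomial

set_option autoImplicit false

namespace Pool.Agent.Lib.MP_6b2d39_agNw

open Pool.Agent.Lib.MP_6b2d39_ag Pool.Agent.Lib.MP_6b2d39_ag.Rel
  Pool.Agent.Lib.MP_6b2d39_agWin Pool.Agent.Lib.MP_6b2d39_agArr

private theorem lr_add {n : ℕ} {F G : ℂ[X][X]} (hF : InV n F) (hG : InV n G) : InV n (F + G) := by
  intro a b h
  rw [coeff_add, coeff_add, hF a b h, hG a b h, add_zero]

private theorem lr_zero {n : ℕ} : InV n (0 : ℂ[X][X]) := by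
  intro a b _
  rw [coeff_zero, coeff_zero]

private theorem lr_mono {n n' : ℕ} (h : n ≤ n') {F : ℂ[X][X]} (hF : InV n F) : InV n' F := by
  intro a b hab
  exact hF a b (by omega)

private theorem lr_sum {n : ℕ} {α : Type*} (s : Finset α) (g : α → ℂ[X][X])
    (h : ∀ i ∈ s, InV n (g i)) : InV n (∑ i ∈ s, g i) :=
  Finset.sum_induction _ _ (fun _ _ => lr_add) lr_zero h

private theorem lr_mul {p q : ℕ} {F G : ℂ[X][X]} (hF : InV (p + 1) F) (hG : InV (q + 1) G) :
    InV (p + q + 1) (F * G) := by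
  intro a b hab
  rw [coeff_mul, finsetSum_coeff]
  refine Finset.sum_eq_zero fun u hu => ?_
  rw [coeff_mul]
  refine Finset.sum_eq_zero fun v hv => ?_
  rw [Finset.HasAntidiagonal.mem_antidiagonal] at hu hv
  rcases (show p + 1 ≤ u.1 + v.1 ∨ q + 1 ≤ u.2 + v.2 by omega) with h | h
  · rw [hF _ _ h, zero_mul]
  · rw [hG _ _ h, mul_zero]

private theorem lr_pow {F : ℂ[X][X]} (hF : InV 2 F) (p : ℕ) : InV (p + 1) (F ^ p) := by
  induction p with
  | zero =>
    rw [pow_zero]
    intro a b hab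
    rw [coeff_one]
    split_ifs with h
    · rw [coeff_one, if_neg (by omega)]
    · rw [coeff_zero]
  | succ p ih =>
    rw [pow_succ]
    exact lr_mul ih hF

private theorem lr_X : InV 2 (X : ℂ[X][X]) := by
  intro a b hab
  rw [coeff_X]
  split_ifs with h
  · rw [coeff_one, if_neg (by omega)]
  · rw [coeff_zero]

private theorem lr_CX : InV 2 (C X : ℂ[X][X]) := by
  intro a b hab
  rw [coeff_C]
  split_ifs with h
  · rw [coeff_X, if_neg (by omega)]
  · rw [coeff_zero]

private theorem lr_CC (c : ℂ) : InV 1 (C (C c) : ℂ[X][X]) := by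
  intro a b hab
  rw [coeff_C]
  split_ifs with h
  · rw [coeff_C, if_neg (by omega)]
  · rw [coeff_zero]

/-- the linear form `y + α x + β` -/
private noncomputable def lrW (α β : ℂ) : ℂ[X][X] := C X + C (C α) * X + C (C β)

private theorem lrW_inV (α β : ℂ) : InV 2 (lrW α β) := by
  unfold lrW
  refine lr_add (lr_add lr_CX ?_) (lr_mono (by norm_num) (lr_CC β))
  have h := lr_mul (p := 0) (q := 1) (lr_CC α) lr_X
  exact h

private theorem lr_phiS_inV {n : ℕ} (α β : ℂ) {F : ℂ[X][X]} (hF : InV (n + 1) F) :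
    InV (n + 1) (phiS (lrW α β) F) := by
  rw [F.as_sum_support_C_mul_X_pow, map_sum]
  apply lr_sum
  intro p _
  rw [(F.coeff p).as_sum_support_C_mul_X_pow, map_sum, Finset.sum_mul, map_sum]
  apply lr_sum
  intro q hq
  have h1 : p + q ≤ n := by
    by_contra h
    rw [mem_support_iff] at hq
    exact hq (hF p q (by omega))
  rw [map_mul (phiS _), C_mul, map_mul (phiS _), map_pow (phiS _), phiS_X, phiS_C_C, C_pow,
    map_pow (phiS _), phiS_C_X]
  have h2 := lr_mul (lr_mul (p := 0) (lr_CC ((F.coeff p).coeff q)) (lr_pow (lrW_inV α β) q))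
    (lr_pow lr_X p)
  refine lr_mono ?_ h2
  omega

private theorem lr_phiS_inv (α β : ℂ) (F : ℂ[X][X]) :
    phiS (lrW (-α) (-β)) (phiS (lrW α β) F) = F := by
  have h1 : (phiS (lrW (-α) (-β))).comp (phiS (lrW α β)) = RingHom.id _ := by
    apply Polynomial.ringHom_ext'
    · apply Polynomial.ringHom_ext'
      · ext c
        simp [phiS_C_C]
      · simp only [RingHom.comp_apply, RingHom.id_apply, phiS_C_X]
        have h2 : lrW α β = C X + C (C α) * X + C (C β) := rfl
        rw [h2, map_add, map_add, map_mul, phiS_C_C, phiS_C_C, phiS_C_X, phiS_X, lrW]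
        simp only [C_neg]
        ring
    · simp [phiS_X]
  rw [← RingHom.comp_apply, h1, RingHom.id_apply]

private theorem lr_cond {m : ℕ} {α β x y0 Y : ℂ} (hY : Y = y0 + α * x + β) {F : ℂ[X][X]}
    (h : Cond (Finset.Icc 1 m) x Y F) : Cond (Finset.Icc 1 m) x y0 (phiS (lrW α β) F) := by
  rw [Pool.Agent.Lib.MP_6b2d39_ag.cond_iff] at h ⊢
  refine mem_pow_of_map (phiS (lrW α β)) _ _ ?_ h
  intro g hg
  obtain ⟨u, v, rfl⟩ := Ideal.mem_span_pair.1 hg
  rw [map_add, map_mul, map_mul]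
  apply Ideal.add_mem
  · apply Ideal.mul_mem_left
    rw [map_sub (phiS _), phiS_X, phiS_C_C]
    exact Ideal.subset_span (by simp)
  · apply Ideal.mul_mem_left
    have h1 : phiS (lrW α β) (C (X - C Y)) =
        C (C α) * (X - C (C x)) + C (X - C y0) := by
      rw [C_sub, map_sub (phiS _), phiS_C_X, phiS_C_C, lrW, hY]
      simp only [C_add, C_mul, C_sub]
      ring
    rw [h1]
    apply Ideal.add_mem
    · exact Ideal.mul_mem_left _ _ (Ideal.subset_span (by simp))
    · exact Ideal.subset_span (by simp)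

private theorem lr_erase (m : ℕ) : (Finset.Icc 1 m).erase (mx (Finset.Icc 1 m)) =
    Finset.Icc 1 (m - 1) := by
  rw [mx_Icc]
  ext s
  rw [Finset.mem_erase, Finset.mem_Icc, Finset.mem_Icc]
  omega

/-- the line divides -/
private theorem lr_div {ι : Type} [DecidableEq ι] {e : ℕ} {S : Finset ι} {k : ι → ℕ} {t : ι → ℂ}
    {i1 i2 : ι} (h1 : i1 ∈ S) (h2 : i2 ∈ S) (h12 : t i1 ≠ t i2)
    (hoth : ∀ i ∈ S, i ≠ i1 → i ≠ i2 → k i = 0) (he : 1 ≤ e) (h : e < k i1 + k i2)
    {α β : ℂ} (hα : α = t i1 ^ 2 + t i1 * t i2 + t i2 ^ 2) (hβ : β = - (t i1 * t i2 * (t i1 + t i2)))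
    {F : ℂ[X][X]} (hF : F ∈ sys e S k t) :
    ∃ G ∈ sys (e - 1) S (fun i => if i = i1 ∨ i = i2 then k i - 1 else k i) t,
      F = lrW (-α) (-β) * G := by
  have hF' := mem_sys.1 hF
  have hy1 : t i1 ^ 3 = 0 + α * t i1 + β := by
    rw [hα, hβ]
    ring
  have hy2 : t i2 ^ 3 = 0 + α * t i2 + β := by
    rw [hα, hβ]
    ring
  have hne : i1 ≠ i2 := by
    intro h0
    exact h12 (by rw [h0])
  have hV := lr_phiS_inV α β hF'.1
  have hc1 := lr_cond hy1 (hF'.2 i1 h1)
  have hc2 := lr_cond hy2 (hF'.2 i2 h2)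
  have h0 : (phiS (lrW α β) F).map (ev0 ℂ) = 0 := by
    apply line_zero ({i1, i2} : Finset ι) t ?_ (fun i => Finset.Icc 1 (k i)) ?_ hV
    · intro i hi
      rw [Finset.mem_insert, Finset.mem_singleton] at hi
      rcases hi with rfl | rfl
      · exact hc1
      · exact hc2
    · intro i hi j hj hij
      rw [Finset.mem_coe, Finset.mem_insert, Finset.mem_singleton] at hi hj
      rcases hi with rfl | rfl <;> rcases hj with rfl | rfl
      · rfl
      · exact absurd hij h12
      · exact absurd hij.symm h12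
      · rfl
    · rw [Finset.sum_pair hne, mx_Icc, mx_Icc]
      omega
  obtain ⟨G, hG⟩ := exists_eq_y_mul h0
  have hGV : InV e G := by
    apply InV.of_y_mul
    rw [← hG]
    exact hV
  refine ⟨phiS (lrW (-α) (-β)) G, ?_, ?_⟩
  · rw [mem_sys]
    refine ⟨?_, ?_⟩
    · obtain ⟨e', rfl⟩ : ∃ e', e = e' + 1 := ⟨e - 1, by omega⟩
      rw [Nat.add_sub_cancel]
      exact lr_phiS_inV _ _ hGV
    · intro i hi
      change Cond (Finset.Icc 1 (if i = i1 ∨ i = i2 then k i - 1 else k i)) _ _ _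
      by_cases hi1 : i = i1
      · rw [if_pos (Or.inl hi1), hi1]
        apply lr_cond (Y := (0 : ℂ)) (by rw [hy1]; ring)
        rw [← lr_erase]
        apply Cond.residual_line
        rw [← hG]
        exact hc1
      · by_cases hi2 : i = i2
        · rw [if_pos (Or.inr hi2), hi2]
          apply lr_cond (Y := (0 : ℂ)) (by rw [hy2]; ring)
          rw [← lr_erase]
          apply Cond.residual_line
          rw [← hG]
          exact hc2
        · rw [if_neg (by tauto), hoth i hi hi1 hi2]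
          intro a
          rw [colH_Icc_thick, Nat.zero_sub, pow_zero]
          exact one_dvd _
  · have h3 : phiS (lrW (-α) (-β)) (C X * G) = lrW (-α) (-β) * phiS (lrW (-α) (-β)) G := by
      rw [map_mul, phiS_C_X]
    rw [← h3, ← hG, lr_phiS_inv]

/-- R8. If `e < k i1 + k i2`, the line through the two points divides every element of the system
(restrict to the line `y = α x + β`). -/
theorem line_row {ι : Type} [DecidableEq ι] {e : ℕ} {S : Finset ι} {k : ι → ℕ} {t : ι → ℂ}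
    (ht : Set.InjOn t (S : Set ι)) {i1 i2 : ι} (h1 : i1 ∈ S) (h2 : i2 ∈ S) (h12 : i1 ≠ i2)
    (hoth : ∀ i ∈ S, i ≠ i1 → i ≠ i2 → k i = 0) (he : 1 ≤ e) (h : e < k i1 + k i2) :
    Module.finrank ℂ ((sys e S k t).map res.toLinearMap) ≤
      Module.finrank ℂ ((sys (e - 1) S (fun i => if i = i1 ∨ i = i2 then k i - 1 else k i) t).map
        res.toLinearMap) := by
  have ht12 : t i1 ≠ t i2 := by
    intro h0
    exact h12 (ht (Finset.mem_coe.2 h1) (Finset.mem_coe.2 h2) h0)
  obtain ⟨α, hα⟩ : ∃ α, α = t i1 ^ 2 + t i1 * t i2 + t i2 ^ 2 := ⟨_, rfl⟩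
  obtain ⟨β, hβ⟩ : ∃ β, β = - (t i1 * t i2 * (t i1 + t i2)) := ⟨_, rfl⟩
  obtain ⟨V, hV⟩ : ∃ V : Submodule ℂ ℂ[X], V = (sys (e - 1) S
    (fun i => if i = i1 ∨ i = i2 then k i - 1 else k i) t).map res.toLinearMap := ⟨_, rfl⟩
  have hfin : Module.Finite ℂ V := by
    rw [hV]
    infer_instance
  rw [← hV]
  have hle : (sys e S k t).map res.toLinearMap ≤
      V.map (LinearMap.mulLeft ℂ (res (lrW (-α) (-β)))) := by
    rintro g ⟨F, hF, rfl⟩
    obtain ⟨G, hG, hFG⟩ := lr_div h1 h2 ht12 hoth he h hα hβ hF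
    refine ⟨res G, ?_, ?_⟩
    · rw [hV]
      exact ⟨G, hG, rfl⟩
    · change res (lrW (-α) (-β)) * res G = res F
      rw [hFG, map_mul]
  exact le_trans (Submodule.finrank_mono hle) (Submodule.finrank_map_le _ _)

end Pool.Agent.Lib.MP_6b2d39_agNw
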