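import Pool.Agent.Lib.MP_6b2d39_agNw.Quot
import Pool.Agent.Lib.MP_6b2d39_agWin.Lin

open Polynomial

set_option autoImplicit false

namespace Pool.Agent.Lib.MP_6b2d39_agNw

open Pool.Agent.Lib.MP_6b2d39_ag Pool.Agent.Lib.MP_6b2d39_ag.Rel
  Pool.Agent.Lib.MP_6b2d39_agWin Pool.Agent.Lib.MP_6b2d39_agArr

/-- the Taylor coefficient of order `(a, b)` at the point `(x, y)` -/
private noncomputable def pnTc (x y : ℂ) (a b : ℕ) : ℂ[X][X] →ₗ[ℂ] ℂ where
  toFun F := (taylor y ((taylor (C x) F).coeff a)).coeff b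
  map_add' F G := by
    rw [map_add, coeff_add, map_add, coeff_add]
  map_smul' c F := by
    have h0 : c • F = C (C c) * F := by
      rw [← smul_eq_C_mul]
      ext a b
      simp
    rw [h0, taylor_mul, taylor_C, coeff_C_mul, taylor_mul, taylor_C, coeff_C_mul]
    rfl

private theorem pnTc_apply (x y : ℂ) (a b : ℕ) (F : ℂ[X][X]) :
    pnTc x y a b F = (taylor y ((taylor (C x) F).coeff a)).coeff b := rfl

private theorem pnTc_high {e : ℕ} {F : ℂ[X][X]} (hF : InV (e + 1) F) (x y : ℂ) {a b : ℕ}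
    (hab : e < a + b) : pnTc x y a b F = 0 := by
  classical
  obtain ⟨P, hP⟩ : ∃ P : Finset (ℕ × ℕ), P = ((Finset.range (e + 1)) ×ˢ
    (Finset.range (e + 1))).filter (fun p => p.1 + p.2 < e + 1) := ⟨_, rfl⟩
  have hPm : ∀ p ∈ P, p.1 + p.2 < e + 1 := by
    intro p hp
    rw [hP, Finset.mem_filter] at hp
    exact hp.2
  have hS : SuppP P F := by
    intro i j hij
    apply hF
    by_contra h
    apply hij
    rw [hP, Finset.mem_filter, Finset.mem_product, Finset.mem_range, Finset.mem_range]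
    refine ⟨⟨?_, ?_⟩, ?_⟩
    · change i < e + 1
      omega
    · change j < e + 1
      omega
    · change i + j < e + 1
      omega
  rw [pnTc_apply, eq_ofC hS, coeff_taylor_ofC]
  refine Finset.sum_eq_zero fun i _ => ?_
  have h1 : i.1.1 + i.1.2 < e + 1 := hPm i.1 i.2
  have h3 : i.1.1 < a ∨ i.1.2 < b := by omega
  unfold Transfer.entry
  rcases h3 with h | h
  · rw [Nat.choose_eq_zero_of_lt h]
    simp
  · rw [Nat.choose_eq_zero_of_lt h]
    simp

private theorem pnTc_eq_zero {x y : ℂ} {F : ℂ[X][X]} (h : ∀ a b, pnTc x y a b F = 0) : F = 0 := by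
  have h1 : taylor (C x) F = 0 := by
    ext a b
    have h2 : (taylor (C x) F).coeff a = 0 := by
      apply taylor_injective y
      rw [map_zero]
      ext b
      rw [coeff_zero]
      exact h a b
    rw [h2, coeff_zero, coeff_zero, coeff_zero]
  apply taylor_injective (C x)
  rw [h1, map_zero]

/-- R9. -/
theorem sys_top {ι : Type} {e : ℕ} {S : Finset ι} {k : ι → ℕ} {t : ι → ℂ} {i1 : ι} (h1 : i1 ∈ S)
    (h : e < k i1) : sys e S k t = ⊥ := by
  rw [eq_bot_iff]
  intro F hF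
  rw [mem_sys] at hF
  rw [Submodule.mem_bot]
  apply pnTc_eq_zero (x := t i1) (y := t i1 ^ 3)
  intro a b
  rcases Nat.lt_or_ge e (a + b) with hab | hab
  · exact pnTc_high hF.1 _ _ hab
  · exact (Pool.Agent.Lib.MP_6b2d39_agWin.cond_iff _ _ _).1 (hF.2 i1 h1) a b (by omega)

/-- forms in `x - t i1`, `y - t i1 ^ 3` -/
theorem sys_pencil {ι : Type} {e : ℕ} {S : Finset ι} {k : ι → ℕ} {t : ι → ℂ} {i1 : ι}
    (h1 : i1 ∈ S) (h : k i1 = e) : Module.finrank ℂ (sys e S k t) ≤ e + 1 := by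
  obtain ⟨L, hL⟩ : ∃ L : sys e S k t →ₗ[ℂ] (Fin (e + 1) → ℂ), L =
    LinearMap.pi (fun a : Fin (e + 1) => (pnTc (t i1) (t i1 ^ 3) a.1 (e - a.1)).comp
      (sys e S k t).subtype) := ⟨_, rfl⟩
  have hinj : Function.Injective L := by
    rintro ⟨F, hF⟩ ⟨G, hG⟩ h0
    have hFG := mem_sys.1 (Submodule.sub_mem _ hF hG)
    apply Subtype.ext
    change F = G
    rw [← sub_eq_zero]
    apply pnTc_eq_zero (x := t i1) (y := t i1 ^ 3)
    intro a b
    rcases Nat.lt_trichotomy (a + b) e with hab | hab | hab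
    · exact (Pool.Agent.Lib.MP_6b2d39_agWin.cond_iff _ _ _).1 (hFG.2 i1 h1) a b (by omega)
    · have h2 := congrFun h0 (⟨a, by omega⟩ : Fin (e + 1))
      rw [hL] at h2
      have h3 : pnTc (t i1) (t i1 ^ 3) a (e - a) F = pnTc (t i1) (t i1 ^ 3) a (e - a) G := h2
      have h4 : e - a = b := by omega
      rw [h4] at h3
      rw [map_sub, h3, sub_self]
    · exact pnTc_high hFG.1 _ _ hab
  have h2 := LinearMap.finrank_le_finrank_of_injective hinj
  rwa [Module.finrank_fin_fun] at h2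

end Pool.Agent.Lib.MP_6b2d39_agNw
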