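import Pool.Agent.Lib.MP_6b2d39_agWin.CertExt

/-!
Profiles: rows `b < T` of lengths `sh b`, tip at `b = 0`, filled from `b = T - 1` to the tip.
-/

set_option autoImplicit false

namespace Pool.Agent.Lib.MP_6b2d39_agNw

open Pool.Agent.Lib.MP_6b2d39_agArr Pool.Agent.Lib.MP_6b2d39_agWin

/-- a good profile for multiplicities `≤ μ` -/
structure Prof (μ T : ℕ) (sh : ℕ → ℕ) : Prop where
  /-- the tip -/
  tip : ∀ b, sh b ≤ b + 1
  /-- towards the tip a row is at most one shorter than the previous one -/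
  up : ∀ b, b + 1 < T → sh (b + 1) ≤ sh b + 1
  /-- a row shorter than the next one belongs to the triangle at the tip -/
  short : ∀ b, b + 1 < T → sh b < sh (b + 1) → sh (b + 1) = b + 2
  /-- a row is long or strictly shorter than the following one (in the direction of the tip) -/
  fresh : ∀ b, 2 * μ ≤ b → b + 1 < T → μ ≤ sh (b + 1) ∨ sh (b + 1) + 1 ≤ sh b

/-- state of the filling procedure: the rows `b < L` are not yet full, the row `b` contains `X b`
cells used by the points placed so far; all these points are in their decreasing phase -/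
structure StP (μ : ℕ) (sh : ℕ → ℕ) (L : ℕ) (X : ℕ → ℕ) : Prop where
  le : ∀ b < L, X b ≤ sh b
  t1 : ∀ b, b + 1 < L → 1 ≤ X (b + 1) → X b + 1 ≤ X (b + 1)
  t0 : ∀ b, b + 1 < L → X (b + 1) = 0 → X b = 0
  t2 : ∀ b, b + 1 < L → μ + 1 ≤ X (b + 1) → X b + 2 ≤ X (b + 1)

/-- state in the last rows: overfilling by at most `μ` is allowed -/
structure CrP (μ : ℕ) (sh : ℕ → ℕ) (L : ℕ) (X : ℕ → ℕ) : Prop where
  le : ∀ b < L, X b ≤ sh b + μ
  t1 : ∀ b, b + 1 < L → 1 ≤ X (b + 1) → X b + 1 ≤ X (b + 1)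
  t0 : ∀ b, b + 1 < L → X (b + 1) = 0 → X b = 0

end Pool.Agent.Lib.MP_6b2d39_agNw
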