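import Pool.Agent.Lib.MP_6b2d39_agNw.Defs

open Polynomial

set_option autoImplicit false

namespace Pool.Agent.Lib.MP_6b2d39_agNw

open Pool.Agent.Lib.MP_6b2d39_ag Pool.Agent.Lib.MP_6b2d39_ag.Rel
  Pool.Agent.Lib.MP_6b2d39_agWin Pool.Agent.Lib.MP_6b2d39_agArr

/-- R6. -/
instance sys_finite {ι : Type} (e : ℕ) (S : Finset ι) (k : ι → ℕ) (t : ι → ℂ) :
    FiniteDimensional ℂ (sys e S k t) := by
  let L : sys e S k t →ₗ[ℂ] (Fin (e + 1) × Fin (e + 1) → ℂ) :=
    { toFun := fun F p => ((F : ℂ[X][X]).coeff p.1).coeff p.2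
      map_add' := fun F G => by
        funext p
        change ((((F : ℂ[X][X]) + G).coeff p.1).coeff p.2) = _
        rw [coeff_add, coeff_add]
        rfl
      map_smul' := fun c F => by
        funext p
        change (((c • (F : ℂ[X][X])).coeff p.1).coeff p.2) = _
        rw [coeff_smul, coeff_smul]
        rfl }
  refine FiniteDimensional.of_injective L fun F G hFG => ?_
  refine Subtype.ext ?_
  refine Polynomial.ext fun a => Polynomial.ext fun b => ?_
  rcases Nat.lt_or_ge (a + b) (e + 1) with h | h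
  · exact congrFun hFG (⟨a, by omega⟩, ⟨b, by omega⟩)
  · exact (F.2.1 a b h).trans (G.2.1 a b h).symm

theorem cub_mul_inV {n : ℕ} {H : ℂ[X][X]} (h : InV (n + 3) (cub * H)) : InV n H := by
  have h1 : ∀ b a, n ≤ a + b → (H.coeff a).coeff b = 0 := by
    intro b
    induction b with
    | zero =>
      intro a ha
      have h2 := h (a + 3) 0 (by omega)
      rw [cub, sub_mul, coeff_sub, coeff_C_mul, coeff_X_pow_mul, coeff_sub, mul_coeff_zero,
        coeff_X_zero, zero_mul, zero_sub, neg_eq_zero] at h2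
      exact h2
    | succ b ih =>
      intro a ha
      have h2 := h (a + 3) (b + 1) (by omega)
      rw [cub, sub_mul, coeff_sub, coeff_C_mul, coeff_X_pow_mul, coeff_sub, coeff_X_mul,
        ih (a + 3) (by omega), zero_sub, neg_eq_zero] at h2
      exact h2
  exact fun a b hab => h1 b a hab

theorem cub_mul_inV_small {n : ℕ} (hn : n ≤ 3) {H : ℂ[X][X]} (h : InV n (cub * H)) : H = 0 := by
  refine InV_zero (cub_mul_inV (n := 0) fun a b hab => h a b (by omega))

/-- (via `phiS (wS 3 1)`, `cond_phiS`, `Cond.residual_line` and back, or directly with ideals) -/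
theorem cub_mul_cond {m : ℕ} {t : ℂ} {H : ℂ[X][X]}
    (h : Cond (Finset.Icc 1 m) t (t ^ 3) (cub * H)) : Cond (Finset.Icc 1 (m - 1)) t (t ^ 3) H := by
  have h1 : phiS (wS 3 (1 : ℂ)) cub = C X := by
    rw [cub, map_sub (phiS _), map_pow (phiS _), phiS_C_X, phiS_X, wS, C_1, one_mul,
      add_sub_cancel_right]
  have h2 : Cond (Finset.Icc 1 m) t 0 (phiS (wS 3 (1 : ℂ)) (cub * H)) := by
    refine cond_phiS ?_
    rw [mul_zero, add_zero]
    exact h
  rw [map_mul (phiS _), h1] at h2
  have h3 : Cond (Finset.Icc 1 (m - 1)) t 0 (phiS (wS 3 (1 : ℂ)) H) := by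
    intro a
    have h4 := h2 a
    rw [taylor_y_mul, colH_Icc_thick] at h4
    rw [colH_Icc_thick]
    rcases Nat.lt_or_ge a m with h5 | h5
    · have h6 : m - a = (m - 1 - a) + 1 := by omega
      rw [h6, C_0, sub_zero, pow_succ, mul_comm] at h4
      rw [C_0, sub_zero]
      exact (mul_dvd_mul_iff_left X_ne_zero).1 h4
    · have h6 : m - 1 - a = 0 := by omega
      rw [h6, pow_zero]
      exact one_dvd _
  have h7 : (phiS (C X - X ^ 3)).comp (phiS (wS 3 (1 : ℂ))) = RingHom.id _ := by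
    apply Polynomial.ringHom_ext'
    · apply Polynomial.ringHom_ext'
      · ext c
        simp [phiS_C_C]
      · simp only [RingHom.comp_apply, RingHom.id_apply, phiS_C_X]
        rw [wS, C_1, one_mul, map_add, map_pow, phiS_C_X, phiS_X, sub_add_cancel]
    · simp [phiS_X]
  have h8 : phiS (C X - X ^ 3) (phiS (wS 3 (1 : ℂ)) H) = H := by
    rw [← RingHom.comp_apply, h7, RingHom.id_apply]
  rw [cond_iff] at h3 ⊢
  rw [← h8]
  refine mem_pow_of_map (phiS (C X - X ^ 3)) _ _ ?_ h3
  intro g hg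
  obtain ⟨u, v, rfl⟩ := Ideal.mem_span_pair.1 hg
  rw [map_add, map_mul, map_mul]
  apply Ideal.add_mem
  · apply Ideal.mul_mem_left
    rw [map_sub (phiS _), phiS_X, phiS_C_C]
    exact Ideal.subset_span (by simp)
  · apply Ideal.mul_mem_left
    obtain ⟨z, hz⟩ := sub_dvd_pow_sub_pow (X : ℂ[X][X]) (C (C t)) 3
    have h9 : phiS (C X - X ^ 3) (C (X - C (0 : ℂ))) =
        C (X - C (t ^ 3)) - z * (X - C (C t)) := by
      rw [C_0, sub_zero, phiS_C_X, mul_comm z, ← hz]
      simp only [C_pow, C_sub]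
      ring
    rw [h9]
    apply Ideal.sub_mem
    · exact Ideal.subset_span (by simp)
    · exact Ideal.mul_mem_left _ _ (Ideal.subset_span (by simp))

theorem sys_quot {ι : Type} {d b : ℕ} {S : Finset ι} {m : ι → ℕ} {t : ι → ℂ} {H : ℂ[X][X]}
    (h : cub ^ b * H ∈ sys d S m t) :
    H = 0 ∨ (3 * b ≤ d ∧ H ∈ sys (d - 3 * b) S (fun i => m i - b) t) := by
  have hc0 : cub ≠ 0 := by
    intro h0
    have h1 := congrArg (fun p : ℂ[X][X] => p.coeff 3) h0
    simp [cub] at h1
  have step : ∀ (d : ℕ) (m : ι → ℕ) (G : ℂ[X][X]), cub * G ∈ sys d S m t →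
      G = 0 ∨ (3 ≤ d ∧ G ∈ sys (d - 3) S (fun i => m i - 1) t) := by
    intro d m G hG
    rw [mem_sys] at hG
    rcases Nat.lt_or_ge d 3 with hd | hd
    · exact Or.inl (cub_mul_inV_small (by omega) hG.1)
    · refine Or.inr ⟨hd, mem_sys.2 ⟨cub_mul_inV ?_, fun i hi => cub_mul_cond (hG.2 i hi)⟩⟩
      have e1 : d - 3 + 1 + 3 = d + 1 := by omega
      rw [e1]
      exact hG.1
  induction b generalizing d m with
  | zero =>
    right
    rw [pow_zero, one_mul] at h
    exact ⟨by omega, h⟩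
  | succ b ih =>
    rw [pow_succ', mul_assoc] at h
    rcases step d m _ h with h1 | ⟨h1, h2⟩
    · exact Or.inl ((mul_eq_zero.1 h1).resolve_left (pow_ne_zero b hc0))
    · rcases ih h2 with h3 | ⟨h3, h4⟩
      · exact Or.inl h3
      · refine Or.inr ⟨by omega, ?_⟩
        have e1 : d - 3 - 3 * b = d - 3 * (b + 1) := by omega
        have e2 : (fun i => m i - 1 - b) = fun i => m i - (b + 1) := by
          funext i
          omega
        rw [e1, e2] at h4
        exact h4

end Pool.Agent.Lib.MP_6b2d39_agNw
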