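import Pool.Agent.Lib.MP_6b2d39_agNw.Defs

open Polynomial

set_option autoImplicit false

namespace Pool.Agent.Lib.MP_6b2d39_agNw

open Pool.Agent.Lib.MP_6b2d39_ag Pool.Agent.Lib.MP_6b2d39_ag.Rel
  Pool.Agent.Lib.MP_6b2d39_agWin Pool.Agent.Lib.MP_6b2d39_agArr

/-- the substitution `x ↦ x y` -/
private noncomputable def phiT : ℂ[X][X] →+* ℂ[X][X] := compRingHom (C X * X)

private theorem phiT_apply (f : ℂ[X][X]) : phiT f = f.comp (C X * X) := rfl

private theorem phiT_coeff (f : ℂ[X][X]) (a : ℕ) : (phiT f).coeff a = f.coeff a * X ^ a := by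
  rw [phiT_apply, comp_C_mul_X_coeff]

private theorem phiT_cond {m : ℕ} {x y : ℂ} {f : ℂ[X][X]}
    (h : Cond (Finset.Icc 1 m) (x * y) y f) : Cond (Finset.Icc 1 m) x y (phiT f) := by
  rw [cond_iff] at h ⊢
  refine mem_pow_of_map phiT _ _ ?_ h
  intro g hg
  obtain ⟨u, v, rfl⟩ := Ideal.mem_span_pair.1 hg
  rw [map_add, map_mul phiT, map_mul phiT]
  have h1 : phiT (X - C (C (x * y))) = C X * (X - C (C x)) + C (C x) * C (X - C y) := by
    rw [phiT_apply, sub_comp, X_comp, C_comp]
    simp only [C_mul, C_sub]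
    ring
  have h2 : phiT (C (X - C y)) = C (X - C y) := by
    rw [phiT_apply, C_comp]
  rw [h1, h2]
  apply Ideal.add_mem
  · apply Ideal.mul_mem_left
    apply Ideal.add_mem
    · exact Ideal.mul_mem_left _ _ (Ideal.subset_span (by simp))
    · exact Ideal.mul_mem_left _ _ (Ideal.subset_span (by simp))
  · exact Ideal.mul_mem_left _ _ (Ideal.subset_span (by simp))

/-- R1. The toric change `f(x, y) ↦ f(x y, y)`: exponents `(a, b) ↦ (a, a + b)`.
(phiS-like substitution for the outer variable; points `(x, y)` of the sheared problem give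
`(x * y, y)`; `cond_iff` and `mem_pow_of_map` of `ThickStep`.) -/
theorem EmpP.of_shear {ι : Type} {P : Finset (ℕ × ℕ)} {m : ι → ℕ} {J : Finset ι}
    (h : EmpP (P.image fun p => (p.1, p.1 + p.2)) m J) : EmpP P m J := by
  obtain ⟨x, y, hx, hy, H⟩ := h
  refine ⟨fun i => x i * y i, y, fun i => mul_ne_zero (hx i) (hy i), hy, fun f hf hc => ?_⟩
  have h1 : phiT f = 0 := by
    apply H
    · intro i j hij
      rw [phiT_coeff, coeff_mul_X_pow']
      split_ifs with h2
      · apply hf
        intro h3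
        apply hij
        rw [Finset.mem_image]
        refine ⟨(i, j - i), h3, ?_⟩
        simp only [Prod.mk.injEq, true_and]
        omega
      · rfl
    · intro i hi
      exact phiT_cond (hc i hi)
  ext a b
  have h2 := congrArg (fun g : ℂ[X][X] => (g.coeff a).coeff (b + a)) h1
  simp only [phiT_coeff, coeff_mul_X_pow, coeff_zero] at h2
  rw [h2, coeff_zero, coeff_zero]

end Pool.Agent.Lib.MP_6b2d39_agNw
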