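import Pool.Agent.Lib.MP_6b2d39_agNw.ResRow
import Pool.Agent.Lib.MP_6b2d39_agNw.LineRow
import Pool.Agent.Lib.MP_6b2d39_agNw.Pencil

open Polynomial

set_option autoImplicit false

namespace Pool.Agent.Lib.MP_6b2d39_agNw

open Pool.Agent.Lib.MP_6b2d39_ag Pool.Agent.Lib.MP_6b2d39_ag.Rel
  Pool.Agent.Lib.MP_6b2d39_agWin Pool.Agent.Lib.MP_6b2d39_agArr

private theorem tr_sum {ι : Type} [DecidableEq ι] {S : Finset ι} {k : ι → ℕ} {i1 i2 : ι}
    (h1 : i1 ∈ S) (h2 : i2 ∈ S) (h12 : i1 ≠ i2)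
    (hoth : ∀ i ∈ S, i ≠ i1 → i ≠ i2 → k i = 0) : ∑ i ∈ S, k i = k i1 + k i2 := by
  rw [← Finset.add_sum_erase S k h1, ← Finset.add_sum_erase (S.erase i1) k
    (Finset.mem_erase.2 ⟨h12.symm, h2⟩), Finset.sum_eq_zero, add_zero]
  intro i hi
  rw [Finset.mem_erase, Finset.mem_erase] at hi
  exact hoth i hi.2.2 hi.2.1 hi.1

private theorem two_aux {ι : Type} [DecidableEq ι] {S : Finset ι} {t : ι → ℂ}
    (ht : Set.InjOn t (S : Set ι)) {i1 i2 : ι} (h1 : i1 ∈ S) (h2 : i2 ∈ S) (h12 : i1 ≠ i2)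
    (n : ℕ) : ∀ (e : ℕ) (k : ι → ℕ), k i1 + k i2 - e = n →
    (∀ i ∈ S, i ≠ i1 → i ≠ i2 → k i = 0) → k i2 ≤ k i1 → k i1 < e →
    Module.finrank ℂ ((sys e S k t).map res.toLinearMap) ≤
      3 * e - (k i1 + k i2) - (k i1 + k i2 - e) := by
  induction n with
  | zero =>
    intro e k hn hoth hle hlt
    have hs := tr_sum (k := k) h1 h2 h12 hoth
    have h3 := res_row (e := e) (k := k) ht (by omega)
    rw [hs] at h3
    omega
  | succ n ih =>
    intro e k hn hoth hle hlt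
    have h3 := line_row (e := e) (k := k) ht h1 h2 h12 hoth (by omega) (by omega)
    obtain ⟨k', hk'⟩ : ∃ k' : ι → ℕ, k' = fun i => if i = i1 ∨ i = i2 then k i - 1 else k i :=
      ⟨_, rfl⟩
    rw [← hk'] at h3
    have e1 : k' i1 = k i1 - 1 := by rw [hk']; exact if_pos (Or.inl rfl)
    have e2 : k' i2 = k i2 - 1 := by rw [hk']; exact if_pos (Or.inr rfl)
    have h4 := ih (e - 1) k' (by omega)
      (fun i hi hi1 hi2 => by
        rw [hk']
        simp only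
        rw [if_neg (not_or.2 ⟨hi1, hi2⟩)]
        exact hoth i hi hi1 hi2)
      (by omega) (by omega)
    omega

/-- R10. iterate `line_row` `k i1 + k i2 - e` times, then `res_row` -/
theorem two_row {ι : Type} [DecidableEq ι] {e : ℕ} {S : Finset ι} {k : ι → ℕ} {t : ι → ℂ}
    (ht : Set.InjOn t (S : Set ι)) {i1 i2 : ι} (h1 : i1 ∈ S) (h2 : i2 ∈ S) (h12 : i1 ≠ i2)
    (hoth : ∀ i ∈ S, i ≠ i1 → i ≠ i2 → k i = 0) (hle : k i2 ≤ k i1) (hlt : k i1 < e) :
    Module.finrank ℂ ((sys e S k t).map res.toLinearMap) ≤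
      3 * e - (k i1 + k i2) - (k i1 + k i2 - e) :=
  two_aux ht h1 h2 h12 _ e k rfl hoth hle hlt

private theorem pencil_aux {ι : Type} [DecidableEq ι] {S : Finset ι} {t : ι → ℂ}
    (ht : Set.InjOn t (S : Set ι)) {i1 i2 : ι} (h1 : i1 ∈ S) (h2 : i2 ∈ S) (h12 : i1 ≠ i2)
    (n : ℕ) : ∀ (e : ℕ) (k : ι → ℕ), k i2 = n →
    (∀ i ∈ S, i ≠ i1 → i ≠ i2 → k i = 0) → k i2 ≤ k i1 → k i1 = e →
    Module.finrank ℂ ((sys e S k t).map res.toLinearMap) ≤ k i1 - k i2 + 1 := by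
  induction n with
  | zero =>
    intro e k hn _ _ heq
    have h3 := sys_pencil (S := S) (k := k) (t := t) h1 heq
    have h4 := Submodule.finrank_map_le res.toLinearMap (sys e S k t)
    omega
  | succ n ih =>
    intro e k hn hoth hle heq
    have h3 := line_row (e := e) (k := k) ht h1 h2 h12 hoth (by omega) (by omega)
    obtain ⟨k', hk'⟩ : ∃ k' : ι → ℕ, k' = fun i => if i = i1 ∨ i = i2 then k i - 1 else k i :=
      ⟨_, rfl⟩
    rw [← hk'] at h3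
    have e1 : k' i1 = k i1 - 1 := by rw [hk']; exact if_pos (Or.inl rfl)
    have e2 : k' i2 = k i2 - 1 := by rw [hk']; exact if_pos (Or.inr rfl)
    have h4 := ih (e - 1) k' (by omega)
      (fun i hi hi1 hi2 => by
        rw [hk']
        simp only
        rw [if_neg (not_or.2 ⟨hi1, hi2⟩)]
        exact hoth i hi hi1 hi2)
      (by omega) (by omega)
    omega

/-- iterate `line_row` `k i2` times, then `sys_pencil` -/
theorem pencil_row {ι : Type} [DecidableEq ι] {e : ℕ} {S : Finset ι} {k : ι → ℕ} {t : ι → ℂ}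
    (ht : Set.InjOn t (S : Set ι)) {i1 i2 : ι} (h1 : i1 ∈ S) (h2 : i2 ∈ S) (h12 : i1 ≠ i2)
    (hoth : ∀ i ∈ S, i ≠ i1 → i ≠ i2 → k i = 0) (hle : k i2 ≤ k i1) (heq : k i1 = e) :
    Module.finrank ℂ ((sys e S k t).map res.toLinearMap) ≤ k i1 - k i2 + 1 :=
  pencil_aux ht h1 h2 h12 _ e k rfl hoth hle heq

end Pool.Agent.Lib.MP_6b2d39_agNw
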